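import Pool.Agent.Lib.MP_96faa3_co.Sbo

/-!
# The classes of gammoids, strongly base-orderable and base-orderable matroids
-/

namespace Pool.Agent.Lib.MP_96faa3_co

open Set Matroid

/-- The class of gammoids. -/
def gammoids : MatroidClass where
  Mem M := IsGammoid M
  iso h hM := isGammoid_of_rep (rep_iso h (rep_of_isGammoid hM))

/-- The class of strongly base-orderable matroids. -/
def stronglyBaseOrderable : MatroidClass where
  Mem M := IsStronglyBaseOrderable M
  iso h hM := sbo_iff_gen.2 (genBO_iso h (sbo_iff_gen.1 hM))

/-- The class of base-orderable matroids. -/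
def baseOrderable : MatroidClass where
  Mem M := IsBaseOrderable M
  iso h hM := bo_iff_gen.2 (genBO_iso h (bo_iff_gen.1 hM))

/-- `C` is the largest complete class containing no member of the family `M` (indexed by `ι`):
no `M i` lies in `C`, and every complete class containing none of the `M i` is contained
in `C`. -/
def MatroidClass.IsLargestAvoiding (C : MatroidClass) {ι : Type} (α : ι → Type)
    [∀ i, Finite (α i)] (M : ∀ i, Matroid (α i)) : Prop :=
  (∀ i, ¬ C.Mem (M i)) ∧
    ∀ D : MatroidClass, D.IsComplete → (∀ i, ¬ D.Mem (M i)) → D.Sub C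

/-- `C` is the largest complete class avoiding some finite family of finite matroids. -/
def MatroidClass.FinitelyExcluded (C : MatroidClass) : Prop :=
  ∃ (ι : Type) (_ : Finite ι) (α : ι → Type) (_ : ∀ i, Finite (α i))
    (M : ∀ i, Matroid (α i)), C.IsLargestAvoiding α M

end Pool.Agent.Lib.MP_96faa3_co
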