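import Mathlib

/-!
# Complete classes of matroids: definitions

All matroids are finite: they are Mathlib matroids whose carrier type is finite
(the ground set `M.E` may be any subset of the carrier type).
-/

namespace Pool.Agent.Lib.MP_96faa3_co

open Set Matroid

/-- Two matroids are isomorphic: some bijection of the ground sets carries `M` to `N`. -/
def Iso {α β : Type} (M : Matroid α) (N : Matroid β) : Prop :=
  ∃ e : M.E ≃ N.E, M.mapSetEquiv e = N

/-- `LinkedOnto Γ X J`: in the digraph with arc relation `Γ` on the vertex set `V`, the set `X` is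
joined onto `J` by pairwise vertex-disjoint directed paths. A path is a duplicate-free list of
vertices, consecutive ones joined by arcs (a one-element list is a path of length zero);
`P x` is the path starting at `x`, and `J` is exactly the set of end vertices. -/
def LinkedOnto {V : Type} (Γ : V → V → Prop) (X J : Set V) : Prop :=
  ∃ P : V → List V,
    (∀ x ∈ X, (P x).IsChain Γ ∧ (P x).Nodup ∧ (P x).head? = some x) ∧
    (∀ x ∈ X, ∀ y ∈ X, x ≠ y → (P x).Disjoint (P y)) ∧
    J = {j | ∃ x ∈ X, (P x).getLast? = some j}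

/-- `N` is the matroid induced on `A` by the digraph `Γ` from the matroid `M₀`. -/
def IsInduced {V : Type} (Γ : V → V → Prop) (M₀ : Matroid V) (A : Set V) (N : Matroid V) : Prop :=
  N.E = A ∧ ∀ X, N.Indep X ↔ X ⊆ A ∧ ∃ J, M₀.Indep J ∧ LinkedOnto Γ X J

/-- A gammoid: isomorphic to a matroid induced by a finite digraph from a free matroid. -/
def IsGammoid {α : Type} (M : Matroid α) : Prop :=
  ∃ (V : Type) (_ : Finite V) (Γ : V → V → Prop) (S A : Set V) (N : Matroid V),
    IsInduced Γ (freeOn S) A N ∧ Iso N M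

/-- Strong base-orderability. -/
def IsStronglyBaseOrderable {α : Type} (M : Matroid α) : Prop :=
  ∀ B₁ B₂ : Set α, M.IsBase B₁ → M.IsBase B₂ →
    ∃ φ : α → α, BijOn φ B₁ B₂ ∧ ∀ X ⊆ B₁, M.IsBase ((B₁ \ X) ∪ φ '' X)

/-- Base-orderability: the exchange condition only for `|X| = 1` and `|X| = r - 1`. -/
def IsBaseOrderable {α : Type} (M : Matroid α) : Prop :=
  ∀ B₁ B₂ : Set α, M.IsBase B₁ → M.IsBase B₂ →
    ∃ φ : α → α, BijOn φ B₁ B₂ ∧
      ∀ X ⊆ B₁, (X.ncard = 1 ∨ X.ncard + 1 = B₁.ncard) → M.IsBase ((B₁ \ X) ∪ φ '' X)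

/-- A class of (finite) matroids, closed under isomorphism. -/
structure MatroidClass where
  /-- membership of a matroid in the class -/
  Mem : ∀ {α : Type} [Finite α], Matroid α → Prop
  iso : ∀ {α β : Type} [Finite α] [Finite β] {M : Matroid α} {N : Matroid β},
    Iso M N → Mem M → Mem N

/-- Inclusion of classes. -/
def MatroidClass.Sub (C D : MatroidClass) : Prop :=
  ∀ {α : Type} [Finite α] (M : Matroid α), C.Mem M → D.Mem M

/-- Complete classes: closed under restriction, contraction, duality, direct sum, truncation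
and induction by digraphs. -/
structure MatroidClass.IsComplete (C : MatroidClass) : Prop where
  restrict : ∀ {α : Type} [Finite α] {M : Matroid α} (R : Set α), R ⊆ M.E →
    C.Mem M → C.Mem (M ↾ R)
  contract : ∀ {α : Type} [Finite α] {M : Matroid α} (X : Set α), X ⊆ M.E →
    C.Mem M → C.Mem (M ／ X)
  dual : ∀ {α : Type} [Finite α] {M : Matroid α}, C.Mem M → C.Mem M✶
  sum : ∀ {α β : Type} [Finite α] [Finite β] {M : Matroid α} {N : Matroid β},
    C.Mem M → C.Mem N → C.Mem (M.sum N)
  truncate : ∀ {α : Type} [Finite α] {M N : Matroid α} (k : ℕ), C.Mem M → N.E = M.E →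
    (∀ I, N.Indep I ↔ M.Indep I ∧ I.ncard ≤ k) → C.Mem N
  induce : ∀ {V : Type} [Finite V] (Γ : V → V → Prop) {M₀ N : Matroid V} (A : Set V),
    C.Mem M₀ → IsInduced Γ M₀ A N → C.Mem N

end Pool.Agent.Lib.MP_96faa3_co
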