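import Pool.Agent.Lib.MP_96faa3_co.QClass

/-! Induction by digraphs expressed through duality and bipartite induction. -/

namespace Pool.Agent.Lib.MP_96faa3_co

open Set Matroid

variable {V : Type} [Finite V]

lemma restrict_univ_eq_bip (M : Matroid V) : M ↾ univ = bip (fun a b : V => a = b) M := by
  refine Matroid.ext_indep rfl ?_
  intro X _
  rw [restrict_indep_iff, bip_indep]
  constructor
  · rintro ⟨h, -⟩
    exact ⟨Subtype.val, Subtype.val_injective, fun _ => rfl, by simpa using h⟩
  · rintro ⟨g, -, hg, hI⟩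
    refine ⟨?_, subset_univ _⟩
    have : g = Subtype.val := funext (fun x => (hg x).symm)
    rw [this] at hI
    simpa using hI

lemma isBase_restrict_univ (M : Matroid V) (B : Set V) : (M ↾ univ).IsBase B ↔ M.IsBase B := by
  rw [isBase_iff_indep_ncard, isBase_iff_indep_ncard, restrict_indep_iff, restrict_ground_eq,
    rk_restrict, inter_self]
  have : rk M univ = rk M M.E := by
    rw [← rk_inter_ground M univ, univ_inter]
  rw [this]
  simp

/-- the bipartite graph used in the duality -/
def dgraph (Γ : V → V → Prop) : V → V → Prop := fun u t => u = t ∨ Γ t u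

lemma induced_indep_iff (Γ : V → V → Prop) (M₀ : Matroid V) (X : Set V) :
    (bip (dgraph Γ) (M₀ ↾ univ)✶)✶.Indep X ↔ ∃ J₀, M₀.IsBase J₀ ∧ Matched Γ X J₀ := by
  classical
  set K := (M₀ ↾ univ)✶ with hK
  have hKE : K.E = univ := rfl
  have hKB : ∀ B, K.IsBase B ↔ M₀.IsBase Bᶜ := by
    intro B
    rw [hK, dual_isBase_iff', isBase_restrict_univ, restrict_ground_eq, ← compl_eq_univ_sdiff]
    simp
  have hle : ∀ B, (bip (dgraph Γ) K).Indep B → B.ncard ≤ rk K K.E := by
    rintro B ⟨g, hg, -, hgI⟩
    have h1 := Indep.le_rk hgI hgI.subset_ground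
    rwa [← image_univ, Set.ncard_image_of_injective _ hg, Set.ncard_univ,
      Nat.card_coe_set_eq] at h1
  have hrank : rk (bip (dgraph Γ) K) (bip (dgraph Γ) K).E = rk K K.E := by
    apply le_antisymm
    · obtain ⟨I, -, hI, hc, -⟩ := exists_indep_rk (bip (dgraph Γ) K) (bip (dgraph Γ) K).E
      rw [← hc]
      exact hle I hI
    · obtain ⟨I, -, hI, hc, -⟩ := exists_indep_rk K K.E
      rw [← hc]
      refine Indep.le_rk (M := bip (dgraph Γ) K) ?_ (subset_univ _)
      exact ⟨Subtype.val, Subtype.val_injective, fun _ => Or.inl rfl, by simpa using hI⟩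
  rw [dual_indep_iff_exists (subset_univ _)]
  constructor
  · rintro ⟨B, hB, hdis⟩
    rw [isBase_iff_indep_ncard, hrank] at hB
    obtain ⟨⟨g, hg, hgΔ, hgI⟩, hBc⟩ := hB
    have hrg : (range g).ncard = B.ncard := by
      rw [← image_univ, Set.ncard_image_of_injective _ hg, Set.ncard_univ, Nat.card_coe_set_eq]
    have hbase : K.IsBase (range g) := by
      rw [isBase_iff_indep_ncard]
      exact ⟨hgI, by rw [hrg, hBc]⟩
    refine ⟨(range g)ᶜ, (hKB _).1 hbase, fun t => if h : t ∈ range g then (h.choose : V) else t,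
      ?_, ?_⟩
    · intro a ha b hb hab
      rw [compl_compl] at ha hb
      simp only [ha, hb, dif_pos] at hab
      have h1 := ha.choose_spec
      have h2 := hb.choose_spec
      rw [← h1, ← h2, Subtype.val_injective hab]
    · intro t ht
      rw [notMem_compl_iff] at ht
      simp only [ht, dif_pos]
      have h1 := ht.choose_spec
      have h2 := hgΔ ht.choose
      rw [h1] at h2
      exact ⟨h2, fun hX => Set.disjoint_left.1 hdis hX (ht.choose).2⟩
  · rintro ⟨J₀, hJ₀, f, hf, hfX⟩
    have hKJ : K.IsBase J₀ᶜ := by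
      rw [hKB, compl_compl]
      exact hJ₀
    refine ⟨f '' J₀ᶜ, ?_, ?_⟩
    · rw [isBase_iff_indep_ncard, hrank]
      constructor
      · have h1 : ∀ b : (f '' J₀ᶜ : Set V), ∃ t, t ∈ J₀ᶜ ∧ f t = b := fun b => b.2
        choose g hg using h1
        refine ⟨g, ?_, ?_, ?_⟩
        · intro b b' hbb
          apply Subtype.val_injective
          rw [← (hg b).2, ← (hg b').2, hbb]
        · intro b
          have h2 := (hfX (g b) (hg b).1).1
          rw [(hg b).2] at h2
          exact h2
        · refine hKJ.indep.subset ?_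
          rintro _ ⟨b, rfl⟩
          exact (hg b).1
      · rw [hf.ncard_image, IsBase.rk_eq hKJ]
    · rw [Set.disjoint_right]
      rintro _ ⟨t, ht, rfl⟩
      exact (hfX t ht).2

lemma q_digraph {m s : ℕ} (hm : 0 < m) (Γ : V → V → Prop) {M₀ N : Matroid V} (A : Set V)
    (h : QMem m s M₀) (hN : IsInduced Γ M₀ A N) : QMem m s N := by
  have h1 : N = (bip (dgraph Γ) (M₀ ↾ univ)✶)✶ ↾ A := by
    refine Matroid.ext_indep hN.1 ?_
    intro X _
    rw [hN.2, restrict_indep_iff, induced_indep_iff, ← linked_indep_iff, and_comm]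
  rw [h1]
  apply q_restrict hm (subset_univ _)
  apply q_dual hm
  apply q_bip hm
  apply q_dual hm
  rw [restrict_univ_eq_bip]
  exact q_bip hm _ h

end Pool.Agent.Lib.MP_96faa3_co
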