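import Pool.Agent.Lib.MP_96faa3_co.Split

/-! The non base-orderable matroids `NN p`. -/

namespace Pool.Agent.Lib.MP_96faa3_co

open Set Matroid

/-- block sizes -/
def sz (p : ℕ) (c : Fin 6) : ℕ := if c = 0 ∨ c = 1 then 2 * p + 1 else p + 1

/-- the ground type -/
abbrev GT (p : ℕ) : Type := Σ c : Fin 6, Fin (sz p c)

/-- the union of the blocks in `T` -/
def bl (p : ℕ) (T : Finset (Fin 6)) : Set (GT p) := {x | x.1 ∈ T}

lemma ncard_bl (p : ℕ) (T : Finset (Fin 6)) : (bl p T).ncard = ∑ c ∈ T, sz p c := by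
  classical
  have h : bl p T = ((T.sigma (fun c => (Finset.univ : Finset (Fin (sz p c))))) : Finset (GT p)) := by
    ext x
    simp [bl]
  rw [h, Set.ncard_coe_finset, Finset.card_sigma]
  simp

lemma card_GT (p : ℕ) : Nat.card (GT p) = 8 * p + 6 := by
  rw [← Set.ncard_univ]
  have h : (univ : Set (GT p)) = bl p Finset.univ := by
    ext x; simp [bl]
  rw [h, ncard_bl]
  simp only [Fin.sum_univ_succ, sz]
  simp
  omega

/-- the blocks of the four flats -/
def SF : Fin 4 → Finset (Fin 6) := ![{0, 2, 4}, {0, 3, 5}, {1, 2, 5}, {1, 3, 4}]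

/-- the four flats -/
def FF (p : ℕ) (a : Fin 4) : Set (GT p) := bl p (SF a)

lemma bl_inter (p : ℕ) (S T : Finset (Fin 6)) : bl p S ∩ bl p T = bl p (S ∩ T) := by
  ext x; simp [bl]

lemma bl_union (p : ℕ) (S T : Finset (Fin 6)) : bl p S ∪ bl p T = bl p (S ∪ T) := by
  ext x; simp [bl]

lemma bl_compl (p : ℕ) (S : Finset (Fin 6)) : (bl p S)ᶜ = bl p Sᶜ := by
  ext x; simp [bl]

lemma FF_ncard (p : ℕ) (a : Fin 4) : (FF p a).ncard = 4 * p + 3 := by
  unfold FF
  rw [ncard_bl]
  fin_cases a <;> simp [SF, sz] <;> omega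

lemma SF_inter (a b : Fin 4) (h : a ≠ b) : ∃ c : Fin 6, SF a ∩ SF b = {c} := by
  revert a b
  decide

lemma sz_le (p : ℕ) (c : Fin 6) : sz p c ≤ 2 * p + 1 := by
  unfold sz
  split <;> omega

lemma FF_inter (p : ℕ) (a b : Fin 4) (h : a ≠ b) : (FF p a ∩ FF p b).ncard ≤ 2 * p + 1 := by
  unfold FF
  obtain ⟨c, hc⟩ := SF_inter a b h
  rw [bl_inter, hc, ncard_bl, Finset.sum_singleton]
  exact sz_le p c

lemma FF_hyp (p : ℕ) (a b : Fin 4) (h : a ≠ b) :
    (FF p a ∩ FF p b).ncard + (4 * p + 3) ≤ 2 * (3 * p + 2) := by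
  have := FF_inter p a b h
  omega

/-- the matroid -/
noncomputable def NN (p : ℕ) : Matroid (GT p) := spl (FF p) (4 * p + 3) (3 * p + 2) (FF_hyp p)

/-- its relaxation -/
noncomputable def NL (p : ℕ) (c : Fin 4) : Matroid (GT p) :=
  spl (fun a : {a : Fin 4 // a ≠ c} => FF p a) (4 * p + 3) (3 * p + 2)
    (fun a b h => FF_hyp p a b (fun h' => h (Subtype.ext h')))

/-- every element lies in exactly two of the four flats -/
lemma sum_inter_FF (p : ℕ) (B : Set (GT p)) : ∑ a, (B ∩ FF p a).ncard = 2 * B.ncard := by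
  classical
  have : Fintype (GT p) := Fintype.ofFinite _
  have h1 : ∀ S : Set (GT p), S.ncard = ∑ x : GT p, if x ∈ S then 1 else 0 := by
    intro S
    rw [Set.ncard_eq_toFinset_card' S]
    simp
  have h2 : ∀ x : GT p, ∑ a : Fin 4, (if x ∈ FF p a then 1 else 0) = 2 := by
    rintro ⟨c, x⟩
    have h3 : ∀ c : Fin 6, ∑ a : Fin 4, (if c ∈ SF a then 1 else 0) = 2 := by decide
    rw [← h3 c]
    refine Finset.sum_congr rfl (fun a _ => ?_)
    have h4 : ((⟨c, x⟩ : GT p) ∈ FF p a) ↔ c ∈ SF a := Iff.rfl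
    by_cases h5 : c ∈ SF a
    · rw [if_pos h5, if_pos (h4.2 h5)]
    · rw [if_neg h5, if_neg (fun h => h5 (h4.1 h))]
  simp only [h1]
  rw [Finset.sum_comm, Finset.mul_sum]
  refine Finset.sum_congr rfl (fun x _ => ?_)
  by_cases hx : x ∈ B
  · simp only [mem_inter_iff, hx, true_and, if_true]
    rw [h2]
    norm_num
  · simp [hx]

lemma cover3 (c : Fin 4) (k : Fin 6) : ∃ a, a ≠ c ∧ k ∈ SF a := by
  revert c k
  decide

lemma union2 (p : ℕ) (a b : Fin 4) (h : a ≠ b) : ((FF p a ∪ FF p b)ᶜ).ncard ≤ 2 * p + 1 := by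
  have h1 := Set.ncard_add_ncard_compl (FF p a ∪ FF p b) (Set.toFinite _) (Set.toFinite _)
  have h2 := Set.ncard_union_add_ncard_inter (FF p a) (FF p b) (Set.toFinite _) (Set.toFinite _)
  rw [FF_ncard, FF_ncard] at h2
  rw [card_GT] at h1
  have h3 := FF_inter p a b h
  omega

/-- the relaxations are gammoids -/
lemma rep_NL (p : ℕ) (c : Fin 4) : Rep (NL p c) := by
  classical
  let ι := {a : Fin 4 // a ≠ c} × Fin (p + 1) ⊕ Fin p
  let D : ι → Set (GT p) := Sum.elim (fun x => FF p x.1) (fun _ => univ)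
  have hι : Nat.card ι = 4 * p + 3 := by
    have : Nat.card {a : Fin 4 // a ≠ c} = 3 := by
      rw [Nat.card_eq_fintype_card, Fintype.card_subtype_compl, Fintype.card_subtype_eq]
      rfl
    simp only [ι]
    rw [Nat.card_sum, Nat.card_prod, this, Nat.card_fin, Nat.card_fin]
    omega
  refine ⟨GT p, ι, inferInstance, inferInstance, D, id, injOn_id _, ?_⟩
  intro X _
  rw [image_id]
  unfold NL
  rw [spl_indep]
  constructor
  · rintro ⟨hX1, hX2⟩
    have hXc : 4 * p + 3 ≤ Xᶜ.ncard := by
      have := Set.ncard_add_ncard_compl X (Set.toFinite _) (Set.toFinite _)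
      rw [card_GT] at this
      omega
    have hfree : ∀ S : Set (GT p), rk (freeOn (univ : Set (GT p))) S = S.ncard := by
      intro S
      apply Indep.rk_eq
      simp
    have := rado (freeOn (univ : Set (GT p))) (fun i => D i \ X) ?_
    · obtain ⟨g, hg, hgD, -⟩ := this
      exact ⟨g, hg, fun i => (hgD i).1, fun i => (hgD i).2⟩
    · intro J
      rw [hfree]
      have hJle : J.ncard ≤ 4 * p + 3 := by
        rw [← hι, ← Set.ncard_univ]
        exact Set.ncard_le_ncard (subset_univ _) (Set.toFinite _)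
      by_cases hu : ∃ j : Fin p, Sum.inr j ∈ J
      · obtain ⟨j, hj⟩ := hu
        have h1 : Xᶜ ⊆ ⋃ j ∈ J, D j \ X := by
          intro x hx
          exact mem_iUnion₂.2 ⟨_, hj, mem_univ _, hx⟩
        exact (hJle.trans hXc).trans (Set.ncard_le_ncard h1 (Set.toFinite _))
      · push Not at hu
        have hJ' : J ⊆ Sum.inl '' univ := by
          rintro (x | j) hx
          · exact ⟨x, mem_univ _, rfl⟩
          · exact absurd hx (hu j)
        -- the set of `a`-values used
        by_cases h3 : ∀ a : {a : Fin 4 // a ≠ c}, ∃ j, Sum.inl (a, j) ∈ J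
        · have h1 : Xᶜ ⊆ ⋃ j ∈ J, D j \ X := by
            intro x hx
            obtain ⟨a, ha, hk⟩ := cover3 c x.1
            obtain ⟨j, hj⟩ := h3 ⟨a, ha⟩
            exact mem_iUnion₂.2 ⟨_, hj, hk, hx⟩
          exact (hJle.trans hXc).trans (Set.ncard_le_ncard h1 (Set.toFinite _))
        · push Not at h3
          obtain ⟨a0, ha0⟩ := h3
          -- at most two values
          by_cases h2 : ∃ a b : {a : Fin 4 // a ≠ c}, a ≠ b ∧ (∃ j, Sum.inl (a, j) ∈ J) ∧
              (∃ j, Sum.inl (b, j) ∈ J)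
          · obtain ⟨a, b, hab, ⟨ja, hja⟩, ⟨jb, hjb⟩⟩ := h2
            have h4 : J ⊆ Sum.inl '' (({x | (x : Fin 4) ≠ a0} : Set {a : Fin 4 // a ≠ c}) ×ˢ
                (univ : Set (Fin (p + 1)))) := by
              rintro (⟨x, j⟩ | j) hx
              · refine ⟨(x, j), ⟨?_, mem_univ _⟩, rfl⟩
                intro hxa
                have hxa' : x = a0 := Subtype.ext hxa
                subst hxa'
                exact ha0 j hx
              · exact absurd hx (hu j)
            have h5 : J.ncard ≤ 2 * (p + 1) := by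
              refine (Set.ncard_le_ncard h4 (Set.toFinite _)).trans ?_
              rw [Set.ncard_image_of_injective _ Sum.inl_injective, Set.ncard_prod,
                Set.ncard_univ, Nat.card_fin]
              apply Nat.mul_le_mul_right
              have h6 : ({x | (x : Fin 4) ≠ a0} : Set {a : Fin 4 // a ≠ c}).ncard =
                  (Subtype.val '' {x : {a : Fin 4 // a ≠ c} | (x : Fin 4) ≠ a0}).ncard := by
                rw [Set.ncard_image_of_injective _ Subtype.val_injective]
              rw [h6]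
              have h7 : (Subtype.val '' {x : {a : Fin 4 // a ≠ c} | (x : Fin 4) ≠ a0}) ⊆
                  (({c, (a0 : Fin 4)}ᶜ : Finset (Fin 4)) : Set (Fin 4)) := by
                rintro _ ⟨x, hx, rfl⟩
                simp only [Finset.coe_compl, Finset.coe_insert, Finset.coe_singleton,
                  mem_compl_iff, mem_insert_iff, mem_singleton_iff, not_or]
                exact ⟨x.2, hx⟩
              refine (Set.ncard_le_ncard h7 (Set.toFinite _)).trans ?_
              rw [Set.ncard_coe_finset, Finset.card_compl,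
                Finset.card_pair (fun h => a0.2 h.symm)]
              simp
            have h8 : (FF p a ∪ FF p b) \ X ⊆ ⋃ j ∈ J, D j \ X := by
              rintro x ⟨hx | hx, hxX⟩
              · exact mem_iUnion₂.2 ⟨_, hja, hx, hxX⟩
              · exact mem_iUnion₂.2 ⟨_, hjb, hx, hxX⟩
            have h9 : Xᶜ.ncard ≤ ((FF p a ∪ FF p b) \ X).ncard + (2 * p + 1) := by
              have h10 : Xᶜ ⊆ ((FF p a ∪ FF p b) \ X) ∪ (FF p a ∪ FF p b)ᶜ := by
                intro x hx
                by_cases hxF : x ∈ FF p a ∪ FF p b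
                · exact Or.inl ⟨hxF, hx⟩
                · exact Or.inr hxF
              have h11 := (Set.ncard_le_ncard h10 (Set.toFinite _)).trans (Set.ncard_union_le _ _)
              have h12 := union2 p a b (fun h => hab (Subtype.ext h))
              omega
            have h13 := Set.ncard_le_ncard h8 (Set.toFinite _)
            omega
          · by_cases hJ0 : J = ∅
            · simp [hJ0]
            · obtain ⟨x, hx⟩ := Set.nonempty_iff_ne_empty.2 hJ0
              obtain ⟨⟨a, ja⟩, -, rfl⟩ := hJ' hx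
              have h4 : J ⊆ Sum.inl '' (({a} : Set {a : Fin 4 // a ≠ c}) ×ˢ
                  (univ : Set (Fin (p + 1)))) := by
                rintro (⟨b, j⟩ | j) hy
                · refine ⟨(b, j), ⟨?_, mem_univ _⟩, rfl⟩
                  by_contra hne
                  exact h2 ⟨b, a, hne, ⟨j, hy⟩, ⟨ja, hx⟩⟩
                · exact absurd hy (hu j)
              have h5 : J.ncard ≤ p + 1 := by
                refine (Set.ncard_le_ncard h4 (Set.toFinite _)).trans ?_
                rw [Set.ncard_image_of_injective _ Sum.inl_injective, Set.ncard_prod,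
                  Set.ncard_univ, Nat.card_fin, Set.ncard_singleton, one_mul]
              have h8 : FF p a \ X ⊆ ⋃ j ∈ J, D j \ X := by
                rintro x ⟨hx', hxX⟩
                exact mem_iUnion₂.2 ⟨_, hx, hx', hxX⟩
              have h9 := Set.ncard_inter_add_ncard_sdiff_eq_ncard (FF p a) X (Set.toFinite _)
              have h10 := hX2 a
              rw [inter_comm] at h10
              rw [FF_ncard] at h9
              have h13 := Set.ncard_le_ncard h8 (Set.toFinite _)
              omega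
  · rintro ⟨G, hG, hGD, hGX⟩
    constructor
    · have h1 : (range G ∪ X).ncard = 4 * p + 3 + X.ncard := by
        rw [Set.ncard_union_eq _ (Set.toFinite _) (Set.toFinite _)]
        · congr 1
          rw [← image_univ, Set.ncard_image_of_injective _ hG, Set.ncard_univ, hι]
        · rw [Set.disjoint_left]
          rintro _ ⟨i, rfl⟩
          exact hGX i
      have h2 := Set.ncard_add_ncard_compl (range G ∪ X) (Set.toFinite _) (Set.toFinite _)
      rw [card_GT] at h2
      omega
    · intro a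
      have h1 : Function.Injective (fun j : Fin (p + 1) => G (Sum.inl (a, j))) := by
        intro i j hij
        have h5 := Sum.inl_injective (hG hij)
        exact (Prod.mk.inj h5).2
      have h2 : (range (fun j : Fin (p + 1) => G (Sum.inl (a, j)))).ncard = p + 1 := by
        rw [← image_univ, Set.ncard_image_of_injective _ h1, Set.ncard_univ, Nat.card_fin]
      have h3 : (range (fun j : Fin (p + 1) => G (Sum.inl (a, j)))) ⊆ FF p a \ X := by
        rintro _ ⟨j, rfl⟩
        exact ⟨hGD (Sum.inl (a, j)), hGX _⟩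
      have h4 := Set.ncard_le_ncard h3 (Set.toFinite _)
      have h9 := Set.ncard_inter_add_ncard_sdiff_eq_ncard (FF p a) X (Set.toFinite _)
      rw [FF_ncard] at h9
      rw [inter_comm]
      omega

lemma sz_big (p : ℕ) (c : Fin 6) (h : c = 0 ∨ c = 1) : sz p c = 2 * p + 1 := by
  unfold sz; rw [if_pos h]

lemma sz_small (p : ℕ) (c : Fin 6) (h : ¬ (c = 0 ∨ c = 1)) : sz p c = p + 1 := by
  unfold sz; rw [if_neg h]

lemma base1_inter (p : ℕ) : ∀ a : Fin 4, (bl p {0, 4, 5} ∩ FF p a).ncard =
    (![3 * p + 2, 3 * p + 2, p + 1, p + 1] : Fin 4 → ℕ) a := by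
  intro a
  unfold FF
  rw [bl_inter, ncard_bl]
  fin_cases a
  · have : (({0, 4, 5} : Finset (Fin 6)) ∩ SF 0) = {0, 4} := by decide
    simp only [Fin.zero_eta, this]
    simp [sz]; omega
  · have : (({0, 4, 5} : Finset (Fin 6)) ∩ SF 1) = {0, 5} := by decide
    simp only [Fin.mk_one, this]
    simp [sz]; omega
  · have : (({0, 4, 5} : Finset (Fin 6)) ∩ SF 2) = {5} := by decide
    simp only [Fin.reduceFinMk, this]
    simp [sz]
  · have : (({0, 4, 5} : Finset (Fin 6)) ∩ SF 3) = {4} := by decide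
    simp only [Fin.reduceFinMk, this]
    simp [sz]

lemma base2_inter (p : ℕ) : ∀ a : Fin 4, (bl p {1, 2, 3} ∩ FF p a).ncard =
    (![p + 1, p + 1, 3 * p + 2, 3 * p + 2] : Fin 4 → ℕ) a := by
  intro a
  unfold FF
  rw [bl_inter, ncard_bl]
  fin_cases a
  · have : (({1, 2, 3} : Finset (Fin 6)) ∩ SF 0) = {2} := by decide
    simp only [Fin.zero_eta, this]
    simp [sz]
  · have : (({1, 2, 3} : Finset (Fin 6)) ∩ SF 1) = {3} := by decide
    simp only [Fin.mk_one, this]
    simp [sz]
  · have : (({1, 2, 3} : Finset (Fin 6)) ∩ SF 2) = {1, 2} := by decide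
    simp only [Fin.reduceFinMk, this]
    simp [sz]; omega
  · have : (({1, 2, 3} : Finset (Fin 6)) ∩ SF 3) = {1, 3} := by decide
    simp only [Fin.reduceFinMk, this]
    simp [sz]; omega

lemma base1_card (p : ℕ) : (bl p {0, 4, 5}).ncard = 4 * p + 3 := by
  rw [ncard_bl]; simp [sz]; omega

lemma base2_card (p : ℕ) : (bl p {1, 2, 3}).ncard = 4 * p + 3 := by
  rw [ncard_bl]; simp [sz]; omega

lemma base1_indep (p : ℕ) : (NN p).Indep (bl p {0, 4, 5}) := by
  refine ⟨(base1_card p).le, fun a => ?_⟩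
  rw [base1_inter]
  fin_cases a <;> simp <;> omega

lemma base2_indep (p : ℕ) : (NN p).Indep (bl p {1, 2, 3}) := by
  refine ⟨(base2_card p).le, fun a => ?_⟩
  rw [base2_inter]
  fin_cases a <;> simp <;> omega

lemma rk_NN (p : ℕ) : rk (NN p) (NN p).E = 4 * p + 3 := by
  apply le_antisymm
  · obtain ⟨I, -, hI, hc, -⟩ := exists_indep_rk (NN p) (NN p).E
    rw [← hc]
    exact ((spl_indep _ _ _ _ _).1 hI).1
  · rw [← base1_card p]
    exact Indep.le_rk (base1_indep p) (subset_univ _)

/-- The example lies in the class `Q(m,s)` as soon as `s ≤ p`. -/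
lemma q_NN {m s p : ℕ} (hm : 0 < m) (hs : s ≤ p) : QMem m s (NN p) := by
  intro B hB
  have hBi : ∀ i, (B i).ncard ≤ 4 * p + 3 := fun i => ((spl_indep _ _ _ _ _).1 (hB i).indep).1
  have hsum : ∑ a, ∑ i, (B i ∩ FF p a).ncard ≤ m * (8 * p + 6) := by
    rw [Finset.sum_comm]
    have : ∀ i, ∑ a, (B i ∩ FF p a).ncard ≤ 8 * p + 6 := by
      intro i
      rw [sum_inter_FF]
      have := hBi i
      omega
    calc ∑ i, ∑ a, (B i ∩ FF p a).ncard ≤ ∑ _i : Fin m, (8 * p + 6) :=
          Finset.sum_le_sum (fun i _ => this i)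
      _ = m * (8 * p + 6) := by simp
  have hc : ∃ c, ∑ i, (B i ∩ FF p c).ncard + s ≤ m * (3 * p + 2) := by
    by_contra hcon
    push Not at hcon
    have h1 : ∑ _a : Fin 4, (m * (3 * p + 2) + 1) ≤ ∑ a : Fin 4, (∑ i, (B i ∩ FF p a).ncard + s) :=
      Finset.sum_le_sum (fun a _ => hcon a)
    simp only [Finset.sum_add_distrib, Finset.sum_const, Finset.card_univ, Fintype.card_fin,
      smul_eq_mul] at h1
    have h2 : 4 * (m * (3 * p + 2) + 1) ≤ m * (8 * p + 6) + 4 * p := by omega
    nlinarith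
  obtain ⟨c, hc⟩ := hc
  have hNL : ∀ I, (NN p).Indep I → (NL p c).Indep I := by
    intro I hI
    exact ⟨((spl_indep _ _ _ _ _).1 hI).1, fun a => ((spl_indep _ _ _ _ _).1 hI).2 a⟩
  -- all bases have the full rank
  have hfull : ∀ i, (B i).ncard = 4 * p + 3 := by
    intro i
    rw [← rk_NN p, IsBase.rk_eq (hB i)]
  refine ⟨NL p c, rfl, rep_NL p c, ?_, ?_⟩
  · intro i
    rw [isBase_iff_indep_ncard]
    refine ⟨hNL _ (hB i).indep, ?_⟩
    apply le_antisymm
    · exact Indep.le_rk (hNL _ (hB i).indep) (subset_univ _)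
    · rw [hfull i]
      obtain ⟨I, -, hI, hc', -⟩ := exists_indep_rk (NL p c) (NL p c).E
      rw [← hc']
      exact ((spl_indep _ _ _ _ _).1 hI).1
  · intro U _
    by_cases h : rk (NL p c) U ≤ rk (NN p) U
    · exact Or.inl h
    · right
      push Not at h
      have h1 := spl_compare (FF p) (4 * p + 3) (3 * p + 2) (FF_hyp p) c
        (fun a b h => FF_hyp p a b (fun h' => h (Subtype.ext h'))) U h
      have h2 : ∀ i, (U ∩ B i).ncard ≤ (B i ∩ FF p c).ncard + (U \ FF p c).ncard := by
        intro i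
        refine le_trans (Set.ncard_le_ncard ?_ (Set.toFinite _)) (Set.ncard_union_le _ _)
        rintro x ⟨hx, hxB⟩
        by_cases hxF : x ∈ FF p c
        · exact Or.inl ⟨hxB, hxF⟩
        · exact Or.inr ⟨hx, hxF⟩
      have h3 := Finset.sum_le_sum (fun i (_ : i ∈ (Finset.univ : Finset (Fin m))) => h2 i)
      rw [Finset.sum_add_distrib] at h3
      simp only [Finset.sum_const, Finset.card_univ, Fintype.card_fin, smul_eq_mul] at h3
      have h4 : m * (3 * p + 2) + m * (U \ FF p c).ncard ≤ m * rk (NN p) U := by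
        rw [← Nat.mul_add]
        exact Nat.mul_le_mul_left _ h1
      omega

/-- exchanging `x` for `y` gives a dependent set, in one of the two bases -/
lemma bad_pair {p : ℕ} {B : Set (GT p)} {a : Fin 4} (hB : (B ∩ FF p a).ncard = 3 * p + 2)
    {x y : GT p} (hx : x ∉ FF p a) (hy : y ∈ FF p a) (hyB : y ∉ B) :
    ¬ (NN p).Indep ((B \ {x}) ∪ {y}) := by
  intro h
  have h1 := ((spl_indep _ _ _ _ _).1 h).2 a
  have h2 : insert y (B ∩ FF p a) ⊆ ((B \ {x}) ∪ {y}) ∩ FF p a := by
    rintro z (rfl | ⟨hz, hzF⟩)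
    · exact ⟨Or.inr rfl, hy⟩
    · refine ⟨Or.inl ⟨hz, ?_⟩, hzF⟩
      rintro rfl
      exact hx hzF
  have h3 := Set.ncard_le_ncard h2 (Set.toFinite _)
  rw [Set.ncard_insert_of_notMem (fun h => hyB h.1) (Set.toFinite _)] at h3
  omega

/-- The example is not base-orderable. -/
lemma not_bo_NN (p : ℕ) : ¬ IsBaseOrderable (NN p) := by
  intro h
  have hb1 : (NN p).IsBase (bl p {0, 4, 5}) := by
    rw [isBase_iff_indep_ncard, rk_NN]
    exact ⟨base1_indep p, base1_card p⟩
  have hb2 : (NN p).IsBase (bl p {1, 2, 3}) := by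
    rw [isBase_iff_indep_ncard, rk_NN]
    exact ⟨base2_indep p, base2_card p⟩
  obtain ⟨φ, hφ, hex⟩ := h _ _ hb1 hb2
  have key : ∀ x ∈ bl p {4, 5}, φ x ∈ bl p {1} := by
    intro x hx
    have hx1 : x ∈ bl p {0, 4, 5} := by
      simp only [bl, mem_ofPred_eq, Finset.mem_insert, Finset.mem_singleton] at hx ⊢
      tauto
    have hy : φ x ∈ bl p {1, 2, 3} := hφ.mapsTo hx1
    have hyn : φ x ∉ bl p {0, 4, 5} := by
      simp only [bl, mem_ofPred_eq, Finset.mem_insert, Finset.mem_singleton] at hy ⊢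
      rcases hy with h | h | h <;> rw [h] <;> decide
    have hxn : x ∉ bl p {1, 2, 3} := by
      simp only [bl, mem_ofPred_eq, Finset.mem_insert, Finset.mem_singleton] at hx ⊢
      rcases hx with h | h <;> rw [h] <;> decide
    -- first exchange
    have e1 : (NN p).IsBase ((bl p {0, 4, 5} \ {x}) ∪ {φ x}) := by
      have := hex {x} (singleton_subset_iff.2 hx1) (Or.inl (Set.ncard_singleton x))
      rwa [image_singleton] at this
    -- second exchange
    have e2 : (NN p).IsBase ((bl p {1, 2, 3} \ {φ x}) ∪ {x}) := by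
      have h1 := hex (bl p {0, 4, 5} \ {x}) sdiff_subset
        (Or.inr (Set.ncard_sdiff_singleton_add_one hx1 (Set.toFinite _)))
      have h2 : bl p {0, 4, 5} \ (bl p {0, 4, 5} \ {x}) = {x} := by
        rw [sdiff_sdiff_right_self]
        exact inter_eq_right.2 (singleton_subset_iff.2 hx1)
      have h3 : φ '' (bl p {0, 4, 5} \ {x}) = bl p {1, 2, 3} \ {φ x} := by
        rw [hφ.injOn.image_sdiff_subset (singleton_subset_iff.2 hx1), hφ.image_eq,
          image_singleton]
      rwa [h2, h3, union_comm] at h1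
    by_contra hcon
    have hx' : x.1 = 4 ∨ x.1 = 5 := by
      simpa [bl] using hx
    have hy' : (φ x).1 = 2 ∨ (φ x).1 = 3 := by
      have h4 : (φ x).1 = 1 ∨ (φ x).1 = 2 ∨ (φ x).1 = 3 := by simpa [bl] using hy
      have h5 : (φ x).1 ≠ 1 := by simpa [bl] using hcon
      tauto
    have b1 := base1_inter p
    have b2 := base2_inter p
    rcases hx' with hx' | hx' <;> rcases hy' with hy' | hy'
    · -- class 4, class 2 : flat 3 with base 2
      refine bad_pair (b2 3) (x := φ x) (y := x) ?_ ?_ hxn e2.indep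
      · show (φ x).1 ∉ SF 3
        rw [hy']; decide
      · show x.1 ∈ SF 3
        rw [hx']; decide
    · -- class 4, class 3 : flat 1 with base 1
      refine bad_pair (b1 1) (x := x) (y := φ x) ?_ ?_ hyn e1.indep
      · show x.1 ∉ SF 1
        rw [hx']; decide
      · show (φ x).1 ∈ SF 1
        rw [hy']; decide
    · -- class 5, class 2 : flat 0 with base 1
      refine bad_pair (b1 0) (x := x) (y := φ x) ?_ ?_ hyn e1.indep
      · show x.1 ∉ SF 0
        rw [hx']; decide
      · show (φ x).1 ∈ SF 0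
        rw [hy']; decide
    · -- class 5, class 3 : flat 2 with base 2
      refine bad_pair (b2 2) (x := φ x) (y := x) ?_ ?_ hxn e2.indep
      · show (φ x).1 ∉ SF 2
        rw [hy']; decide
      · show x.1 ∈ SF 2
        rw [hx']; decide
  have h1 : (φ '' bl p {4, 5}).ncard ≤ (bl p {1}).ncard :=
    Set.ncard_le_ncard (by rintro _ ⟨x, hx, rfl⟩; exact key x hx) (Set.toFinite _)
  have h2 : InjOn φ (bl p {4, 5}) := by
    refine hφ.injOn.mono ?_
    intro x hx
    simp only [bl, mem_ofPred_eq, Finset.mem_insert, Finset.mem_singleton] at hx ⊢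
    tauto
  rw [h2.ncard_image, ncard_bl, ncard_bl] at h1
  simp [sz] at h1
  omega

end Pool.Agent.Lib.MP_96faa3_co
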