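import Pool.Agent.Lib.MP_96faa3_co.Defs

/-! Lemmas on isomorphism of matroids. -/

namespace Pool.Agent.Lib.MP_96faa3_co

open Set Matroid

variable {α β γ : Type}

lemma iso_common {M : Matroid α} {N : Matroid β} (h : Iso M N) :
    ∃ (K : Matroid M.E) (g : M.E → β) (hg : Function.Injective g),
      K.map Subtype.val Subtype.val_injective.injOn = M ∧ K.map g hg.injOn = N := by
  obtain ⟨e, he⟩ := h
  refine ⟨M.restrictSubtype M.E, fun x => (e x : β),
    fun x y hxy => e.injective (Subtype.val_injective hxy), map_val_restrictSubtype_ground_eq M, ?_⟩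
  refine Matroid.ext_indep ?_ ?_
  · ext y
    simp only [map_ground, restrictSubtype_ground, image_univ, mem_range, Subtype.exists]
    constructor
    · rintro ⟨x, hx, rfl⟩
      exact (e ⟨x, hx⟩).2
    · intro hy
      refine ⟨(e.symm ⟨y, hy⟩ : α), (e.symm ⟨y, hy⟩).2, ?_⟩
      simp
  · intro I hI
    have hIN : I ⊆ N.E := by
      intro y hy
      obtain ⟨x, -, rfl⟩ := hI hy
      exact (e x).2
    conv_rhs => rw [← he]
    rw [mapSetEquiv_indep_iff, map_indep_iff]
    constructor
    · rintro ⟨I₀, hI₀, rfl⟩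
      refine ⟨?_, hIN⟩
      have h1 : ((e.symm '' (Subtype.val ⁻¹' ((fun x => (e x : β)) '' I₀)) : Set M.E) : Set α) =
          Subtype.val '' I₀ := by
        ext x
        constructor
        · rintro ⟨x', ⟨y, ⟨z, hz, hzy⟩, rfl⟩, rfl⟩
          refine ⟨z, hz, ?_⟩
          have : e z = y := Subtype.val_injective hzy
          rw [← this]
          simp
        · rintro ⟨z, hz, rfl⟩
          exact ⟨z, ⟨e z, ⟨z, hz, rfl⟩, by simp⟩, rfl⟩
      rw [h1]
      simpa using hI₀
    · rintro ⟨h1, -⟩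
      refine ⟨e.symm '' (Subtype.val ⁻¹' I), ?_, ?_⟩
      · simpa using h1
      · ext y
        constructor
        · intro hy
          exact ⟨e.symm ⟨y, hIN hy⟩, ⟨⟨y, hIN hy⟩, hy, rfl⟩, by simp⟩
        · rintro ⟨x, ⟨y', hy', rfl⟩, rfl⟩
          simpa using hy'

/-- to transport a property along isomorphism it suffices to treat injective maps -/
lemma iso_transport (P : ∀ {α : Type} [Finite α], Matroid α → Prop)
    (h1 : ∀ {γ δ : Type} [Finite γ] [Finite δ] (K : Matroid γ) (f : γ → δ)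
      (hf : Function.Injective f), P K → P (K.map f hf.injOn))
    (h2 : ∀ {γ δ : Type} [Finite γ] [Finite δ] (K : Matroid γ) (f : γ → δ)
      (hf : Function.Injective f), P (K.map f hf.injOn) → P K)
    [Finite α] [Finite β] {M : Matroid α} {N : Matroid β} (h : Iso M N) (hM : P M) : P N := by
  obtain ⟨K, g, hg, rfl', rfl⟩ := iso_common h
  apply h1 K g hg
  apply h2 K Subtype.val Subtype.val_injective
  rw [rfl']
  exact hM

lemma iso_map (M : Matroid α) (f : α → β) (hf : InjOn f M.E) : Iso M (M.map f hf) := by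
  let e : M.E ≃ (M.map f hf).E := (Equiv.Set.imageOfInjOn f M.E hf)
  refine ⟨e, ?_⟩
  refine Matroid.ext_indep rfl ?_
  intro I hI
  have hI' : I ⊆ f '' M.E := hI
  rw [mapSetEquiv_indep_iff, map_indep_iff]
  constructor
  · rintro ⟨h1, h2⟩
    refine ⟨_, h1, ?_⟩
    ext y
    constructor
    · intro hy
      obtain ⟨x, hx, rfl⟩ := hI' hy
      refine ⟨x, ⟨⟨x, hx⟩, ⟨⟨f x, ⟨x, hx, rfl⟩⟩, hy, ?_⟩, rfl⟩, rfl⟩
      rw [Equiv.symm_apply_eq]
      rfl
    · rintro ⟨_, ⟨x, ⟨y', hy', rfl⟩, rfl⟩, rfl⟩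
      have : f (e.symm y' : α) = (y' : β) := by
        have h3 : (e (e.symm y') : β) = f (e.symm y' : α) := rfl
        rw [← h3]
        exact congrArg Subtype.val (e.apply_symm_apply y')
      rw [this]
      exact hy'
  · rintro ⟨I₀, hI₀, rfl⟩
    refine ⟨?_, hI'⟩
    have h1 : ((e.symm '' (Subtype.val ⁻¹' (f '' I₀)) : Set M.E) : Set α) = I₀ := by
      ext x
      constructor
      · rintro ⟨x', ⟨y, ⟨z, hz, hzy⟩, rfl⟩, rfl⟩
        have : f z = f (e.symm y : α) := by
          have h3 : (e (e.symm y) : β) = f (e.symm y : α) := rfl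
          rw [← h3]
          exact hzy.trans (congrArg Subtype.val (e.apply_symm_apply y)).symm
        have := hf (hI₀.subset_ground hz) (e.symm y).2 this
        rw [← this]
        exact hz
      · intro hx
        refine ⟨⟨x, hI₀.subset_ground hx⟩, ⟨e ⟨x, hI₀.subset_ground hx⟩, ⟨x, hx, rfl⟩,
          e.symm_apply_apply _⟩, rfl⟩
    rw [h1]
    exact hI₀

lemma iso_iff {M : Matroid α} {N : Matroid β} : Iso M N ↔ ∃ e : M.E ≃ N.E, ∀ X : Set M.E,
    M.Indep (Subtype.val '' X) ↔ N.Indep (Subtype.val '' (e '' X)) := by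
  constructor
  · rintro ⟨e, he⟩
    refine ⟨e, fun X => ?_⟩
    have h0 : N.Indep (Subtype.val '' (e '' X)) ↔
        (M.mapSetEquiv e).Indep (Subtype.val '' (e '' X)) := iff_of_eq (congrArg (fun K => K.Indep (Subtype.val '' (e '' X))) he.symm)
    rw [h0, mapSetEquiv_indep_iff]
    have h1 : Subtype.val ⁻¹' (Subtype.val '' (e '' X)) = e '' X :=
      preimage_image_eq _ Subtype.val_injective
    rw [h1]
    have h2 : e.symm '' (e '' X) = X := by
      rw [← image_comp]
      simp
    rw [h2]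
    constructor
    · intro h
      refine ⟨h, ?_⟩
      rintro _ ⟨y, -, rfl⟩
      exact y.2
    · exact fun h => h.1
  · rintro ⟨e, he⟩
    refine ⟨e, Matroid.ext_indep rfl ?_⟩
    intro I hI
    have hI' : I ⊆ N.E := hI
    rw [mapSetEquiv_indep_iff, he]
    have h2 : e '' (e.symm '' (Subtype.val ⁻¹' I)) = Subtype.val ⁻¹' I := by
      rw [← image_comp]
      simp
    rw [h2]
    have h3 : Subtype.val '' ((Subtype.val : N.E → β) ⁻¹' I) = I := by
      rw [Subtype.image_preimage_coe, inter_eq_right]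
      exact hI'
    rw [h3]
    exact ⟨fun h => h.1, fun h => ⟨h, hI'⟩⟩

lemma iso_symm {M : Matroid α} {N : Matroid β} (h : Iso M N) : Iso N M := by
  rw [iso_iff] at *
  obtain ⟨e, he⟩ := h
  refine ⟨e.symm, fun X => ?_⟩
  rw [he]
  have h2 : e '' (e.symm '' X) = X := by
    rw [← image_comp]
    simp
  rw [h2]

lemma iso_trans {M : Matroid α} {N : Matroid β} {K : Matroid γ} (h : Iso M N) (h' : Iso N K) :
    Iso M K := by
  rw [iso_iff] at *
  obtain ⟨e, he⟩ := h
  obtain ⟨f, hf⟩ := h'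
  refine ⟨e.trans f, fun X => ?_⟩
  rw [he, hf]
  have h2 : f '' (e '' X) = (e.trans f) '' X := by
    rw [← image_comp]
    rfl
  rw [h2]

end Pool.Agent.Lib.MP_96faa3_co
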