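import Pool.Agent.Lib.MP_96faa3_co.Defs

/-! The linking lemma: disjoint paths in digraphs versus bipartite matchings. -/

namespace Pool.Agent.Lib.MP_96faa3_co

open Set Matroid

variable {V : Type}

/-- matching form: `f` moves each vertex outside `S` along an arc or fixes it, injectively,
avoiding `X` -/
def Matched (Γ : V → V → Prop) (X S : Set V) : Prop :=
  ∃ f : V → V, InjOn f Sᶜ ∧ ∀ t, t ∉ S → (f t = t ∨ Γ t (f t)) ∧ f t ∉ X

lemma matched_of_linked {Γ : V → V → Prop} {X S J : Set V} (hJ : J ⊆ S)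
    (h : LinkedOnto Γ X J) : Matched Γ X S := by
  classical
  obtain ⟨P, hP, hdis, rfl⟩ := h
  let R : V → V → Prop := fun t u =>
    (∃ x ∈ X, ∃ n : ℕ, (P x)[n]? = some t ∧ (P x)[n+1]? = some u) ∨
      ((∀ x ∈ X, t ∉ P x) ∧ u = t)
  have hex : ∀ t, t ∉ S → ∃ u, R t u := by
    intro t ht
    by_cases hon : ∃ x ∈ X, t ∈ P x
    · obtain ⟨x, hx, htx⟩ := hon
      obtain ⟨n, hn⟩ := List.mem_iff_getElem?.1 htx
      have hnl : n < (P x).length := (List.getElem?_eq_some_iff.1 hn).1
      have hlast : n + 1 < (P x).length := by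
        by_contra hcon
        have hn1 : n = (P x).length - 1 := by omega
        have : (P x).getLast? = some t := by
          rw [List.getLast?_eq_getElem?, ← hn1, hn]
        exact ht (hJ ⟨x, hx, this⟩)
      exact ⟨(P x)[n+1], Or.inl ⟨x, hx, n, hn, by simp [hlast]⟩⟩
    · push Not at hon
      exact ⟨t, Or.inr ⟨hon, rfl⟩⟩
  choose! f hf using hex
  have hsame : ∀ x ∈ X, ∀ y ∈ X, ∀ u, u ∈ P x → u ∈ P y → x = y := by
    intro x hx y hy u hux huy
    by_contra hne
    exact hdis x hx y hy hne hux huy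
  refine ⟨f, ?_, ?_⟩
  · intro t ht t' ht' heq
    have h1 := hf t ht
    have h2 := hf t' ht'
    rw [← heq] at h2
    rcases h1 with ⟨x, hx, n, hn, hn1⟩ | ⟨h1, h1'⟩
    · rcases h2 with ⟨y, hy, m, hm, hm1⟩ | ⟨h2, h2'⟩
      · have hxy := hsame x hx y hy (f t) (List.mem_iff_getElem?.2 ⟨_, hn1⟩)
          (List.mem_iff_getElem?.2 ⟨_, hm1⟩)
        subst hxy
        have hnd := (hP x hx).2.1
        have hl : n + 1 < (P x).length := (List.getElem?_eq_some_iff.1 hn1).1
        have := (List.getElem?_inj hl hnd).1 (hn1.trans hm1.symm)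
        have hnm : n = m := by omega
        subst hnm
        rw [hn] at hm
        exact Option.some_injective _ hm
      · exfalso
        rw [← h2'] at h2
        exact h2 x hx (List.mem_iff_getElem?.2 ⟨_, hn1⟩)
    · rcases h2 with ⟨y, hy, m, hm, hm1⟩ | ⟨h2, h2'⟩
      · exfalso
        rw [← h1'] at h1
        exact h1 y hy (List.mem_iff_getElem?.2 ⟨_, hm1⟩)
      · rw [← h1', ← h2']
  · intro t ht
    rcases hf t ht with ⟨x, hx, n, hn, hn1⟩ | ⟨h1, h1'⟩
    · refine ⟨Or.inr ?_, ?_⟩
      · have hc := (hP x hx).1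
        obtain ⟨hl, e1⟩ := List.getElem?_eq_some_iff.1 hn1
        obtain ⟨hl', e2⟩ := List.getElem?_eq_some_iff.1 hn
        have := hc.getElem n hl
        rw [e1, e2] at this
        exact this
      · intro hft
        have hmem : f t ∈ P (f t) := by
          have := (hP (f t) hft).2.2
          rw [List.head?_eq_getElem?] at this
          exact List.mem_iff_getElem?.2 ⟨_, this⟩
        have hxy := hsame x hx (f t) hft (f t) (List.mem_iff_getElem?.2 ⟨_, hn1⟩) hmem
        have h0 := (hP x hx).2.2
        rw [List.head?_eq_getElem?] at h0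
        have hl : n + 1 < (P x).length := (List.getElem?_eq_some_iff.1 hn1).1
        have h1 : (P x)[n+1]? = (P x)[0]? := by
          rw [hn1, h0, ← hxy]
        have := (List.getElem?_inj hl (hP x hx).2.1).1 h1
        omega
    · refine ⟨Or.inl h1', ?_⟩
      rw [h1']
      intro htX
      have h0 := (hP t htX).2.2
      rw [List.head?_eq_getElem?] at h0
      exact h1 t htX (List.mem_iff_getElem?.2 ⟨_, h0⟩)

lemma iterate_backtrack {X S : Set V} {f : V → V} (hinj : InjOn f Sᶜ)
    (hX : ∀ t, t ∉ S → f t ∉ X) :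
    ∀ (i j : ℕ) (x y : V), x ∈ X → y ∈ X → (∀ k < i, f^[k] x ∉ S) → (∀ k < j, f^[k] y ∉ S) →
      f^[i] x = f^[j] y → i = j ∧ x = y := by
  intro i
  induction i with
  | zero =>
    intro j x y hx hy hi hj heq
    cases j with
    | zero => exact ⟨rfl, heq⟩
    | succ j =>
      exfalso
      rw [Function.iterate_succ_apply'] at heq
      have := hX _ (hj j (Nat.lt_succ_self j))
      rw [← heq] at this
      exact this hx
  | succ i ih =>
    intro j x y hx hy hi hj heq
    cases j with
    | zero =>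
      exfalso
      rw [Function.iterate_succ_apply'] at heq
      have := hX _ (hi i (Nat.lt_succ_self i))
      rw [heq] at this
      exact this hy
    | succ j =>
      rw [Function.iterate_succ_apply', Function.iterate_succ_apply'] at heq
      have h1 : f^[i] x = f^[j] y :=
        hinj (hi i (Nat.lt_succ_self i)) (hj j (Nat.lt_succ_self j)) heq
      obtain ⟨h2, h3⟩ := ih j x y hx hy (fun k hk => hi k (Nat.lt_succ_of_lt hk))
        (fun k hk => hj k (Nat.lt_succ_of_lt hk)) h1
      exact ⟨by rw [h2], h3⟩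

lemma linked_of_matched [Finite V] {Γ : V → V → Prop} {X S : Set V} (h : Matched Γ X S) :
    ∃ J ⊆ S, LinkedOnto Γ X J := by
  classical
  obtain ⟨f, hinj, hf⟩ := h
  have hfX : ∀ t, t ∉ S → f t ∉ X := fun t ht => (hf t ht).2
  have hex : ∀ x ∈ X, ∃ n : ℕ, f^[n] x ∈ S := by
    intro x hx
    by_contra hcon
    push Not at hcon
    have : Function.Injective (fun n : ℕ => f^[n] x) := by
      intro i j hij
      exact (iterate_backtrack hinj hfX i j x x hx hx (fun k _ => hcon k) (fun k _ => hcon k)
        hij).1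
    exact not_injective_infinite_finite _ this
  let N : V → ℕ := fun x => if hx : x ∈ X then Nat.find (hex x hx) else 0
  have hN1 : ∀ x ∈ X, f^[N x] x ∈ S := by
    intro x hx
    simp only [N, hx, dif_pos]
    exact Nat.find_spec (hex x hx)
  have hN2 : ∀ x ∈ X, ∀ k < N x, f^[k] x ∉ S := by
    intro x hx k hk
    simp only [N, hx, dif_pos] at hk
    exact Nat.find_min (hex x hx) hk
  have hback : ∀ x ∈ X, ∀ y ∈ X, ∀ i ≤ N x, ∀ j ≤ N y, f^[i] x = f^[j] y → i = j ∧ x = y := by
    intro x hx y hy i hi j hj heq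
    exact iterate_backtrack hinj hfX i j x y hx hy
      (fun k hk => hN2 x hx k (lt_of_lt_of_le hk hi))
      (fun k hk => hN2 y hy k (lt_of_lt_of_le hk hj)) heq
  let P : V → List V := fun x => (List.range (N x + 1)).map (fun n => f^[n] x)
  have hlast : ∀ x, (P x).getLast? = some (f^[N x] x) := by
    intro x
    simp [P, List.range_succ]
  refine ⟨{j | ∃ x ∈ X, (P x).getLast? = some j}, ?_, P, ?_, ?_, rfl⟩
  · rintro j ⟨x, hx, hj⟩
    rw [hlast x] at hj
    have := Option.some_injective _ hj
    rw [← this]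
    exact hN1 x hx
  · intro x hx
    refine ⟨?_, ?_, ?_⟩
    · rw [List.isChain_map, List.isChain_range]
      intro m hm
      have hm' : m < N x := by omega
      rw [Function.iterate_succ_apply']
      rcases (hf _ (hN2 x hx m hm')).1 with h | h
      · exfalso
        have h2 : f^[m+1] x = f^[m] x := by
          rw [Function.iterate_succ_apply', h]
        have := (hback x hx x hx (m+1) hm' m hm'.le h2).1
        omega
      · exact h
    · refine List.Nodup.map_on ?_ List.nodup_range
      intro i hi j hj heq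
      rw [List.mem_range] at hi hj
      exact (hback x hx x hx i (by omega) j (by omega) heq).1
    · simp [P, List.range_succ_eq_map]
  · intro x hx y hy hne
    rw [List.disjoint_left]
    intro a ha hb
    simp only [P, List.mem_map, List.mem_range] at ha hb
    obtain ⟨i, hi, rfl⟩ := ha
    obtain ⟨j, hj, heq⟩ := hb
    exact hne (hback x hx y hy i (by omega) j (by omega) heq.symm).2

/-- independence in a digraph-induced matroid, in matching form -/
lemma linked_indep_iff [Finite V] {Γ : V → V → Prop} {M₀ : Matroid V} {X : Set V} :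
    (∃ J, M₀.Indep J ∧ LinkedOnto Γ X J) ↔ ∃ J₀, M₀.IsBase J₀ ∧ Matched Γ X J₀ := by
  constructor
  · rintro ⟨J, hJ, hl⟩
    obtain ⟨J₀, hJ₀, hJJ⟩ := hJ.exists_isBase_superset
    exact ⟨J₀, hJ₀, matched_of_linked hJJ hl⟩
  · rintro ⟨J₀, hJ₀, hm⟩
    obtain ⟨J, hJ, hl⟩ := linked_of_matched hm
    exact ⟨J, hJ₀.indep.subset hJ, hl⟩

end Pool.Agent.Lib.MP_96faa3_co
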