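import Pool.Agent.Lib.MP_96faa3_co.Classes
import Pool.Agent.Lib.MP_96faa3_co.Example
import Pool.Agent.Lib.MP_96faa3_co.DigraphInduce

/-!
# No class between the gammoids and the base-orderable matroids is finitely excluded
-/

namespace Pool.Agent.Lib.MP_96faa3_co

open Set Matroid

/-- the auxiliary class as a class of matroids -/
def qClass (m s : ℕ) : MatroidClass where
  Mem M := QMem m s M
  iso h hM := q_iso h hM

lemma qClass_complete {m s : ℕ} (hm : 0 < m) : (qClass m s).IsComplete where
  restrict _ hR h := q_restrict hm hR h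
  contract _ hX h := q_contract hm hX h
  dual h := q_dual hm h
  sum hM hN := q_sum hM hN
  truncate k h hE hN := q_tr k hE hN h
  induce := by
    intro V _ Γ M₀ N A h hN
    exact q_digraph hm Γ A h hN

/-- Sanity check: the class of gammoids is complete. -/
theorem gammoids_complete : gammoids.IsComplete where
  restrict _ hR h := isGammoid_of_rep (rep_restrict hR (rep_of_isGammoid h))
  contract _ hX h := isGammoid_of_rep (rep_contract hX (rep_of_isGammoid h))
  dual h := isGammoid_of_rep (rep_dual (rep_of_isGammoid h))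
  sum hM hN := isGammoid_of_rep (rep_sum (rep_of_isGammoid hM) (rep_of_isGammoid hN))
  truncate k h hE hN := isGammoid_of_rep (rep_truncate k hE hN (rep_of_isGammoid h))
  induce := by
    intro V _ Γ M₀ N A h hN
    have h1 : N = (bip (dgraph Γ) (M₀ ↾ univ)✶)✶ ↾ A := by
      refine Matroid.ext_indep hN.1 ?_
      intro X _
      rw [hN.2, restrict_indep_iff, induced_indep_iff, ← linked_indep_iff, and_comm]
    have h2 : Rep M₀ := rep_of_isGammoid h
    apply isGammoid_of_rep
    rw [h1]
    apply rep_restrict (subset_univ _)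
    apply rep_dual
    apply rep_bip
    apply rep_dual
    rw [restrict_univ_eq_bip]
    exact rep_bip _ h2

/-- Sanity check: gammoids are strongly base-orderable. -/
theorem gammoids_sub : gammoids.Sub stronglyBaseOrderable := by
  intro α _ M h
  exact sbo_of_rep (rep_of_isGammoid h)

theorem sbo_sub : stronglyBaseOrderable.Sub baseOrderable := by
  intro α _ M h
  exact bo_of_sbo h

theorem main {C : MatroidClass} (h1 : gammoids.Sub C) (h2 : C.Sub baseOrderable) :
    ¬ C.FinitelyExcluded := by
  rintro ⟨ι, hι, α, hα, M, hM, hmax⟩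
  -- bound on the sizes
  have : ∃ n, ∀ i, Nat.card (α i) ≤ n := by
    have hf : (range (fun i => Nat.card (α i))).Finite := Set.finite_range _
    obtain ⟨n, hn⟩ := hf.bddAbove
    exact ⟨n, fun i => hn (mem_range_self i)⟩
  obtain ⟨n, hn⟩ := this
  have hm : 0 < 2 ^ n := by positivity
  have hno : ∀ i, ¬ (qClass (2 ^ n) (2 ^ n * n)).Mem (M i) := by
    intro i hi
    have hi' : QMem (2 ^ n) (2 ^ n * n) (M i) := hi
    have hrep : Rep (M i) := q_small hi' (Nat.pow_le_pow_right (by norm_num) (hn i))
      (Nat.mul_le_mul_left _ (hn i))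
    exact hM i (h1 (M i) (isGammoid_of_rep hrep))
  have hsub : (qClass (2 ^ n) (2 ^ n * n)).Sub C :=
    hmax (qClass (2 ^ n) (2 ^ n * n)) (qClass_complete hm) hno
  have hN : QMem (2 ^ n) (2 ^ n * n) (NN (2 ^ n * n)) := q_NN hm le_rfl
  have hC : C.Mem (NN (2 ^ n * n)) := hsub (NN (2 ^ n * n)) hN
  have hB : IsBaseOrderable (NN (2 ^ n * n)) := h2 (NN (2 ^ n * n)) hC
  exact not_bo_NN _ hB

end Pool.Agent.Lib.MP_96faa3_co
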