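import Pool.Agent.Lib.MP_96faa3_co.Rep

/-! The auxiliary complete classes. -/

namespace Pool.Agent.Lib.MP_96faa3_co

open Set Matroid

variable {α β : Type}

section more_rank

variable [Finite α] [Finite β]

lemma rk_contract (M : Matroid α) {C U : Set α} (hC : C ⊆ M.E) (hU : U ⊆ M.E \ C) :
    rk (M ／ C) U + rk M C = rk M (U ∪ C) := by
  obtain ⟨I, hIC⟩ := M.exists_isBasis C hC
  have hI : rk M C = I.ncard := by
    have := hIC.encard_eq_eRk
    rw [← cast_rk, ← cast_ncard'] at this
    exact_mod_cast this.symm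
  apply le_antisymm
  · obtain ⟨J, hJU, hJ, hJc, -⟩ := exists_indep_rk (M ／ C) U
    rw [hIC.contract_indep_iff] at hJ
    rw [← hJc, hI, ← Set.ncard_union_eq ?_ (Set.toFinite _) (Set.toFinite _)]
    · exact Indep.le_rk hJ.1 (union_subset_union hJU hIC.subset)
    · exact (hJ.2.mono_left hIC.subset).symm
  · obtain ⟨K, hK, hIK⟩ := hIC.indep.subset_isBasis_of_subset
      (hIC.subset.trans (subset_union_right : C ⊆ U ∪ C))
      (union_subset (hU.trans sdiff_subset) hC)
    have hKc : rk M (U ∪ C) = K.ncard := by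
      have := hK.encard_eq_eRk
      rw [← cast_rk, ← cast_ncard'] at this
      exact_mod_cast this.symm
    have hKC : K ∩ C = I := by
      symm
      refine hIC.eq_of_subset_indep (hK.indep.subset inter_subset_left)
        (subset_inter hIK hIC.subset) inter_subset_right
    have h1 : (M ／ C).Indep (K \ C) := by
      rw [hIC.contract_indep_iff]
      refine ⟨?_, disjoint_sdiff_right⟩
      have : K \ C ∪ I = K := by
        rw [← hKC, sdiff_union_inter]
      rw [this]
      exact hK.indep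
    have h2 : K \ C ⊆ U := by
      rintro x ⟨hx, hxC⟩
      rcases hK.subset hx with h | h
      · exact h
      · exact absurd h hxC
    have h3 := Indep.le_rk h1 h2
    have h4 := Set.ncard_inter_add_ncard_sdiff_eq_ncard K C (Set.toFinite _)
    rw [hKC] at h4
    omega

lemma rk_le_of_indep_imp {N₁ N₂ : Matroid α} (h : ∀ I, N₁.Indep I → N₂.Indep I) (U : Set α) :
    rk N₁ U ≤ rk N₂ U := by
  obtain ⟨I, hIU, hI, hc, -⟩ := exists_indep_rk N₁ U
  rw [← hc]
  exact Indep.le_rk (h I hI) hIU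

/-- truncation -/
noncomputable def tr (M : Matroid α) (k : ℕ) : Matroid α :=
  (IndepMatroid.ofFinite (E := M.E) (Set.toFinite _) (fun I => M.Indep I ∧ I.ncard ≤ k)
    (by simp)
    (by
      rintro I J ⟨h1, h2⟩ hIJ
      exact ⟨h1.subset hIJ, (Set.ncard_le_ncard hIJ (Set.toFinite _)).trans h2⟩)
    (by
      rintro I J ⟨hI, hIk⟩ ⟨hJ, hJk⟩ hlt
      obtain ⟨e, he, hei⟩ := hI.augment hJ (by
        rw [← cast_ncard', ← cast_ncard']
        exact_mod_cast hlt)
      refine ⟨e, he.1, he.2, hei, ?_⟩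
      rw [Set.ncard_insert_of_notMem he.2 (Set.toFinite _)]
      omega)
    (fun I hI => hI.1.subset_ground)).matroid

@[simp] lemma tr_ground (M : Matroid α) (k : ℕ) : (tr M k).E = M.E := rfl

@[simp] lemma tr_indep (M : Matroid α) (k : ℕ) (I : Set α) :
    (tr M k).Indep I ↔ M.Indep I ∧ I.ncard ≤ k := Iff.rfl

lemma rk_tr (M : Matroid α) (k : ℕ) (U : Set α) : rk (tr M k) U = min (rk M U) k := by
  apply le_antisymm
  · obtain ⟨I, hIU, hI, hc, -⟩ := exists_indep_rk (tr M k) U
    rw [← hc]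
    exact le_min (Indep.le_rk hI.1 hIU) hI.2
  · obtain ⟨I, hIU, hI, hc, -⟩ := exists_indep_rk M U
    rw [← hc]
    obtain ⟨J, hJI, hJ⟩ := Set.exists_subset_card_eq (s := I) (n := min I.ncard k) (min_le_left _ _)
    rw [← hJ]
    refine Indep.le_rk ?_ (hJI.trans hIU)
    rw [tr_indep]
    refine ⟨hI.subset hJI, ?_⟩
    rw [hJ]
    exact min_le_right _ _

lemma rk_sum (M : Matroid α) (N : Matroid β) (U : Set (α ⊕ β)) :
    rk (M.sum N) U = rk M (Sum.inl ⁻¹' U) + rk N (Sum.inr ⁻¹' U) := by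
  have key : ∀ S : Set (α ⊕ β), S.ncard = (Sum.inl ⁻¹' S).ncard + (Sum.inr ⁻¹' S).ncard := by
    intro S
    have h1 : S = Sum.inl '' (Sum.inl ⁻¹' S) ∪ Sum.inr '' (Sum.inr ⁻¹' S) := by
      ext (x | x) <;> simp
    conv_lhs => rw [h1]
    rw [Set.ncard_union_eq _ (Set.toFinite _) (Set.toFinite _),
      Set.ncard_image_of_injective _ Sum.inl_injective,
      Set.ncard_image_of_injective _ Sum.inr_injective]
    rw [Set.disjoint_left]
    rintro _ ⟨x, -, rfl⟩ ⟨y, -, h⟩
    simp at h
  apply le_antisymm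
  · obtain ⟨I, hIU, hI, hc, -⟩ := exists_indep_rk (M.sum N) U
    rw [sum_indep_iff] at hI
    rw [← hc, key]
    exact add_le_add (Indep.le_rk hI.1 (preimage_mono hIU)) (Indep.le_rk hI.2 (preimage_mono hIU))
  · obtain ⟨I, hIU, hI, hc, -⟩ := exists_indep_rk M (Sum.inl ⁻¹' U)
    obtain ⟨J, hJU, hJ, hd, -⟩ := exists_indep_rk N (Sum.inr ⁻¹' U)
    have h1 : Sum.inl ⁻¹' (Sum.inl '' I ∪ Sum.inr '' J : Set (α ⊕ β)) = I := by
      ext x; simp
    have h2 : Sum.inr ⁻¹' (Sum.inl '' I ∪ Sum.inr '' J : Set (α ⊕ β)) = J := by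
      ext x; simp
    have h3 : (M.sum N).Indep (Sum.inl '' I ∪ Sum.inr '' J) := by
      rw [sum_indep_iff, h1, h2]
      exact ⟨hI, hJ⟩
    have h4 := Indep.le_rk h3 (X := U) (by
      rintro _ (⟨x, hx, rfl⟩ | ⟨x, hx, rfl⟩)
      · exact hIU hx
      · exact hJU hx)
    rw [key, h1, h2] at h4
    omega

lemma rk_map' (M : Matroid α) {f : α → β} (hf : Function.Injective f) (X : Set α) :
    rk (M.map f hf.injOn) (f '' X) = rk M X := by
  apply le_antisymm
  · obtain ⟨I, hIU, hI, hc, -⟩ := exists_indep_rk (M.map f hf.injOn) (f '' X)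
    rw [map_indep_iff] at hI
    obtain ⟨I₀, hI₀, rfl⟩ := hI
    rw [← hc, Set.ncard_image_of_injective _ hf]
    exact Indep.le_rk hI₀ ((image_subset_image_iff hf).1 hIU)
  · obtain ⟨I, hIU, hI, hc, -⟩ := exists_indep_rk M X
    have h1 : (M.map f hf.injOn).Indep (f '' I) := by
      rw [map_indep_iff]
      exact ⟨I, hI, rfl⟩
    have h2 := Indep.le_rk h1 (image_mono hIU)
    rw [Set.ncard_image_of_injective _ hf] at h2
    omega

lemma rk_comap' (M : Matroid β) {f : α → β} (hf : Function.Injective f) (X : Set α) :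
    rk (M.comap f) X = rk M (f '' X) := by
  apply le_antisymm
  · obtain ⟨I, hIU, hI, hc, -⟩ := exists_indep_rk (M.comap f) X
    rw [comap_indep_iff] at hI
    rw [← hc, ← Set.ncard_image_of_injective I hf]
    exact Indep.le_rk hI.1 (image_mono hIU)
  · obtain ⟨I, hIU, hI, hc, -⟩ := exists_indep_rk M (f '' X)
    obtain ⟨J, hJ, rfl⟩ := (subset_image_iff.1 hIU)
    have h1 : (M.comap f).Indep J := ⟨hI, hf.injOn⟩
    have h2 := Indep.le_rk h1 hJ
    rw [Set.ncard_image_of_injective _ hf] at hc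
    omega

end more_rank

/-- The class `Q(m,s)`. -/
def QMem (m s : ℕ) {α : Type} (M : Matroid α) : Prop :=
  ∀ B : Fin m → Set α, (∀ i, M.IsBase (B i)) →
    ∃ L : Matroid α, L.E = M.E ∧ Rep L ∧ (∀ i, L.IsBase (B i)) ∧
      ∀ U ⊆ M.E, rk L U ≤ rk M U ∨ (∑ i, (U ∩ B i).ncard) + s ≤ m * rk M U

section Q

variable {m s : ℕ} [Finite α] [Finite β]

lemma q_dual (hm : 0 < m) {M : Matroid α} (h : QMem m s M) : QMem m s M✶ := by
  intro B hB
  have hB' : ∀ i, M.IsBase (M.E \ B i) ∧ B i ⊆ M.E := fun i => dual_isBase_iff'.1 (hB i)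
  obtain ⟨L, hLE, hLR, hLB, hL⟩ := h (fun i => M.E \ B i) (fun i => (hB' i).1)
  have hrank : rk L L.E = rk M M.E := by
    rw [IsBase.rk_eq (hLB ⟨0, hm⟩), IsBase.rk_eq (hB' ⟨0, hm⟩).1]
  refine ⟨L✶, hLE, rep_dual hLR, ?_, ?_⟩
  · intro i
    rw [dual_isBase_iff', hLE]
    exact ⟨hLB i, (hB' i).2⟩
  · intro U hU
    have hUE : U ⊆ M.E := hU
    have h1 := rk_dual M hUE
    have h2 := rk_dual L (X := U) (hLE ▸ hUE)
    rw [hrank, hLE] at h2
    rcases hL (M.E \ U) sdiff_subset with h3 | h3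
    · left
      omega
    · right
      have h4 : ∀ i, ((M.E \ U) ∩ (M.E \ B i)).ncard + U.ncard =
          rk M M.E + (U ∩ B i).ncard := by
        intro i
        have e1 : (M.E \ U) ∩ (M.E \ B i) = (M.E \ B i) \ U := by
          ext x; simp only [mem_inter_iff, mem_sdiff]; tauto
        have e2 := Set.ncard_inter_add_ncard_sdiff_eq_ncard (M.E \ B i) U (Set.toFinite _)
        have e3 : (M.E \ B i) ∩ U = U \ B i := by
          ext x; simp only [mem_inter_iff, mem_sdiff]
          exact ⟨fun h => ⟨h.2, h.1.2⟩, fun h => ⟨⟨hUE h.1, h.2⟩, h.1⟩⟩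
        have e4 := Set.ncard_inter_add_ncard_sdiff_eq_ncard U (B i) (Set.toFinite _)
        have e5 := IsBase.rk_eq (hB' i).1
        rw [e1]
        rw [e3] at e2
        omega
      have h5 : ∑ i : Fin m, (((M.E \ U) ∩ (M.E \ B i)).ncard + U.ncard) =
          ∑ i : Fin m, (rk M M.E + (U ∩ B i).ncard) := Finset.sum_congr rfl (fun i _ => h4 i)
      rw [Finset.sum_add_distrib, Finset.sum_add_distrib] at h5
      simp only [Finset.sum_const, Finset.card_univ, Fintype.card_fin, smul_eq_mul] at h5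
      have h6 : m * rk M✶ U + m * rk M M.E = m * rk M (M.E \ U) + m * U.ncard := by
        rw [← Nat.mul_add, ← Nat.mul_add, h1]
      omega

lemma q_contract (hm' : 0 < m) {M : Matroid α} {C : Set α} (hC : C ⊆ M.E) (h : QMem m s M) :
    QMem m s (M ／ C) := by
  intro B hB
  obtain ⟨I, hIC⟩ := M.exists_isBasis C hC
  have hI : rk M C = I.ncard := by
    have := hIC.encard_eq_eRk
    rw [← cast_rk, ← cast_ncard'] at this
    exact_mod_cast this.symm
  have hdis : ∀ i, Disjoint (B i) I := by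
    intro i
    have := (hIC.contract_indep_iff.1 (hB i).indep).2
    exact (this.mono_left hIC.subset).symm
  have hBE : ∀ i, B i ⊆ M.E \ C := fun i => (hB i).subset_ground
  have hBI : ∀ i, M.IsBase (B i ∪ I) := by
    intro i
    rw [isBase_iff_indep_ncard]
    refine ⟨(hIC.contract_indep_iff.1 (hB i).indep).1, ?_⟩
    rw [Set.ncard_union_eq (hdis i) (Set.toFinite _) (Set.toFinite _), ← IsBase.rk_eq (hB i),
      contract_ground, ← hI, rk_contract M hC Subset.rfl, sdiff_union_of_subset hC]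
  obtain ⟨L, hLE, hLR, hLB, hL⟩ := h (fun i => B i ∪ I) hBI
  have hLI : L.Indep I := (hLB ⟨0, hm'⟩).indep.subset subset_union_right
  refine ⟨(L ／ I) ↾ (M.E \ C), rfl, ?_, ?_, ?_⟩
  · refine rep_restrict ?_ (rep_contract_indep hLI hLR)
    rw [contract_ground, hLE]
    exact sdiff_subset_sdiff_right hIC.subset
  · intro i
    have h1 : (L ／ I).IsBase (B i) := by
      rw [hLI.contract_isBase_iff]
      exact ⟨hLB i, hdis i⟩
    have h2 : ((L ／ I) ↾ (M.E \ C)).Indep (B i) := by
      rw [restrict_indep_iff]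
      exact ⟨h1.indep, hBE i⟩
    rw [isBase_iff_indep_ncard]
    refine ⟨h2, le_antisymm (Indep.le_rk h2 (hBE i)) ?_⟩
    rw [restrict_ground_eq, rk_restrict, inter_self, ← IsBase.rk_eq h1]
    exact rk_le_rk_ground _ _
  · intro U hU
    rw [contract_ground] at hU
    have hUI : U ∪ I ⊆ M.E := union_subset (hU.trans sdiff_subset) (hIC.subset.trans hC)
    have h1 : rk ((L ／ I) ↾ (M.E \ C)) U = rk (L ／ I) U := rk_restrict_of_subset _ hU
    have h2 : rk (L ／ I) U + rk L I = rk L (U ∪ I) := by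
      apply rk_contract L hLI.subset_ground
      rw [hLE]
      exact hU.trans (sdiff_subset_sdiff_right hIC.subset)
    have h3 : rk L I = I.ncard := Indep.rk_eq hLI
    have h4 : rk (M ／ C) U + rk M C = rk M (U ∪ C) := rk_contract M hC hU
    have h5 : rk M (U ∪ I) ≤ rk M (U ∪ C) := rk_mono M (union_subset_union_right _ hIC.subset)
    rcases hL (U ∪ I) hUI with h6 | h6
    · left
      omega
    · right
      have h7 : ∀ i, (U ∩ B i).ncard + I.ncard ≤ ((U ∪ I) ∩ (B i ∪ I)).ncard := by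
        intro i
        rw [← Set.ncard_union_eq ((hdis i).mono_left inter_subset_right) (Set.toFinite _)
          (Set.toFinite _)]
        refine Set.ncard_le_ncard ?_ (Set.toFinite _)
        rintro x (hx | hx)
        · exact ⟨Or.inl hx.1, Or.inl hx.2⟩
        · exact ⟨Or.inr hx, Or.inr hx⟩
      have h8 := Finset.sum_le_sum (fun i (_ : i ∈ (Finset.univ : Finset (Fin m))) => h7 i)
      rw [Finset.sum_add_distrib] at h8
      simp only [Finset.sum_const, Finset.card_univ, Fintype.card_fin, smul_eq_mul] at h8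
      have h9 : m * rk M (U ∪ I) ≤ m * rk (M ／ C) U + m * I.ncard := by
        rw [← Nat.mul_add]
        apply Nat.mul_le_mul_left
        omega
      omega

lemma q_restrict (hm : 0 < m) {M : Matroid α} {R : Set α} (hR : R ⊆ M.E) (h : QMem m s M) :
    QMem m s (M ↾ R) := by
  have h1 : M ↾ R = (M✶ ／ (M.E \ R))✶ := by
    rw [dual_contract, dual_dual, delete_eq_restrict, sdiff_sdiff_right_self, inter_eq_right.2 hR]
  rw [h1]
  exact q_dual hm (q_contract hm sdiff_subset (q_dual hm h))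

lemma q_tr {M N : Matroid α} (k : ℕ) (hE : N.E = M.E)
    (hN : ∀ I, N.Indep I ↔ M.Indep I ∧ I.ncard ≤ k) (h : QMem m s M) : QMem m s N := by
  have hNtr : N = tr M k := by
    refine Matroid.ext_indep hE ?_
    intro I _
    rw [hN, tr_indep]
  subst hNtr
  intro B hB
  have h1 : ∀ i, ∃ B', M.IsBase B' ∧ B i ⊆ B' := fun i =>
    (((tr_indep M k (B i)).1 (hB i).indep).1).exists_isBase_superset
  choose B' hB' hBB' using h1
  obtain ⟨L, hLE, hLR, hLB, hL⟩ := h B' hB'
  refine ⟨tr L k, hLE, rep_truncate (M := L) k rfl (fun I => tr_indep L k I) hLR, ?_, ?_⟩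
  · intro i
    have h2 := (tr_indep M k (B i)).1 (hB i).indep
    have h3 : (tr L k).Indep (B i) := ⟨(hLB i).indep.subset (hBB' i), h2.2⟩
    rw [isBase_iff_indep_ncard]
    refine ⟨h3, ?_⟩
    have h4 := IsBase.rk_eq (hB i)
    rw [rk_tr] at h4 ⊢
    rw [tr_ground] at *
    rw [← h4, IsBase.rk_eq (hB' i), IsBase.rk_eq (hLB i)]
  · intro U hU
    rw [rk_tr, rk_tr]
    rcases hL U hU with h2 | h2
    · left
      exact min_le_min_right _ h2
    · by_cases hk : rk M U ≤ k
      · right
        rw [min_eq_left hk]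
        refine le_trans ?_ h2
        apply Nat.add_le_add_right
        apply Finset.sum_le_sum
        intro i _
        exact Set.ncard_le_ncard (inter_subset_inter_right _ (hBB' i)) (Set.toFinite _)
      · left
        rw [min_eq_right (not_le.1 hk).le]
        exact min_le_right _ _

lemma q_sum {M : Matroid α} {N : Matroid β} (hM : QMem m s M) (hN : QMem m s N) :
    QMem m s (M.sum N) := by
  intro B hB
  have hB' := fun i => sum_isBase_iff.1 (hB i)
  obtain ⟨L₁, hE1, hR1, hB1, hL1⟩ := hM (fun i => Sum.inl ⁻¹' B i) (fun i => (hB' i).1)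
  obtain ⟨L₂, hE2, hR2, hB2, hL2⟩ := hN (fun i => Sum.inr ⁻¹' B i) (fun i => (hB' i).2)
  refine ⟨L₁.sum L₂, ?_, rep_sum hR1 hR2, ?_, ?_⟩
  · rw [sum_ground, sum_ground, hE1, hE2]
  · intro i
    rw [sum_isBase_iff]
    exact ⟨hB1 i, hB2 i⟩
  · intro U hU
    rw [rk_sum, rk_sum]
    have hU1 : Sum.inl ⁻¹' U ⊆ M.E := by
      intro x hx
      have := hU hx
      simpa using this
    have hU2 : Sum.inr ⁻¹' U ⊆ N.E := by
      intro x hx
      have := hU hx
      simpa using this
    have key : ∀ i, (U ∩ B i).ncard = (Sum.inl ⁻¹' U ∩ Sum.inl ⁻¹' B i).ncard +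
        (Sum.inr ⁻¹' U ∩ Sum.inr ⁻¹' B i).ncard := by
      intro i
      have h1 : U ∩ B i = Sum.inl '' (Sum.inl ⁻¹' U ∩ Sum.inl ⁻¹' B i) ∪
          Sum.inr '' (Sum.inr ⁻¹' U ∩ Sum.inr ⁻¹' B i) := by
        ext (x | x) <;> simp
      conv_lhs => rw [h1]
      rw [Set.ncard_union_eq _ (Set.toFinite _) (Set.toFinite _),
        Set.ncard_image_of_injective _ Sum.inl_injective,
        Set.ncard_image_of_injective _ Sum.inr_injective]
      rw [Set.disjoint_left]
      rintro _ ⟨x, -, rfl⟩ ⟨y, -, h⟩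
      simp at h
    have hs1 : ∑ i, (Sum.inl ⁻¹' U ∩ Sum.inl ⁻¹' B i).ncard ≤ m * rk M (Sum.inl ⁻¹' U) := by
      have : ∑ i : Fin m, (Sum.inl ⁻¹' U ∩ Sum.inl ⁻¹' B i).ncard ≤
          ∑ _i : Fin m, rk M (Sum.inl ⁻¹' U) := by
        apply Finset.sum_le_sum
        intro i _
        exact Indep.le_rk ((hB' i).1.indep.subset inter_subset_right) inter_subset_left
      simpa using this
    have hs2 : ∑ i, (Sum.inr ⁻¹' U ∩ Sum.inr ⁻¹' B i).ncard ≤ m * rk N (Sum.inr ⁻¹' U) := by
      have : ∑ i : Fin m, (Sum.inr ⁻¹' U ∩ Sum.inr ⁻¹' B i).ncard ≤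
          ∑ _i : Fin m, rk N (Sum.inr ⁻¹' U) := by
        apply Finset.sum_le_sum
        intro i _
        exact Indep.le_rk ((hB' i).2.indep.subset inter_subset_right) inter_subset_left
      simpa using this
    have hsum : ∑ i, (U ∩ B i).ncard = ∑ i, (Sum.inl ⁻¹' U ∩ Sum.inl ⁻¹' B i).ncard +
        ∑ i, (Sum.inr ⁻¹' U ∩ Sum.inr ⁻¹' B i).ncard := by
      rw [← Finset.sum_add_distrib]
      exact Finset.sum_congr rfl (fun i _ => key i)
    rw [hsum, Nat.mul_add]
    rcases hL1 _ hU1 with h1 | h1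
    · rcases hL2 _ hU2 with h2 | h2
      · left
        exact add_le_add h1 h2
      · right
        omega
    · right
      omega

lemma q_bip (hm : 0 < m) (Δ : α → β → Prop) {M : Matroid β} (h : QMem m s M) :
    QMem m s (bip Δ M) := by
  classical
  intro B hB
  set k := rk (bip Δ M) (bip Δ M).E with hk
  have h1 : ∀ i, ∃ g : B i → β, Function.Injective g ∧ (∀ x : B i, Δ x (g x)) ∧
      M.Indep (range g) := fun i => (bip_indep Δ M _).1 (hB i).indep
  choose g hg hgΔ hgI using h1
  have hcard : ∀ i, (range (g i)).ncard = k := by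
    intro i
    rw [hk, IsBase.rk_eq (hB i), ← image_univ, Set.ncard_image_of_injective _ (hg i),
      Set.ncard_univ, Nat.card_coe_set_eq]
  have hkM : k ≤ rk M M.E := by
    rw [← hcard ⟨0, hm⟩]
    exact Indep.le_rk (hgI _) (hgI _).subset_ground
  have hM1 : QMem m s (tr M k) := q_tr (M := M) k rfl (fun I => tr_indep M k I) h
  have hJ : ∀ i, (tr M k).IsBase (range (g i)) := by
    intro i
    rw [isBase_iff_indep_ncard]
    refine ⟨⟨hgI i, (hcard i).le⟩, ?_⟩
    rw [rk_tr, tr_ground, hcard i, min_eq_right hkM]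
  obtain ⟨L, hLE, hLR, hLB, hL⟩ := hM1 (fun i => range (g i)) hJ
  rw [tr_ground] at hLE
  refine ⟨bip Δ L, rfl, rep_bip Δ hLR, ?_, ?_⟩
  · intro i
    have h2 : (bip Δ L).Indep (B i) := ⟨g i, hg i, hgΔ i, (hLB i).indep⟩
    rw [isBase_iff_indep_ncard]
    refine ⟨h2, ?_⟩
    apply le_antisymm
    · exact Indep.le_rk h2 (subset_univ _)
    · obtain ⟨I, -, hI, hc, -⟩ := exists_indep_rk (bip Δ L) (bip Δ L).E
      rw [← hc]
      obtain ⟨f, hf, -, hfI⟩ := (bip_indep Δ L _).1 hI
      have h3 := Indep.le_rk hfI hfI.subset_ground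
      rw [IsBase.rk_eq (hLB i)] at h3
      have h4 : (range f).ncard = I.ncard := by
        rw [← image_univ, Set.ncard_image_of_injective _ hf, Set.ncard_univ, Nat.card_coe_set_eq]
      have h5 := hcard i
      have h6 := IsBase.rk_eq (hB i)
      omega
  · intro U _
    obtain ⟨V, hVU, hV⟩ := bip_rank Δ (tr M k) U
    have h2 : rk (bip Δ (tr M k)) U ≤ rk (bip Δ M) U := by
      apply rk_le_of_indep_imp
      intro I hI
      obtain ⟨f, hf, hfΔ, hfI⟩ := (bip_indep Δ _ _).1 hI
      exact ⟨f, hf, hfΔ, hfI.1⟩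
    have h3 := bip_rank_le Δ L U V hVU
    have e1 : rk L (nbr Δ V ∩ M.E) = rk L (nbr Δ V) := by
      rw [← hLE, rk_inter_ground]
    have e2 : rk (tr M k) (nbr Δ V ∩ M.E) = rk (tr M k) (nbr Δ V) := by
      rw [← rk_inter_ground (tr M k) (nbr Δ V), tr_ground]
    rcases hL (nbr Δ V ∩ M.E) inter_subset_right with h4 | h4
    · left
      rw [e1, e2] at h4
      omega
    · right
      rw [e2] at h4
      have h5 : ∀ i, (U ∩ B i).ncard ≤ (nbr Δ V ∩ M.E ∩ range (g i)).ncard + (U \ V).ncard := by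
        intro i
        have e3 : U ∩ B i ⊆ (V ∩ B i) ∪ (U \ V) := by
          rintro x ⟨hx, hxB⟩
          by_cases hxV : x ∈ V
          · exact Or.inl ⟨hxV, hxB⟩
          · exact Or.inr ⟨hx, hxV⟩
        have e4 := Set.ncard_le_ncard e3 (Set.toFinite _)
        have e5 := Set.ncard_union_le (V ∩ B i) (U \ V)
        have e6 : (V ∩ B i).ncard ≤ (nbr Δ V ∩ M.E ∩ range (g i)).ncard := by
          have e7 : V ∩ B i = Subtype.val '' {x : B i | (x : α) ∈ V} := by
            ext x
            constructor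
            · rintro ⟨hx, hxB⟩
              exact ⟨⟨x, hxB⟩, hx, rfl⟩
            · rintro ⟨⟨y, hy⟩, hyV, rfl⟩
              exact ⟨hyV, hy⟩
          rw [e7, Set.ncard_image_of_injective _ Subtype.val_injective,
            ← Set.ncard_image_of_injective _ (hg i)]
          refine Set.ncard_le_ncard ?_ (Set.toFinite _)
          rintro _ ⟨x, hx, rfl⟩
          exact ⟨⟨⟨x, hx, hgΔ i x⟩, (hgI i).subset_ground (mem_range_self x)⟩, mem_range_self x⟩
        omega
      have h6 := Finset.sum_le_sum (fun i (_ : i ∈ (Finset.univ : Finset (Fin m))) => h5 i)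
      rw [Finset.sum_add_distrib] at h6
      simp only [Finset.sum_const, Finset.card_univ, Fintype.card_fin, smul_eq_mul] at h6
      have h7 : m * rk (tr M k) (nbr Δ V) + m * (U \ V).ncard ≤ m * rk (bip Δ M) U := by
        rw [← Nat.mul_add]
        apply Nat.mul_le_mul_left
        omega
      omega

lemma q_map {K : Matroid α} {f : α → β} (hf : Function.Injective f) (h : QMem m s K) :
    QMem m s (K.map f hf.injOn) := by
  intro B hB
  have h1 : ∀ i, ∃ B₀, K.IsBase B₀ ∧ B i = f '' B₀ := fun i => (map_isBase_iff K f hf.injOn).1 (hB i)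
  choose B₀ hB₀ hBf using h1
  obtain ⟨L, hLE, hLR, hLB, hL⟩ := h B₀ hB₀
  refine ⟨L.map f hf.injOn, ?_, rep_map _ hLR, ?_, ?_⟩
  · rw [map_ground, map_ground, hLE]
  · intro i
    rw [map_isBase_iff]
    exact ⟨B₀ i, hLB i, hBf i⟩
  · intro U hU
    obtain ⟨X, hX, rfl⟩ := (subset_image_iff.1 (show U ⊆ f '' K.E from hU))
    rw [rk_map' _ hf, rk_map' _ hf]
    have h2 : ∀ i, (f '' X ∩ B i).ncard = (X ∩ B₀ i).ncard := by
      intro i
      rw [hBf i, ← image_inter hf, Set.ncard_image_of_injective _ hf]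
    simp only [h2]
    exact hL X hX

lemma q_of_map {K : Matroid α} {f : α → β} (hf : Function.Injective f)
    (h : QMem m s (K.map f hf.injOn)) : QMem m s K := by
  intro B hB
  obtain ⟨L, hLE, hLR, hLB, hL⟩ := h (fun i => f '' B i) (fun i => by
    rw [map_isBase_iff]
    exact ⟨B i, hB i, rfl⟩)
  have hcomap : (L.comap f).map f hf.injOn = L := by
    apply map_comap
    · rw [hLE, map_ground]
      exact image_subset_range _ _
  have hE : (L.comap f).E = K.E := by
    rw [comap_ground_eq, hLE, map_ground, preimage_image_eq _ hf]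
  refine ⟨L.comap f, hE, ?_, ?_, ?_⟩
  · apply rep_of_map hf.injOn
    rw [hcomap]
    exact hLR
  · intro i
    have h1 := hLB i
    rw [← hcomap, map_isBase_iff] at h1
    obtain ⟨B', hB', heq⟩ := h1
    rw [(image_injective.2 hf) heq]
    exact hB'
  · intro U hU
    have h1 := hL (f '' U) (image_mono hU)
    rw [rk_map' _ hf] at h1
    rw [rk_comap' L hf]
    have h2 : ∀ i, (f '' U ∩ f '' B i).ncard = (U ∩ B i).ncard := by
      intro i
      rw [← image_inter hf, Set.ncard_image_of_injective _ hf]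
    simp only [h2] at h1
    exact h1

lemma q_iso {M : Matroid α} {N : Matroid β} (h : Iso M N) (hM : QMem m s M) : QMem m s N := by
  refine iso_transport (fun M => QMem m s M) ?_ ?_ h hM
  · intro γ δ _ _ K f hf hK
    exact q_map hf hK
  · intro γ δ _ _ K f hf hK
    exact q_of_map hf hK

/-- small members are gammoids -/
lemma q_small {M : Matroid α} (h : QMem m s M) (hm : 2 ^ Nat.card α ≤ m)
    (hs : m * Nat.card α ≤ s) : Rep M := by
  classical
  have : Fintype α := Fintype.ofFinite α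
  have hm0 : 0 < m := lt_of_lt_of_le (Nat.pos_of_ne_zero (by positivity)) hm
  -- enumerate the bases
  obtain ⟨B0, hB0⟩ := M.exists_isBase
  have hcard : Nat.card {B : Set α // M.IsBase B} ≤ Nat.card (Fin m) := by
    rw [Nat.card_fin]
    refine le_trans ?_ hm
    have h1 : Nat.card {B : Set α // M.IsBase B} ≤ Nat.card (Set α) :=
      Nat.card_le_card_of_injective _ Subtype.val_injective
    refine h1.trans ?_
    rw [Nat.card_eq_fintype_card, Nat.card_eq_fintype_card, Fintype.card_set]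
  have hne : Nonempty {B : Set α // M.IsBase B} := ⟨⟨B0, hB0⟩⟩
  have hsurj : ∃ b : Fin m → {B : Set α // M.IsBase B}, Function.Surjective b := by
    have : Nonempty ({B : Set α // M.IsBase B} ↪ Fin m) := by
      have : Fintype {B : Set α // M.IsBase B} := Fintype.ofFinite _
      rw [Nat.card_eq_fintype_card, Nat.card_eq_fintype_card] at hcard
      exact Function.Embedding.nonempty_of_card_le hcard
    obtain ⟨e⟩ := this
    exact ⟨Function.invFun e, Function.invFun_surjective e.injective⟩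
  obtain ⟨b, hb⟩ := hsurj
  obtain ⟨L, hLE, hLR, hLB, hL⟩ := h (fun i => (b i : Set α)) (fun i => (b i).2)
  have hrk : ∀ U ⊆ M.E, rk L U ≤ rk M U := by
    intro U hU
    rcases hL U hU with h1 | h1
    · exact h1
    · have h2 : m * Nat.card α ≤ m * rk M U := by omega
      have h3 : Nat.card α ≤ rk M U := Nat.le_of_mul_le_mul_left h2 hm0
      have h4 := rk_le_ncard L U
      have h5 : U.ncard ≤ Nat.card α := by
        rw [← Set.ncard_univ]
        exact Set.ncard_le_ncard (subset_univ _) (Set.toFinite _)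
      omega
  have : L = M := by
    apply eq_of_rk_le hLE hrk
    intro B hB
    obtain ⟨i, hi⟩ := hb ⟨B, hB⟩
    have := hLB i
    rw [hi] at this
    exact this
  rw [← this]
  exact hLR

end Q

end Pool.Agent.Lib.MP_96faa3_co
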