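import Pool.Agent.Lib.MP_96faa3_co.Rank

/-! Rado's theorem and matroids induced by bipartite graphs. -/

namespace Pool.Agent.Lib.MP_96faa3_co

open Set Matroid

variable {α β : Type} [Finite α] [Finite β]

/-- neighbourhood of a set in a bipartite graph -/
def nbr {α β : Type} (Δ : α → β → Prop) (V : Set α) : Set β := {b | ∃ a ∈ V, Δ a b}

omit [Finite α] [Finite β] in
lemma nbr_mono (Δ : α → β → Prop) {V W : Set α} (h : V ⊆ W) : nbr Δ V ⊆ nbr Δ W := by
  rintro b ⟨a, ha, hb⟩
  exact ⟨a, h ha, hb⟩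

omit [Finite α] [Finite β] in
lemma nbr_union (Δ : α → β → Prop) (V W : Set α) : nbr Δ (V ∪ W) = nbr Δ V ∪ nbr Δ W := by
  ext b
  constructor
  · rintro ⟨a, ha | ha, hb⟩
    · exact Or.inl ⟨a, ha, hb⟩
    · exact Or.inr ⟨a, ha, hb⟩
  · rintro (⟨a, ha, hb⟩ | ⟨a, ha, hb⟩)
    · exact ⟨a, Or.inl ha, hb⟩
    · exact ⟨a, Or.inr ha, hb⟩

/-- **Rado's theorem** -/
theorem rado {ι : Type} [Finite ι] (M : Matroid β) (A : ι → Set β)
    (h : ∀ J : Set ι, J.ncard ≤ rk M (⋃ j ∈ J, A j)) :
    ∃ g : ι → β, Function.Injective g ∧ (∀ i, g i ∈ A i) ∧ M.Indep (range g) := by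
  classical
  let S : Set (ι → Set β) := {A' | A' ≤ A ∧ ∀ J : Set ι, J.ncard ≤ rk M (⋃ j ∈ J, A' j)}
  have hS : S.Finite := Set.toFinite S
  have hne : S.Nonempty := ⟨A, le_refl _, h⟩
  obtain ⟨A', hA'⟩ := hS.exists_minimal hne
  have hA'S := hA'.prop
  obtain ⟨hle, hR⟩ := hA'S
  -- key step
  have key : ∀ i, ∀ x ∈ A' i, ∃ J : Set ι, i ∉ J ∧
      rk M ((A' i \ {x}) ∪ ⋃ j ∈ J, A' j) < J.ncard + 1 := by
    intro i x hx
    by_contra hcon
    push Not at hcon
    let A'' : ι → Set β := Function.update A' i (A' i \ {x})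
    have hlt : A'' ≤ A' := by
      intro j
      by_cases hj : j = i
      · subst hj
        simp [A'']
      · simp [A'', hj]
    have hmem : A'' ∈ S := by
      refine ⟨hlt.trans hle, fun J => ?_⟩
      by_cases hi : i ∈ J
      · have h1 := hcon (J \ {i}) (by simp)
        have h2 : (J \ {i}).ncard + 1 = J.ncard := by
          rw [Set.ncard_sdiff_singleton_add_one hi (Set.toFinite _)]
        rw [h2] at h1
        refine h1.trans (rk_mono M ?_)
        intro b hb
        rcases hb with hb | hb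
        · refine mem_iUnion₂.2 ⟨i, hi, ?_⟩
          simpa [A''] using hb
        · obtain ⟨j, hj, hb⟩ := mem_iUnion₂.1 hb
          refine mem_iUnion₂.2 ⟨j, hj.1, ?_⟩
          have : j ≠ i := hj.2
          simpa [A'', this] using hb
      · refine (hR J).trans (rk_mono M ?_)
        intro b hb
        obtain ⟨j, hj, hb⟩ := mem_iUnion₂.1 hb
        refine mem_iUnion₂.2 ⟨j, hj, ?_⟩
        have : j ≠ i := fun h => hi (h ▸ hj)
        simpa [A'', this] using hb
    have h3 := hA'.le_of_le hmem hlt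
    have h4 := h3 i hx
    simp [A''] at h4
  have hsub : ∀ i, (A' i).Subsingleton := by
    intro i x1 hx1 x2 hx2
    by_contra hne12
    obtain ⟨J1, hi1, hJ1⟩ := key i x1 hx1
    obtain ⟨J2, hi2, hJ2⟩ := key i x2 hx2
    have hsm := rk_submod M ((A' i \ {x1}) ∪ ⋃ j ∈ J1, A' j) ((A' i \ {x2}) ∪ ⋃ j ∈ J2, A' j)
    have e1 : (J1 ∩ J2).ncard ≤
        rk M (((A' i \ {x1}) ∪ ⋃ j ∈ J1, A' j) ∩ ((A' i \ {x2}) ∪ ⋃ j ∈ J2, A' j)) := by
      refine (hR _).trans (rk_mono M ?_)
      intro b hb
      obtain ⟨j, hj, hb⟩ := mem_iUnion₂.1 hb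
      exact ⟨Or.inr (mem_iUnion₂.2 ⟨j, hj.1, hb⟩), Or.inr (mem_iUnion₂.2 ⟨j, hj.2, hb⟩)⟩
    have e2 : (insert i (J1 ∪ J2)).ncard ≤
        rk M (((A' i \ {x1}) ∪ ⋃ j ∈ J1, A' j) ∪ ((A' i \ {x2}) ∪ ⋃ j ∈ J2, A' j)) := by
      refine (hR _).trans (rk_mono M ?_)
      intro b hbb
      obtain ⟨j, hj, hb⟩ := mem_iUnion₂.1 hbb
      clear hbb
      rcases hj with rfl | hj | hj
      · by_cases hb1 : b = x1
        · right; left
          refine ⟨hb, ?_⟩
          rw [hb1]
          exact hne12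
        · left; left
          exact ⟨hb, hb1⟩
      · left; right
        exact mem_iUnion₂.2 ⟨j, hj, hb⟩
      · right; right
        exact mem_iUnion₂.2 ⟨j, hj, hb⟩
    have e3 : (insert i (J1 ∪ J2)).ncard = (J1 ∪ J2).ncard + 1 := by
      rw [Set.ncard_insert_of_notMem _ (Set.toFinite _)]
      simp [hi1, hi2]
    have e4 := Set.ncard_union_add_ncard_inter J1 J2 (Set.toFinite _) (Set.toFinite _)
    omega
  have hnon : ∀ i, (A' i).Nonempty := by
    intro i
    have h1 := hR {i}
    rw [Set.ncard_singleton] at h1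
    by_contra hcon
    rw [Set.not_nonempty_iff_eq_empty] at hcon
    simp [hcon, rk_empty] at h1
  choose g hg using hnon
  have hgA : ∀ i, A' i = {g i} := fun i =>
    (hsub i).eq_singleton_of_mem (hg i)
  have hr : range g = ⋃ j ∈ (univ : Set ι), A' j := by
    ext b
    simp [hgA, eq_comm]
  have h1 := hR univ
  rw [← hr] at h1
  have h2 := rk_le_ncard M (range g)
  have h3 : (range g).ncard ≤ (univ : Set ι).ncard := by
    rw [← image_univ]
    exact Set.ncard_image_le (Set.toFinite _)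
  refine ⟨g, ?_, fun i => hle i (hg i), ?_⟩
  · rw [← Set.injOn_univ]
    rw [← Set.ncard_image_iff (Set.toFinite _), image_univ]
    omega
  · rw [indep_iff_rk]
    omega

/-- independence in the matroid induced by a bipartite graph `Δ` from `M` -/
def BipIndep {α β : Type} (Δ : α → β → Prop) (M : Matroid β) (X : Set α) : Prop :=
  ∃ g : X → β, Function.Injective g ∧ (∀ x : X, Δ x (g x)) ∧ M.Indep (range g)

lemma bipIndep_iff (Δ : α → β → Prop) (M : Matroid β) (X : Set α) :
    BipIndep Δ M X ↔ ∀ V ⊆ X, V.ncard ≤ rk M (nbr Δ V) := by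
  constructor
  · rintro ⟨g, hg, hΔ, hI⟩ V hV
    let s : Set X := {x | (x : α) ∈ V}
    have h1 : (g '' s).ncard = V.ncard := by
      rw [Set.ncard_image_of_injective _ hg]
      have : V = Subtype.val '' s := by
        ext v
        simp only [s, mem_image, mem_ofPred_eq, Subtype.exists, exists_and_left, exists_prop,
          exists_eq_right_right]
        exact ⟨fun h => ⟨h, hV h⟩, fun h => h.1⟩
      rw [this, Set.ncard_image_of_injective _ Subtype.val_injective]
    have h2 : M.Indep (g '' s) := hI.subset (image_subset_range _ _)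
    rw [← h1, ← Indep.rk_eq h2]
    apply rk_mono
    rintro b ⟨x, hx, rfl⟩
    exact ⟨x, hx, hΔ x⟩
  · intro h
    have := rado M (fun x : X => {b | Δ x b}) ?_
    · obtain ⟨g, hg, hA, hI⟩ := this
      exact ⟨g, hg, hA, hI⟩
    · intro J
      have h1 := h (Subtype.val '' J) (by rintro _ ⟨x, _, rfl⟩; exact x.2)
      rw [Set.ncard_image_of_injective _ Subtype.val_injective] at h1
      refine h1.trans (rk_mono M ?_)
      rintro b ⟨_, ⟨x, hx, rfl⟩, hb⟩
      exact mem_iUnion₂.2 ⟨x, hx, hb⟩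

/-- polymatroid rank functions -/
structure IsPoly (f : Set α → ℕ) : Prop where
  mono : ∀ {V W}, V ⊆ W → f V ≤ f W
  submod : ∀ V W, f (V ∩ W) + f (V ∪ W) ≤ f V + f W
  empty : f ∅ = 0

/-- independence given by a polymatroid rank function -/
def PolyIndep {α : Type} (f : Set α → ℕ) (X : Set α) : Prop := ∀ V ⊆ X, V.ncard ≤ f V

lemma tight_hull {f : Set α → ℕ} (hf : IsPoly f) {I Z : Set α} (hI : PolyIndep f I)
    (hZ : ∀ z ∈ Z, z ∉ I → ¬ PolyIndep f (insert z I)) :
    ∃ W ⊆ I, f (W ∪ (Z \ I)) ≤ W.ncard := by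
  classical
  let T : Set (Set α) := {V | V ⊆ I ∧ f V ≤ V.ncard}
  have hT : T.Finite := Set.toFinite _
  have hne : T.Nonempty := ⟨∅, empty_subset _, by simp [hf.empty]⟩
  obtain ⟨W, hW⟩ := hT.exists_maximal hne
  obtain ⟨hWI, hWt⟩ := hW.prop
  have hmax : ∀ V, V ⊆ I → f V ≤ V.ncard → V ⊆ W := by
    intro V hV hVt
    have h1 : W ∪ V ∈ T := by
      refine ⟨union_subset hWI hV, ?_⟩
      have h1 := hf.submod W V
      have h2 := hI (W ∩ V) (inter_subset_left.trans hWI)
      have h3 := Set.ncard_union_add_ncard_inter W V (Set.toFinite _) (Set.toFinite _)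
      omega
    have h2 := hW.le_of_ge h1 subset_union_left
    exact subset_union_right.trans h2
  have hz : ∀ z ∈ Z \ I, f (insert z W) ≤ W.ncard := by
    rintro z ⟨hz, hzI⟩
    have h1 := hZ z hz hzI
    unfold PolyIndep at h1
    push Not at h1
    obtain ⟨V, hV, hVlt⟩ := h1
    have hzV : z ∈ V := by
      by_contra hcon
      have : V ⊆ I := by
        intro v hv
        rcases hV hv with rfl | h
        · exact absurd hv hcon
        · exact h
      have := hI V this
      omega
    have hV0 : V \ {z} ⊆ I := by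
      rintro v ⟨hv, hne⟩
      rcases hV hv with h | h
      · exact absurd h hne
      · exact h
    have hc : (V \ {z}).ncard + 1 = V.ncard := Set.ncard_sdiff_singleton_add_one hzV (Set.toFinite _)
    have h2 : f (V \ {z}) ≤ f V := hf.mono sdiff_subset
    have h3 : V \ {z} ⊆ W := hmax _ hV0 (by omega)
    have h4 := hI _ hV0
    have h5 := hf.submod W V
    have h6 : W ∩ V = V \ {z} := by
      ext v
      constructor
      · rintro ⟨h1, h2⟩
        refine ⟨h2, ?_⟩
        rintro rfl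
        exact hzI (hWI h1)
      · intro h
        exact ⟨h3 h, h.1⟩
    have h7 : W ∪ V = insert z W := by
      ext v
      constructor
      · rintro (h | h)
        · exact Or.inr h
        · by_cases hv : v = z
          · exact Or.inl hv
          · exact Or.inr (h3 ⟨h, hv⟩)
      · rintro (rfl | h)
        · exact Or.inr hzV
        · exact Or.inl h
    rw [h6, h7] at h5
    omega
  refine ⟨W, hWI, ?_⟩
  have hfin : (Z \ I).Finite := Set.toFinite _
  have hgen : ∀ S : Set α, S.Finite → S ⊆ Z \ I → f (W ∪ S) ≤ W.ncard := by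
    intro S hS
    induction S, hS using Set.Finite.induction_on with
    | empty => intro _; simpa using hWt
    | @insert z S hzS hSf ih =>
      intro hsub
      have ih' := ih ((subset_insert _ _).trans hsub)
      have h1 := hz z (hsub (mem_insert _ _))
      have h2 := hf.submod (W ∪ S) (insert z W)
      have h3 : f W ≤ f ((W ∪ S) ∩ insert z W) :=
        hf.mono (subset_inter subset_union_left (subset_insert _ _))
      have h4 := hI W hWI
      have h5 : (W ∪ S) ∪ insert z W = W ∪ insert z S := by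
        ext v
        simp only [mem_union, mem_insert_iff]
        tauto
      rw [h5] at h2
      omega
  exact hgen _ hfin Subset.rfl

lemma poly_aug {f : Set α → ℕ} (hf : IsPoly f) {I J : Set α} (hI : PolyIndep f I)
    (hJ : PolyIndep f J) (hlt : I.ncard < J.ncard) :
    ∃ e ∈ J, e ∉ I ∧ PolyIndep f (insert e I) := by
  by_contra hcon
  push Not at hcon
  obtain ⟨W, hWI, hW⟩ := tight_hull hf hI hcon
  have h1 := hJ ((W ∩ J) ∪ (J \ I)) (union_subset inter_subset_right sdiff_subset)
  have h2 : f ((W ∩ J) ∪ (J \ I)) ≤ f (W ∪ (J \ I)) :=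
    hf.mono (union_subset_union_left _ inter_subset_left)
  have h3 : ((W ∩ J) ∪ (J \ I)).ncard = (W ∩ J).ncard + (J \ I).ncard := by
    refine Set.ncard_union_eq ?_ (Set.toFinite _) (Set.toFinite _)
    rw [Set.disjoint_left]
    rintro x ⟨hx, _⟩ ⟨_, hx'⟩
    exact hx' (hWI hx)
  have h4 := Set.ncard_inter_add_ncard_sdiff_eq_ncard W J (Set.toFinite _)
  have h5 : (W \ J).ncard ≤ (I \ J).ncard :=
    Set.ncard_le_ncard (sdiff_subset_sdiff_left hWI) (Set.toFinite _)
  have h6 := Set.ncard_inter_add_ncard_sdiff_eq_ncard J I (Set.toFinite _)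
  have h7 := Set.ncard_inter_add_ncard_sdiff_eq_ncard I J (Set.toFinite _)
  rw [inter_comm] at h7
  omega

lemma isPoly_nbr (Δ : α → β → Prop) (M : Matroid β) : IsPoly (fun V => rk M (nbr Δ V)) where
  mono h := rk_mono M (nbr_mono Δ h)
  submod V W := by
    have h1 := rk_submod M (nbr Δ V) (nbr Δ W)
    have h2 : rk M (nbr Δ (V ∩ W)) ≤ rk M (nbr Δ V ∩ nbr Δ W) :=
      rk_mono M (subset_inter (nbr_mono Δ inter_subset_left) (nbr_mono Δ inter_subset_right))
    rw [← nbr_union] at h1
    show rk M (nbr Δ (V ∩ W)) + rk M (nbr Δ (V ∪ W)) ≤ rk M (nbr Δ V) + rk M (nbr Δ W)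
    omega
  empty := by
    have : nbr Δ ∅ = ∅ := by
      ext b
      simp [nbr]
    show rk M (nbr Δ ∅) = 0
    rw [this, rk_empty]

/-- The matroid on `α` induced by the bipartite graph `Δ` from the matroid `M` on `β`. -/
noncomputable def bip (Δ : α → β → Prop) (M : Matroid β) : Matroid α :=
  (IndepMatroid.ofFinite (E := univ) (Set.toFinite _) (BipIndep Δ M)
    (by
      rw [bipIndep_iff]
      intro V hV
      rw [subset_empty_iff] at hV
      simp [hV])
    (by
      intro I J hJ hIJ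
      rw [bipIndep_iff] at *
      exact fun V hV => hJ V (hV.trans hIJ))
    (by
      intro I J hI hJ hlt
      rw [bipIndep_iff] at *
      obtain ⟨e, he, heI, h⟩ := poly_aug (isPoly_nbr Δ M) hI hJ hlt
      refine ⟨e, he, heI, ?_⟩
      rw [bipIndep_iff]
      exact h)
    (fun _ _ => subset_univ _)).matroid

@[simp] lemma bip_ground (Δ : α → β → Prop) (M : Matroid β) : (bip Δ M).E = univ := rfl

@[simp] lemma bip_indep (Δ : α → β → Prop) (M : Matroid β) (X : Set α) :
    (bip Δ M).Indep X ↔ BipIndep Δ M X := Iff.rfl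

/-- rank formula (hard direction) -/
lemma bip_rank (Δ : α → β → Prop) (M : Matroid β) (U : Set α) :
    ∃ V ⊆ U, rk M (nbr Δ V) + (U \ V).ncard ≤ rk (bip Δ M) U := by
  obtain ⟨I, hIU, hI, hcard, hbas⟩ := exists_indep_rk (bip Δ M) U
  have hI' : PolyIndep (fun V => rk M (nbr Δ V)) I := by
    rw [bip_indep, bipIndep_iff] at hI
    exact hI
  have hZ : ∀ z ∈ U, z ∉ I → ¬ PolyIndep (fun V => rk M (nbr Δ V)) (insert z I) := by
    intro z hz hzI hcon
    have h1 : (bip Δ M).Indep (insert z I) := by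
      rw [bip_indep, bipIndep_iff]
      exact hcon
    have h2 := hbas.eq_of_subset_indep h1 (subset_insert _ _) (insert_subset hz hIU)
    exact hzI (h2 ▸ mem_insert _ _)
  obtain ⟨W, hWI, hW⟩ := tight_hull (isPoly_nbr Δ M) hI' hZ
  refine ⟨W ∪ (U \ I), union_subset (hWI.trans hIU) sdiff_subset, ?_⟩
  have h1 : U \ (W ∪ (U \ I)) = I \ W := by
    ext x
    simp only [mem_sdiff, mem_union, not_or, not_and, not_not]
    constructor
    · rintro ⟨h1, h2, h3⟩
      exact ⟨h3 h1, h2⟩
    · rintro ⟨h1, h2⟩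
      exact ⟨hIU h1, h2, fun _ => h1⟩
  have h2 := Set.ncard_sdiff_add_ncard_of_subset hWI (Set.toFinite _)
  rw [h1, ← hcard]
  have hW' : rk M (nbr Δ (W ∪ (U \ I))) ≤ W.ncard := hW
  omega

/-- rank formula (easy direction) -/
lemma bip_rank_le (Δ : α → β → Prop) (M : Matroid β) (U V : Set α) (hV : V ⊆ U) :
    rk (bip Δ M) U ≤ rk M (nbr Δ V) + (U \ V).ncard := by
  have h1 : U = V ∪ (U \ V) := (union_sdiff_cancel hV).symm
  have h2 : rk (bip Δ M) U ≤ rk (bip Δ M) V + (U \ V).ncard := by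
    conv_lhs => rw [h1]
    exact rk_union_le_ncard _ _ _
  have h3 : rk (bip Δ M) V ≤ rk M (nbr Δ V) := by
    obtain ⟨I, hIV, hI, hcard, -⟩ := exists_indep_rk (bip Δ M) V
    rw [← hcard]
    rw [bip_indep, bipIndep_iff] at hI
    exact (hI I Subset.rfl).trans (rk_mono M (nbr_mono Δ hIV))
  omega

end Pool.Agent.Lib.MP_96faa3_co
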