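import Mathlib

/-! Natural number valued rank function for matroids on finite types. -/

namespace Pool.Agent.Lib.MP_96faa3_co

open Set Matroid

variable {α : Type} [Finite α] {M : Matroid α} {X Y I : Set α}

/-- rank as a natural number -/
noncomputable def rk {α : Type} (M : Matroid α) (X : Set α) : ℕ := (M.eRk X).toNat

lemma cast_rk (M : Matroid α) (X : Set α) : (rk M X : ℕ∞) = M.eRk X := by
  unfold rk
  rw [ENat.natCast_toNat]
  have h1 : M.eRk X ≤ X.encard := M.eRk_le_encard X
  intro h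
  rw [h, top_le_iff] at h1
  exact (Set.toFinite X).encard_lt_top.ne h1

lemma rk_mono (M : Matroid α) {X Y : Set α} (h : X ⊆ Y) : rk M X ≤ rk M Y := by
  have := M.eRk_mono h
  rw [← cast_rk, ← cast_rk] at this
  exact_mod_cast this

lemma rk_submod (M : Matroid α) (X Y : Set α) :
    rk M (X ∩ Y) + rk M (X ∪ Y) ≤ rk M X + rk M Y := by
  have := M.eRk_inter_add_eRk_union_le X Y
  simp only [← cast_rk] at this
  exact_mod_cast this

lemma cast_ncard' (X : Set α) : (X.ncard : ℕ∞) = X.encard := (Set.toFinite X).cast_ncard_eq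

lemma rk_le_ncard (M : Matroid α) (X : Set α) : rk M X ≤ X.ncard := by
  have := M.eRk_le_encard X
  rw [← cast_rk, ← cast_ncard'] at this
  exact_mod_cast this

lemma rk_empty (M : Matroid α) : rk M ∅ = 0 := by
  have := rk_le_ncard M ∅
  simpa using this

lemma Indep.rk_eq (h : M.Indep I) : rk M I = I.ncard := by
  have := h.eRk_eq_encard
  rw [← cast_rk, ← cast_ncard'] at this
  exact_mod_cast this

lemma indep_iff_rk : M.Indep I ↔ rk M I = I.ncard := by
  rw [indep_iff_eRk_eq_encard_of_finite (Set.toFinite I), ← cast_rk, ← cast_ncard']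
  exact_mod_cast Iff.rfl

lemma Indep.le_rk (h : M.Indep I) (hX : I ⊆ X) : I.ncard ≤ rk M X := by
  rw [← Indep.rk_eq h]
  exact rk_mono M hX

lemma exists_indep_rk (M : Matroid α) (X : Set α) :
    ∃ I ⊆ X, M.Indep I ∧ I.ncard = rk M X ∧ M.IsBasis' I X := by
  obtain ⟨I, hI⟩ := M.exists_isBasis' X
  refine ⟨I, hI.subset, hI.indep, ?_, hI⟩
  have := hI.encard_eq_eRk
  rw [← cast_rk, ← cast_ncard'] at this
  exact_mod_cast this

lemma rk_inter_ground (M : Matroid α) (X : Set α) : rk M (X ∩ M.E) = rk M X := by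
  unfold rk
  rw [M.eRk_inter_ground X]

lemma IsBase.rk_eq {B : Set α} (h : M.IsBase B) : rk M M.E = B.ncard := by
  have := h.encard_eq_eRank
  rw [← M.eRk_ground, ← cast_rk, ← cast_ncard'] at this
  exact_mod_cast this.symm

lemma rk_le_rk_ground (M : Matroid α) (X : Set α) : rk M X ≤ rk M M.E := by
  rw [← rk_inter_ground]
  exact rk_mono M inter_subset_right

lemma isBase_iff_indep_ncard {B : Set α} : M.IsBase B ↔ M.Indep B ∧ B.ncard = rk M M.E := by
  constructor
  · intro h
    exact ⟨h.indep, (IsBase.rk_eq h).symm⟩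
  · rintro ⟨h1, h2⟩
    refine h1.isBase_of_eRk_ge (Set.toFinite _) ?_
    rw [← M.eRk_ground, ← cast_rk, ← cast_rk, ← h2, Indep.rk_eq h1]

lemma rk_union_le (M : Matroid α) (X Y : Set α) : rk M (X ∪ Y) ≤ rk M X + rk M Y := by
  have := rk_submod M X Y
  omega

lemma rk_union_le_ncard (M : Matroid α) (X Y : Set α) : rk M (X ∪ Y) ≤ rk M X + Y.ncard := by
  have := rk_union_le M X Y
  have := rk_le_ncard M Y
  omega

lemma rk_dual (M : Matroid α) {X : Set α} (hX : X ⊆ M.E) :
    rk M✶ X + rk M M.E = rk M (M.E \ X) + X.ncard := by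
  have := M.eRk_dual_add_eRank X hX
  rw [← M.eRk_ground, ← cast_rk, ← cast_rk, ← cast_rk, ← cast_ncard'] at this
  exact_mod_cast this

lemma rk_restrict (M : Matroid α) (R X : Set α) : rk (M ↾ R) X = rk M (X ∩ R) := by
  unfold rk
  rw [restrict_eRk_eq']

lemma rk_restrict_of_subset (M : Matroid α) {R X : Set α} (h : X ⊆ R) :
    rk (M ↾ R) X = rk M X := by
  rw [rk_restrict, inter_eq_left.2 h]

/-- matroids with the same ground set are equal once bases of the first are bases of the
second, with same rank function bound -/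
lemma eq_of_rk_le {L : Matroid α} (hE : L.E = M.E) (hr : ∀ U ⊆ M.E, rk L U ≤ rk M U)
    (hB : ∀ B, M.IsBase B → L.IsBase B) : L = M := by
  refine Matroid.ext_isBase hE ?_
  intro B hBE
  constructor
  · intro h
    obtain ⟨B', hB'⟩ := M.exists_isBase
    have h1 := hB B' hB'
    have h2 : B.ncard = B'.ncard := by
      rw [← IsBase.rk_eq h, IsBase.rk_eq h1]
    rw [isBase_iff_indep_ncard]
    have h3 := hr B (hE ▸ hBE)
    rw [Indep.rk_eq h.indep] at h3
    constructor
    · rw [indep_iff_rk]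
      exact le_antisymm (rk_le_ncard _ _) h3
    · rw [h2, IsBase.rk_eq hB']
  · exact hB B

end Pool.Agent.Lib.MP_96faa3_co
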