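import Pool.Agent.Lib.MP_96faa3_co.Rado
import Pool.Agent.Lib.MP_96faa3_co.IsoLemmas
import Pool.Agent.Lib.MP_96faa3_co.Linking

/-! Representation of gammoids through systems of distinct representatives, and closure
properties of the class of gammoids. -/

namespace Pool.Agent.Lib.MP_96faa3_co

open Set Matroid

variable {α β : Type}

/-- the family `D` has a system of distinct representatives avoiding `Y` -/
def Sdr {V ι : Type} (D : ι → Set V) (Y : Set V) : Prop :=
  ∃ g : ι → V, Function.Injective g ∧ (∀ i, g i ∈ D i) ∧ ∀ i, g i ∉ Y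

/-- representation of a matroid as a restriction of the dual of a transversal matroid -/
def Rep {α : Type} (M : Matroid α) : Prop :=
  ∃ (V ι : Type) (_ : Finite V) (_ : Finite ι) (D : ι → Set V) (e : α → V),
    InjOn e M.E ∧ ∀ X ⊆ M.E, M.Indep X ↔ Sdr D (e '' X)

lemma rep_restrict {M : Matroid α} {R : Set α} (hR : R ⊆ M.E) (h : Rep M) : Rep (M ↾ R) := by
  obtain ⟨V, ι, hV, hι, D, e, he, h⟩ := h
  refine ⟨V, ι, hV, hι, D, e, he.mono hR, ?_⟩
  intro X hX
  have hX' : X ⊆ R := hX
  rw [restrict_indep_iff, ← h X (hX'.trans hR)]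
  exact ⟨fun h => h.1, fun h => ⟨h, hX'⟩⟩

lemma rep_contract_indep {M : Matroid α} {I : Set α} (hI : M.Indep I) (h : Rep M) :
    Rep (M ／ I) := by
  obtain ⟨V, ι, hV, hι, D, e, he, h⟩ := h
  refine ⟨V, ι, hV, hι, fun i => D i \ (e '' I), e, he.mono ?_, ?_⟩
  · rw [contract_ground]
    exact sdiff_subset
  · intro X hX
    rw [contract_ground] at hX
    have hXE : X ⊆ M.E := hX.trans sdiff_subset
    have hdis : Disjoint X I := by
      rw [Set.disjoint_left]
      intro x hx
      exact (hX hx).2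
    rw [hI.contract_indep_iff, h _ (union_subset hXE hI.subset_ground)]
    constructor
    · rintro ⟨-, g, hg, hgD, hgX⟩
      refine ⟨g, hg, fun i => ⟨hgD i, ?_⟩, fun i => ?_⟩
      · intro hcon
        exact hgX i (image_mono subset_union_right hcon)
      · intro hcon
        exact hgX i (image_mono subset_union_left hcon)
    · rintro ⟨g, hg, hgD, hgX⟩
      refine ⟨hdis, g, hg, fun i => (hgD i).1, fun i => ?_⟩
      rw [image_union]
      rintro (hcon | hcon)
      · exact hgX i hcon
      · exact (hgD i).2 hcon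

lemma rep_contract {M : Matroid α} {C : Set α} (hC : C ⊆ M.E) (h : Rep M) :
    Rep (M ／ C) := by
  obtain ⟨I, hI⟩ := M.exists_isBasis C hC
  rw [hI.contract_eq_contract_delete]
  rw [delete_eq_restrict]
  exact rep_restrict sdiff_subset (rep_contract_indep hI.indep h)

lemma rep_of_map {M : Matroid α} {f : α → β} (hf : InjOn f M.E) (h : Rep (M.map f hf)) :
    Rep M := by
  obtain ⟨V, ι, hV, hι, D, e, he, h⟩ := h
  refine ⟨V, ι, hV, hι, D, e ∘ f, ?_, ?_⟩
  · intro x hx y hy hxy
    exact hf hx hy (he ⟨x, hx, rfl⟩ ⟨y, hy, rfl⟩ hxy)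
  · intro X hX
    have h1 := h (f '' X) (image_mono hX)
    rw [image_comp, ← h1, map_image_indep_iff hX]

lemma rep_map [Finite β] {M : Matroid α} {f : α → β} (hf : InjOn f M.E) (h : Rep M) :
    Rep (M.map f hf) := by
  classical
  rcases isEmpty_or_nonempty α with hα | hα
  · refine ⟨β, Empty, inferInstance, inferInstance, fun i => i.elim, id, injOn_id _, ?_⟩
    intro X hX
    have hX0 : X = ∅ := by
      rw [eq_empty_iff_forall_notMem]
      intro x hx
      obtain ⟨a, -, -⟩ := hX hx
      exact hα.elim a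
    rw [hX0]
    constructor
    · intro _
      exact ⟨fun i => i.elim, fun i => i.elim, fun i => i.elim, fun i => i.elim⟩
    · intro _
      exact empty_indep _
  · obtain ⟨V, ι, hV, hι, D, e, he, h⟩ := h
    let e' : β → V := fun y => if hy : ∃ x, x ∈ M.E ∧ f x = y then e hy.choose else
      e (Classical.arbitrary α)
    have he' : ∀ x ∈ M.E, e' (f x) = e x := by
      intro x hx
      have hy : ∃ x', x' ∈ M.E ∧ f x' = f x := ⟨x, hx, rfl⟩
      simp only [e', dif_pos hy]
      congr 1
      exact hf hy.choose_spec.1 hx hy.choose_spec.2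
    refine ⟨V, ι, hV, hι, D, e', ?_, ?_⟩
    · rintro _ ⟨x, hx, rfl⟩ _ ⟨y, hy, rfl⟩ hxy
      rw [he' x hx, he' y hy] at hxy
      rw [he hx hy hxy]
    · intro Y hY
      obtain ⟨X, hX, rfl⟩ := (subset_image_iff.1 (show Y ⊆ f '' M.E from hY))
      rw [map_image_indep_iff hX, h X hX]
      have : e' '' (f '' X) = e '' X := by
        rw [← image_comp]
        exact image_congr (fun x hx => he' x (hX hx))
      rw [this]

/-- transversal matroid of a family of sets -/
noncomputable def tm {V ι : Type} [Finite V] [Finite ι] (D : ι → Set V) : Matroid V :=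
  bip (fun v i => v ∈ D i) (freeOn (univ : Set ι))

section tm

variable {V ι : Type} [Finite V] [Finite ι] {D : ι → Set V}

lemma tm_indep {X : Set V} :
    (tm D).Indep X ↔ ∃ g : X → ι, Function.Injective g ∧ ∀ x : X, (x : V) ∈ D (g x) := by
  unfold tm
  rw [bip_indep]
  constructor
  · rintro ⟨g, hg, h, -⟩
    exact ⟨g, hg, h⟩
  · rintro ⟨g, hg, h⟩
    exact ⟨g, hg, h, by simp⟩

@[simp] lemma tm_ground : (tm D).E = univ := rfl

lemma tm_indep_ncard_le {X : Set V} (h : (tm D).Indep X) : X.ncard ≤ Nat.card ι := by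
  obtain ⟨g, hg, -⟩ := tm_indep.1 h
  rw [← Nat.card_coe_set_eq]
  exact Nat.card_le_card_of_injective g hg

lemma tm_range_indep {g : ι → V} (hg : Function.Injective g) (hD : ∀ i, g i ∈ D i) :
    (tm D).Indep (range g) := by
  rw [tm_indep]
  refine ⟨(Equiv.ofInjective g hg).symm, Equiv.injective _, ?_⟩
  rintro ⟨_, ⟨i, rfl⟩⟩
  rw [Equiv.ofInjective_symm_apply]
  exact hD i

lemma tm_rank (h : Sdr D ∅) : rk (tm D) (tm D).E = Nat.card ι := by
  obtain ⟨g, hg, hD, -⟩ := h
  apply le_antisymm
  · obtain ⟨I, -, hI, hc, -⟩ := exists_indep_rk (tm D) (tm D).E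
    rw [← hc]
    exact tm_indep_ncard_le hI
  · have h1 := Indep.le_rk (tm_range_indep hg hD) (subset_univ (range g))
    have h2 : (range g).ncard = Nat.card ι := by
      rw [← image_univ, Set.ncard_image_of_injective _ hg, Set.ncard_univ]
    rw [h2] at h1
    exact h1

lemma tm_isBase_iff (h : Sdr D ∅) {B : Set V} :
    (tm D).IsBase B ↔ (tm D).Indep B ∧ B.ncard = Nat.card ι := by
  rw [isBase_iff_indep_ncard, tm_rank h]

lemma tm_dual_indep (h : Sdr D ∅) {Y : Set V} : (tm D)✶.Indep Y ↔ Sdr D Y := by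
  rw [dual_indep_iff_exists (subset_univ _)]
  constructor
  · rintro ⟨B, hB, hdis⟩
    rw [tm_isBase_iff h] at hB
    obtain ⟨hB1, hB2⟩ := hB
    obtain ⟨g, hg, hgD⟩ := tm_indep.1 hB1
    have hbij : Function.Bijective g := by
      rw [Nat.bijective_iff_injective_and_card]
      refine ⟨hg, ?_⟩
      rw [Nat.card_coe_set_eq, hB2]
    let e := Equiv.ofBijective g hbij
    refine ⟨fun i => (e.symm i : V), ?_, ?_, ?_⟩
    · intro i j hij
      exact e.symm.injective (Subtype.val_injective hij)
    · intro i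
      have := hgD (e.symm i)
      have h2 : g (e.symm i) = i := e.apply_symm_apply i
      rw [h2] at this
      exact this
    · intro i hi
      exact Set.disjoint_left.1 hdis hi (e.symm i).2
  · rintro ⟨g, hg, hgD, hgY⟩
    refine ⟨range g, ?_, ?_⟩
    · rw [tm_isBase_iff h]
      refine ⟨tm_range_indep hg hgD, ?_⟩
      rw [← image_univ, Set.ncard_image_of_injective _ hg, Set.ncard_univ]
    · rw [Set.disjoint_right]
      rintro _ ⟨i, rfl⟩
      exact hgY i

lemma rep_tm (D : ι → Set V) : Rep (tm D) := by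
  classical
  refine ⟨V ⊕ ι, V, inferInstance, inferInstance,
    fun v => {u | u = Sum.inl v ∨ ∃ i, v ∈ D i ∧ u = Sum.inr i}, Sum.inl,
    Sum.inl_injective.injOn, ?_⟩
  intro X _
  rw [tm_indep]
  constructor
  · rintro ⟨g, hg, hgD⟩
    refine ⟨fun v => if h : v ∈ X then Sum.inr (g ⟨v, h⟩) else Sum.inl v, ?_, ?_, ?_⟩
    · intro v w hvw
      by_cases hv : v ∈ X <;> by_cases hw : w ∈ X
      · simp only [hv, hw, dif_pos, Sum.inr.injEq] at hvw
        have := hg hvw
        simpa using this
      · simp [hv, hw] at hvw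
      · simp [hv, hw] at hvw
      · simpa [hv, hw] using hvw
    · intro v
      by_cases hv : v ∈ X
      · right
        exact ⟨g ⟨v, hv⟩, hgD _, by simp [hv]⟩
      · left
        simp [hv]
    · rintro v ⟨x, hx, hxv⟩
      by_cases hv : v ∈ X
      · simp [hv] at hxv
      · simp only [hv, dif_neg, not_false_eq_true, Sum.inl.injEq] at hxv
        exact hv (hxv ▸ hx)
  · rintro ⟨G, hG, hGD, hGX⟩
    have : ∀ v : X, ∃ i, (v : V) ∈ D i ∧ G v = Sum.inr i := by
      rintro ⟨v, hv⟩
      rcases hGD v with h | h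
      · exfalso
        exact hGX v ⟨v, hv, h.symm⟩
      · exact h
    choose g hg using this
    refine ⟨g, ?_, fun x => (hg x).1⟩
    intro x y hxy
    have h1 := (hg x).2
    have h2 := (hg y).2
    rw [hxy, ← h2] at h1
    exact Subtype.val_injective (hG h1)

end tm

lemma rep_dual [Finite α] {M : Matroid α} (h : Rep M) : Rep M✶ := by
  obtain ⟨V, ι, hV, hι, D, e, he, h⟩ := h
  have h0 : Sdr D ∅ := by
    have := (h ∅ (empty_subset _)).1 M.empty_indep
    simpa using this
  have hmap : M.map e he = (tm D)✶ ↾ (e '' M.E) := by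
    refine Matroid.ext_indep rfl ?_
    intro Y hY
    obtain ⟨X, hX, rfl⟩ := (subset_image_iff.1 (show Y ⊆ e '' M.E from hY))
    rw [map_image_indep_iff hX, h X hX, restrict_indep_iff, tm_dual_indep h0]
    exact ⟨fun h => ⟨h, image_mono hX⟩, fun h => h.1⟩
  have hmap2 : M✶.map e he = (tm D) ／ (univ \ (e '' M.E)) := by
    rw [← map_dual, hmap]
    have h1 : (tm D)✶ ↾ (e '' M.E) = (tm D)✶ ＼ (univ \ (e '' M.E)) := by
      rw [delete_eq_restrict]
      congr 1
      ext x
      simp
    rw [h1, dual_delete, dual_dual]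
  have h2 : Rep (M✶.map e he) := by
    rw [hmap2]
    exact rep_contract sdiff_subset (rep_tm D)
  exact rep_of_map he h2

lemma rep_sum {M : Matroid α} {N : Matroid β} (hM : Rep M) (hN : Rep N) : Rep (M.sum N) := by
  obtain ⟨V, ι, hV, hι, D, e, he, hM⟩ := hM
  obtain ⟨W, κ, hW, hκ, F, f, hf, hN⟩ := hN
  refine ⟨V ⊕ W, ι ⊕ κ, inferInstance, inferInstance,
    Sum.elim (fun i => Sum.inl '' D i) (fun j => Sum.inr '' F j), Sum.map e f, ?_, ?_⟩
  · rintro (x | x) hx (y | y) hy hxy
    · simp only [sum_ground, mem_union, mem_image, Sum.inl.injEq, exists_eq_right, reduceCtorEq,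
        and_false, exists_false, or_false] at hx hy
      simp only [Sum.map_inl, Sum.inl.injEq] at hxy
      rw [he hx hy hxy]
    · simp at hxy
    · simp at hxy
    · simp only [sum_ground, mem_union, mem_image, Sum.inr.injEq, exists_eq_right, reduceCtorEq,
        and_false, exists_false, false_or] at hx hy
      simp only [Sum.map_inr, Sum.inr.injEq] at hxy
      rw [hf hx hy hxy]
  · intro X hX
    have hX1 : Sum.inl ⁻¹' X ⊆ M.E := by
      intro x hx
      have := hX hx
      simpa using this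
    have hX2 : Sum.inr ⁻¹' X ⊆ N.E := by
      intro x hx
      have := hX hx
      simpa using this
    rw [sum_indep_iff, hM _ hX1, hN _ hX2]
    constructor
    · rintro ⟨⟨g, hg, hgD, hgX⟩, ⟨k, hk, hkF, hkX⟩⟩
      refine ⟨Sum.map g k, ?_, ?_, ?_⟩
      · exact Function.Injective.sumMap hg hk
      · rintro (i | j)
        · exact ⟨g i, hgD i, rfl⟩
        · exact ⟨k j, hkF j, rfl⟩
      · rintro (i | j)
        · rintro ⟨(x | x), hx, hxe⟩
          · simp only [Sum.map_inl, Sum.inl.injEq] at hxe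
            exact hgX i ⟨x, hx, hxe⟩
          · simp at hxe
        · rintro ⟨(x | x), hx, hxe⟩
          · simp at hxe
          · simp only [Sum.map_inr, Sum.inr.injEq] at hxe
            exact hkX j ⟨x, hx, hxe⟩
    · rintro ⟨G, hG, hGD, hGX⟩
      have h1 : ∀ i : ι, ∃ v, v ∈ D i ∧ G (Sum.inl i) = Sum.inl v := by
        intro i
        obtain ⟨v, hv, hv'⟩ := hGD (Sum.inl i)
        exact ⟨v, hv, hv'.symm⟩
      have h2 : ∀ j : κ, ∃ w, w ∈ F j ∧ G (Sum.inr j) = Sum.inr w := by
        intro i
        obtain ⟨v, hv, hv'⟩ := hGD (Sum.inr i)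
        exact ⟨v, hv, hv'.symm⟩
      choose g hg using h1
      choose k hk using h2
      constructor
      · refine ⟨g, ?_, fun i => (hg i).1, ?_⟩
        · intro i i' hii
          have := (hg i).2
          rw [hii, ← (hg i').2] at this
          exact Sum.inl_injective (hG this)
        · rintro i ⟨x, hx, hxi⟩
          refine hGX (Sum.inl i) ⟨Sum.inl x, hx, ?_⟩
          rw [(hg i).2, Sum.map_inl, hxi]
      · refine ⟨k, ?_, fun i => (hk i).1, ?_⟩
        · intro i i' hii
          have := (hk i).2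
          rw [hii, ← (hk i').2] at this
          exact Sum.inr_injective (hG this)
        · rintro i ⟨x, hx, hxi⟩
          refine hGX (Sum.inr i) ⟨Sum.inr x, hx, ?_⟩
          rw [(hk i).2, Sum.map_inr, hxi]

lemma exists_inj_of_le_ncard {V : Type} [Finite V] {S : Set V} {j : ℕ} (h : j ≤ S.ncard) :
    ∃ g : Fin j → V, Function.Injective g ∧ ∀ i, g i ∈ S := by
  obtain ⟨T, hTS, hT⟩ := Set.exists_subset_card_eq h
  have e : T ≃ Fin j := Finite.equivFinOfCardEq (by rw [Nat.card_coe_set_eq, hT])
  exact ⟨fun i => (e.symm i : V), fun a b hab => e.symm.injective (Subtype.val_injective hab),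
    fun i => hTS (e.symm i).2⟩

lemma rep_truncate {M N : Matroid α} (k : ℕ) (hE : N.E = M.E)
    (hN : ∀ I, N.Indep I ↔ M.Indep I ∧ I.ncard ≤ k) (h : Rep M) : Rep N := by
  obtain ⟨V, ι, hV, hι, D, e, he, h⟩ := h
  refine ⟨V, ι ⊕ Fin (Nat.card V - Nat.card ι - k), hV, inferInstance,
    Sum.elim D (fun _ => univ), e, hE ▸ he, ?_⟩
  intro X hX
  rw [hE] at hX
  have hXc : (e '' X).ncard = X.ncard := (he.mono hX).ncard_image
  rw [hN, h X hX]
  constructor
  · rintro ⟨⟨g, hg, hgD, hgX⟩, hk⟩
    have h1 : (range g ∪ e '' X).ncard = Nat.card ι + X.ncard := by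
      rw [Set.ncard_union_eq _ (Set.toFinite _) (Set.toFinite _), hXc]
      · congr 1
        rw [← image_univ, Set.ncard_image_of_injective _ hg, Set.ncard_univ]
      · rw [Set.disjoint_left]
        rintro _ ⟨i, rfl⟩
        exact hgX i
    have h2 := Set.ncard_add_ncard_compl (range g ∪ e '' X) (Set.toFinite _) (Set.toFinite _)
    have h3 : Nat.card V - Nat.card ι - k ≤ (range g ∪ e '' X)ᶜ.ncard := by omega
    obtain ⟨l, hl, hlS⟩ := exists_inj_of_le_ncard h3
    refine ⟨Sum.elim g l, ?_, ?_, ?_⟩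
    · rw [Sum.elim_injective]
      refine ⟨hg, hl, ?_⟩
      intro i j hij
      exact hlS j (Or.inl ⟨i, hij⟩)
    · rintro (i | i)
      · exact hgD i
      · exact mem_univ _
    · rintro (i | i)
      · exact hgX i
      · intro hcon
        exact hlS i (Or.inr hcon)
  · rintro ⟨G, hG, hGD, hGX⟩
    refine ⟨⟨G ∘ Sum.inl, hG.comp Sum.inl_injective, fun i => hGD (Sum.inl i),
      fun i => hGX (Sum.inl i)⟩, ?_⟩
    have h1 : (range G ∪ e '' X).ncard =
        Nat.card ι + (Nat.card V - Nat.card ι - k) + X.ncard := by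
      rw [Set.ncard_union_eq _ (Set.toFinite _) (Set.toFinite _), hXc]
      · congr 1
        rw [← image_univ, Set.ncard_image_of_injective _ hG, Set.ncard_univ, Nat.card_sum,
          Nat.card_fin]
      · rw [Set.disjoint_left]
        rintro _ ⟨i, rfl⟩
        exact hGX i
    have h2 := Set.ncard_add_ncard_compl (range G ∪ e '' X) (Set.toFinite _) (Set.toFinite _)
    omega

lemma rep_bip [Finite α] [Finite β] (Δ : α → β → Prop) {M : Matroid β} (h : Rep M) :
    Rep (bip Δ M) := by
  classical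
  obtain ⟨V, ι, hV, hι, D, e, he, h⟩ := h
  refine ⟨α ⊕ V, α ⊕ ι, inferInstance, inferInstance,
    Sum.elim (fun a => {u | u = Sum.inl a ∨ ∃ b ∈ M.E, Δ a b ∧ u = Sum.inr (e b)})
      (fun i => Sum.inr '' D i), Sum.inl, Sum.inl_injective.injOn, ?_⟩
  intro X _
  rw [bip_indep]
  constructor
  · rintro ⟨g, hg, hgΔ, hgI⟩
    have hgE : ∀ x, g x ∈ M.E := fun x => hgI.subset_ground (mem_range_self x)
    obtain ⟨l, hl, hlD, hlX⟩ := (h _ hgI.subset_ground).1 hgI
    refine ⟨Sum.elim (fun a => if h : a ∈ X then Sum.inr (e (g ⟨a, h⟩)) else Sum.inl a)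
      (fun i => Sum.inr (l i)), ?_, ?_, ?_⟩
    · rw [Sum.elim_injective]
      refine ⟨?_, ?_, ?_⟩
      · intro v w hvw
        by_cases hv : v ∈ X <;> by_cases hw : w ∈ X
        · simp only [hv, hw, dif_pos, Sum.inr.injEq] at hvw
          have := hg (he (hgE _) (hgE _) hvw)
          simpa using this
        · simp [hv, hw] at hvw
        · simp [hv, hw] at hvw
        · simpa [hv, hw] using hvw
      · intro i j hij
        exact hl (Sum.inr_injective hij)
      · intro a i hai
        by_cases ha : a ∈ X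
        · simp only [ha, dif_pos, Sum.inr.injEq] at hai
          exact hlX i ⟨g ⟨a, ha⟩, mem_range_self _, hai⟩
        · simp [ha] at hai
    · rintro (a | i)
      · by_cases ha : a ∈ X
        · right
          exact ⟨g ⟨a, ha⟩, hgE _, hgΔ ⟨a, ha⟩, by simp [ha]⟩
        · left
          simp [ha]
      · exact ⟨l i, hlD i, rfl⟩
    · rintro (a | i)
      · rintro ⟨x, hx, hxv⟩
        by_cases ha : a ∈ X
        · simp [ha] at hxv
        · simp only [Sum.elim_inl, ha, dif_neg, not_false_eq_true, Sum.inl.injEq] at hxv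
          exact ha (hxv ▸ hx)
      · rintro ⟨x, hx, hxv⟩
        simp at hxv
  · rintro ⟨G, hG, hGD, hGX⟩
    have h1 : ∀ a : X, ∃ b, b ∈ M.E ∧ Δ a b ∧ G (Sum.inl a) = Sum.inr (e b) := by
      rintro ⟨a, ha⟩
      rcases hGD (Sum.inl a) with h | h
      · exact absurd ⟨a, ha, h.symm⟩ (hGX (Sum.inl a))
      · obtain ⟨b, hb1, hb2, hb3⟩ := h
        exact ⟨b, hb1, hb2, hb3⟩
    have h2 : ∀ i : ι, ∃ v, v ∈ D i ∧ G (Sum.inr i) = Sum.inr v := by
      intro i
      obtain ⟨v, hv, hv'⟩ := hGD (Sum.inr i)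
      exact ⟨v, hv, hv'.symm⟩
    choose g hg using h1
    choose l hl using h2
    refine ⟨g, ?_, fun x => (hg x).2.1, ?_⟩
    · intro x y hxy
      have := (hg x).2.2
      rw [hxy, ← (hg y).2.2] at this
      exact Subtype.val_injective (Sum.inl_injective (hG this))
    · rw [h _ (by rintro _ ⟨x, rfl⟩; exact (hg x).1)]
      refine ⟨l, ?_, fun i => (hl i).1, ?_⟩
      · intro i i' hii
        have := (hl i).2
        rw [hii, ← (hl i').2] at this
        exact Sum.inr_injective (hG this)
      · rintro i ⟨_, ⟨x, rfl⟩, hx⟩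
        have h3 : G (Sum.inr i) = G (Sum.inl (x : α)) := by
          rw [(hl i).2, (hg x).2.2, hx]
        have := hG h3
        simp at this

/-- gammoids are represented -/
lemma rep_iso [Finite α] [Finite β] {M : Matroid α} {N : Matroid β} (h : Iso M N)
    (hM : Rep M) : Rep N := by
  refine iso_transport (fun M => Rep M) ?_ ?_ h hM
  · intro γ δ _ _ K f hf hK
    exact rep_map hf.injOn hK
  · intro γ δ _ _ K f hf hK
    exact rep_of_map hf.injOn hK

lemma rep_of_isGammoid [Finite α] {M : Matroid α} (h : IsGammoid M) : Rep M := by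
  obtain ⟨V, hV, Γ, S, A, N, ⟨hA, hN⟩, hiso⟩ := h
  refine rep_iso hiso ?_
  classical
  refine ⟨V, {t : V // t ∉ S}, hV, inferInstance, fun t => {u | u = t ∨ Γ t u}, id,
    injOn_id _, ?_⟩
  intro X hX
  rw [hA] at hX
  rw [hN, image_id]
  constructor
  · rintro ⟨-, J, hJ, hl⟩
    rw [freeOn_indep_iff] at hJ
    obtain ⟨f, hf, hfX⟩ := matched_of_linked hJ hl
    exact ⟨fun t => f t, fun a b hab => Subtype.val_injective (hf a.2 b.2 hab),
      fun t => (hfX t t.2).1, fun t => (hfX t t.2).2⟩
  · rintro ⟨g, hg, hgD, hgX⟩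
    have hm : Matched Γ X S := by
      refine ⟨fun t => if h : t ∉ S then g ⟨t, h⟩ else t, ?_, ?_⟩
      · intro a ha b hb hab
        have ha' : a ∉ S := ha
        have hb' : b ∉ S := hb
        simp only [ha', hb', not_false_eq_true, dif_pos] at hab
        have := hg hab
        simpa using this
      · intro t ht
        simp only [ht, not_false_eq_true, dif_pos]
        exact ⟨hgD ⟨t, ht⟩, hgX _⟩
    obtain ⟨J, hJ, hl⟩ := linked_of_matched hm
    exact ⟨hX, J, by rwa [freeOn_indep_iff], hl⟩

lemma isGammoid_of_rep [Finite α] {M : Matroid α} (h : Rep M) : IsGammoid M := by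
  classical
  obtain ⟨V, ι, hV, hι, D, e, he, h⟩ := h
  have h0 : Sdr D ∅ := by
    have := (h ∅ (empty_subset _)).1 M.empty_indep
    simpa using this
  obtain ⟨g, hg, hgD, -⟩ := h0
  refine ⟨V, hV, fun t u => ∃ i, t = g i ∧ u ∈ D i, (range g)ᶜ, e '' M.E, M.map e he,
    ⟨rfl, ?_⟩, ?_⟩
  · intro Y
    have key : ∀ Y, Matched (fun t u => ∃ i, t = g i ∧ u ∈ D i) Y (range g)ᶜ ↔ Sdr D Y := by
      intro Y
      constructor
      · rintro ⟨f, hf, hfY⟩
        rw [compl_compl] at hf
        refine ⟨fun i => f (g i), ?_, ?_, ?_⟩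
        · intro i j hij
          exact hg (hf (mem_range_self i) (mem_range_self j) hij)
        · intro i
          show f (g i) ∈ D i
          rcases (hfY (g i) (by simp)).1 with h1 | ⟨j, hj, hj'⟩
          · rw [h1]
            exact hgD i
          · have := hg hj
            subst this
            exact hj'
        · intro i
          exact (hfY (g i) (by simp)).2
      · rintro ⟨k, hk, hkD, hkY⟩
        let e2 := Equiv.ofInjective g hg
        refine ⟨fun t => if h : t ∈ range g then k (e2.symm ⟨t, h⟩) else t, ?_, ?_⟩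
        · intro a ha b hb hab
          rw [compl_compl] at ha hb
          simp only [ha, hb, dif_pos] at hab
          have := e2.symm.injective (hk hab)
          simpa using this
        · intro t ht
          rw [notMem_compl_iff] at ht
          simp only [ht, dif_pos]
          obtain ⟨i, rfl⟩ := ht
          have : e2.symm ⟨g i, mem_range_self i⟩ = i := Equiv.ofInjective_symm_apply hg i
          rw [this]
          exact ⟨Or.inr ⟨i, rfl, hkD i⟩, hkY i⟩
    have key2 : (∃ J, (freeOn (range g)ᶜ).Indep J ∧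
        LinkedOnto (fun t u => ∃ i, t = g i ∧ u ∈ D i) Y J) ↔ Sdr D Y := by
      rw [← key]
      constructor
      · rintro ⟨J, hJ, hl⟩
        rw [freeOn_indep_iff] at hJ
        exact matched_of_linked hJ hl
      · intro hm
        obtain ⟨J, hJ, hl⟩ := linked_of_matched hm
        exact ⟨J, by rwa [freeOn_indep_iff], hl⟩
    rw [key2]
    constructor
    · intro hY
      have hYE : Y ⊆ e '' M.E := hY.subset_ground
      obtain ⟨X, hX, rfl⟩ := (subset_image_iff.1 hYE)
      rw [map_image_indep_iff hX, h X hX] at hY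
      exact ⟨hYE, hY⟩
    · rintro ⟨hYE, hY⟩
      obtain ⟨X, hX, rfl⟩ := (subset_image_iff.1 hYE)
      rw [map_image_indep_iff hX, h X hX]
      exact hY
  · -- isomorphism is symmetric enough
    refine iso_symm (iso_map M e he)

end Pool.Agent.Lib.MP_96faa3_co
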