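import Pool.Agent.Lib.MP_96faa3_co.QClass

/-! Gammoids are strongly base-orderable; strong base-orderability and base-orderability are
invariant under isomorphism. -/

namespace Pool.Agent.Lib.MP_96faa3_co

open Set Matroid

/-- combinatorial switching lemma -/
lemma switch {ι T : Type} : ∀ (n : ℕ) (s : Set ι), s.Finite → s.ncard = n →
    ∀ b₁ b₂ : ι → T, InjOn b₁ s → InjOn b₂ s →
    ∃ φ : T → T, BijOn φ (b₁ '' s) (b₂ '' s) ∧ ∀ X ⊆ b₁ '' s, ∃ c : ι → T,
      InjOn c s ∧ (∀ i ∈ s, c i = b₁ i ∨ c i = b₂ i) ∧ c '' s = (b₁ '' s \ X) ∪ φ '' X := by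
  classical
  intro n
  induction n with
  | zero =>
    intro s hs hc b₁ b₂ _ _
    have : s = ∅ := (Set.ncard_eq_zero hs).1 hc
    subst this
    refine ⟨id, ?_, ?_⟩
    · simp
    · intro X hX
      have : X = ∅ := by simpa using hX
      subst this
      exact ⟨b₁, by simp, by simp, by simp⟩
  | succ n ih =>
    intro s hs hc b₁ b₂ h₁ h₂
    by_cases hdis : Disjoint (b₁ '' s) (b₂ '' s)
    · -- disjoint images
      let φ : T → T := fun x => if h : ∃ i, i ∈ s ∧ b₁ i = x then b₂ h.choose else x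
      have hφ : ∀ i ∈ s, φ (b₁ i) = b₂ i := by
        intro i hi
        have h : ∃ j, j ∈ s ∧ b₁ j = b₁ i := ⟨i, hi, rfl⟩
        simp only [φ, dif_pos h]
        rw [h₁ h.choose_spec.1 hi h.choose_spec.2]
      refine ⟨φ, ⟨?_, ?_, ?_⟩, ?_⟩
      · rintro _ ⟨i, hi, rfl⟩
        rw [hφ i hi]
        exact ⟨i, hi, rfl⟩
      · rintro _ ⟨i, hi, rfl⟩ _ ⟨j, hj, rfl⟩ hij
        rw [hφ i hi, hφ j hj] at hij
        rw [h₂ hi hj hij]
      · rintro _ ⟨i, hi, rfl⟩
        exact ⟨b₁ i, ⟨i, hi, rfl⟩, hφ i hi⟩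
      · intro X hX
        refine ⟨fun i => if b₁ i ∈ X then b₂ i else b₁ i, ?_, ?_, ?_⟩
        · intro i hi j hj hij
          by_cases hiX : b₁ i ∈ X <;> by_cases hjX : b₁ j ∈ X
          · simp only [hiX, hjX, if_true] at hij
            exact h₂ hi hj hij
          · simp only [hiX, hjX, if_true, if_false] at hij
            exact absurd ⟨i, hi, hij⟩ (Set.disjoint_left.1 hdis ⟨j, hj, rfl⟩)
          · simp only [hiX, hjX, if_true, if_false] at hij
            exact absurd ⟨j, hj, hij.symm⟩ (Set.disjoint_left.1 hdis ⟨i, hi, rfl⟩)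
          · simp only [hiX, hjX, if_false] at hij
            exact h₁ hi hj hij
        · intro i _
          by_cases hiX : b₁ i ∈ X
          · right; simp [hiX]
          · left; simp [hiX]
        · ext y
          constructor
          · rintro ⟨i, hi, rfl⟩
            by_cases hiX : b₁ i ∈ X
            · right
              simp only [hiX, if_true]
              exact ⟨b₁ i, hiX, hφ i hi⟩
            · left
              simp only [hiX, if_false]
              exact ⟨⟨i, hi, rfl⟩, hiX⟩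
          · rintro (⟨⟨i, hi, rfl⟩, hiX⟩ | ⟨x, hx, rfl⟩)
            · exact ⟨i, hi, by simp [hiX]⟩
            · obtain ⟨i, hi, rfl⟩ := hX hx
              exact ⟨i, hi, by simp [hx, hφ i hi]⟩
    · rw [Set.not_disjoint_iff] at hdis
      obtain ⟨t, ⟨i, hi, hit⟩, ⟨j, hj, hjt⟩⟩ := hdis
      -- remove index i and modify b₂
      let s' : Set ι := s \ {i}
      have hs' : s'.Finite := hs.subset sdiff_subset
      have hc' : s'.ncard = n := by
        have := Set.ncard_sdiff_singleton_add_one hi hs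
        show (s \ {i}).ncard = n
        omega
      have hss : s = insert i s' := by
        rw [insert_sdiff_singleton, insert_eq_of_mem hi]
      let b₂' : ι → T := fun k => if k = j then b₂ i else b₂ k
      have hb₂' : InjOn b₂' s' := by
        intro k hk l hl hkl
        by_cases hkj : k = j <;> by_cases hlj : l = j
        · rw [hkj, hlj]
        · simp only [b₂', hkj, hlj, if_true, if_false] at hkl
          exact absurd (h₂ hi hl.1 hkl).symm hl.2
        · simp only [b₂', hkj, hlj, if_true, if_false] at hkl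
          exact absurd (h₂ hk.1 hi hkl) hk.2
        · simp only [b₂', hkj, hlj, if_false] at hkl
          exact h₂ hk.1 hl.1 hkl
      obtain ⟨φ', hφ', hex'⟩ := ih s' hs' hc' b₁ b₂' (h₁.mono sdiff_subset) hb₂'
      have e1 : b₁ '' s = insert t (b₁ '' s') := by
        conv_lhs => rw [hss]
        rw [image_insert_eq, hit]
      have e1' : t ∉ b₁ '' s' := by
        rintro ⟨k, hk, hkt⟩
        exact hk.2 (h₁ hk.1 hi (hkt.trans hit.symm))
      have e2 : b₂ '' s = insert t (b₂' '' s') := by
        ext y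
        constructor
        · rintro ⟨k, hk, rfl⟩
          by_cases hkj : k = j
          · left
            rw [hkj, hjt]
          · by_cases hki : k = i
            · subst hki
              right
              exact ⟨j, ⟨hj, fun h => hkj h.symm⟩, by simp [b₂']⟩
            · right
              exact ⟨k, ⟨hk, hki⟩, by simp [b₂', hkj]⟩
        · rintro (rfl | ⟨k, hk, rfl⟩)
          · exact ⟨j, hj, hjt⟩
          · by_cases hkj : k = j
            · simp only [b₂', hkj, if_true]
              exact ⟨i, hi, rfl⟩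
            · simp only [b₂', hkj, if_false]
              exact ⟨k, hk.1, rfl⟩
      have e2' : t ∉ b₂' '' s' := by
        rintro ⟨k, hk, hkt⟩
        by_cases hkj : k = j
        · simp only [b₂', hkj, if_true] at hkt
          have : i = j := h₂ hi hj (hkt.trans hjt.symm)
          exact hk.2 (hkj.trans this.symm)
        · simp only [b₂', hkj, if_false] at hkt
          exact hkj (h₂ hk.1 hj (hkt.trans hjt.symm))
      let φ : T → T := fun x => if x = t then t else φ' x
      have hφt : φ t = t := by simp [φ]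
      have hφn : ∀ x, x ≠ t → φ x = φ' x := fun x hx => by simp [φ, hx]
      have hne1 : ∀ x ∈ b₁ '' s', x ≠ t := fun x hx h => e1' (h ▸ hx)
      refine ⟨φ, ⟨?_, ?_, ?_⟩, ?_⟩
      · rw [e1, e2]
        rintro x (rfl | hx)
        · rw [hφt]; exact mem_insert _ _
        · rw [hφn x (hne1 x hx)]
          exact mem_insert_of_mem _ (hφ'.mapsTo hx)
      · rw [e1]
        rintro x (rfl | hx) y (rfl | hy) hxy
        · rfl
        · rw [hφt, hφn y (hne1 y hy)] at hxy
          exact absurd (hxy ▸ hφ'.mapsTo hy) e2'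
        · rw [hφt, hφn x (hne1 x hx)] at hxy
          exact absurd (hxy ▸ hφ'.mapsTo hx) e2'
        · rw [hφn x (hne1 x hx), hφn y (hne1 y hy)] at hxy
          exact hφ'.injOn hx hy hxy
      · rw [e1, e2]
        rintro y (rfl | hy)
        · exact ⟨y, mem_insert _ _, hφt⟩
        · obtain ⟨x, hx, rfl⟩ := hφ'.surjOn hy
          exact ⟨x, mem_insert_of_mem _ hx, hφn x (hne1 x hx)⟩
      · intro X hX
        rw [e1] at hX
        have hX' : X \ {t} ⊆ b₁ '' s' := by
          rintro x ⟨hx, hxt⟩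
          rcases hX hx with h | h
          · exact absurd h hxt
          · exact h
        obtain ⟨c', hc1, hc2, hc3⟩ := hex' _ hX'
        have htc : t ∉ c' '' s' := by
          rintro ⟨k, hk, hkt⟩
          rcases hc2 k hk with h | h
          · exact e1' ⟨k, hk, h.symm.trans hkt⟩
          · exact e2' ⟨k, hk, h.symm.trans hkt⟩
        -- the new choice function
        have hexc : ∃ c : ι → T, (∀ k ∈ s, c k = b₁ k ∨ c k = b₂ k) ∧
            c '' s = insert t (c' '' s') := by
          by_cases hij : i = j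
          · refine ⟨fun k => if k = i then t else c' k, ?_, ?_⟩
            · intro k hk
              by_cases hki : k = i
              · left; simp [hki, hit]
              · have hks : k ∈ s' := ⟨hk, hki⟩
                have hkj : k ≠ j := fun h => hki (h.trans hij.symm)
                rcases hc2 k hks with h | h
                · left; simp [hki, h]
                · right; simp [hki, h, b₂', hkj]
            · conv_lhs => rw [hss]
              rw [image_insert_eq]
              simp only [if_true]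
              congr 1
              apply image_congr
              intro k hk
              have : k ≠ i := hk.2
              simp [this]
          · have hjs : j ∈ s' := ⟨hj, fun h => hij h.symm⟩
            by_cases hcj : c' j = b₁ j
            · refine ⟨fun k => if k = i then t else c' k, ?_, ?_⟩
              · intro k hk
                by_cases hki : k = i
                · left; simp [hki, hit]
                · have hks : k ∈ s' := ⟨hk, hki⟩
                  by_cases hkj : k = j
                  · left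
                    simp only [hki, if_false]
                    rw [hkj, hcj]
                  · rcases hc2 k hks with h | h
                    · left; simp [hki, h]
                    · right; simp [hki, h, b₂', hkj]
              · conv_lhs => rw [hss]
                rw [image_insert_eq]
                simp only [if_true]
                congr 1
                apply image_congr
                intro k hk
                have : k ≠ i := hk.2
                simp [this]
            · have hcj' : c' j = b₂ i := by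
                rcases hc2 j hjs with h | h
                · exact absurd h hcj
                · rw [h]; simp [b₂']
              refine ⟨fun k => if k = j then t else if k = i then c' j else c' k, ?_, ?_⟩
              · intro k hk
                by_cases hkj : k = j
                · right; simp [hkj, hjt]
                · by_cases hki : k = i
                  · right
                    simp only [hki, if_neg hij, if_true]
                    exact hcj'
                  · have hks : k ∈ s' := ⟨hk, hki⟩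
                    rcases hc2 k hks with h | h
                    · left; simp [hki, hkj, h]
                    · right; simp [hki, h, b₂', hkj]
              · ext y
                constructor
                · rintro ⟨k, hk, rfl⟩
                  by_cases hkj : k = j
                  · left; simp [hkj]
                  · by_cases hki : k = i
                    · right
                      simp only [hki, if_neg hij, if_true]
                      exact ⟨j, hjs, rfl⟩
                    · right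
                      simp only [hkj, hki, if_false]
                      exact ⟨k, ⟨hk, hki⟩, rfl⟩
                · rintro (rfl | ⟨k, hk, rfl⟩)
                  · exact ⟨j, hj, by simp⟩
                  · by_cases hkj : k = j
                    · refine ⟨i, hi, ?_⟩
                      simp [hij, hkj]
                    · refine ⟨k, hk.1, ?_⟩
                      have : k ≠ i := hk.2
                      simp [hkj, this]
        obtain ⟨c, hcc, hcs⟩ := hexc
        refine ⟨c, ?_, hcc, ?_⟩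
        · rw [← Set.ncard_image_iff hs, hcs, Set.ncard_insert_of_notMem htc (hs'.image _),
            hc1.ncard_image, hc', hc]
        · rw [hcs, hc3, e1]
          by_cases htX : t ∈ X
          · have h1 : insert t (b₁ '' s') \ X = b₁ '' s' \ (X \ {t}) := by
              ext y
              constructor
              · rintro ⟨hy, hyX⟩
                rcases hy with rfl | hy
                · exact absurd htX hyX
                · exact ⟨hy, fun h => hyX h.1⟩
              · rintro ⟨hy, hyX⟩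
                exact ⟨Or.inr hy, fun h => hyX ⟨h, hne1 y hy⟩⟩
            have h2 : φ '' X = insert t (φ' '' (X \ {t})) := by
              have h3 : X = insert t (X \ {t}) := by
                rw [insert_sdiff_singleton, insert_eq_of_mem htX]
              conv_lhs => rw [h3]
              rw [image_insert_eq, hφt]
              congr 1
              apply image_congr
              intro x hx
              exact hφn x hx.2
            rw [h1, h2, union_insert]
          · have h1 : X \ {t} = X := sdiff_singleton_eq_self htX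
            have h2 : φ '' X = φ' '' X := by
              apply image_congr
              intro x hx
              exact hφn x (fun h => htX (h ▸ hx))
            rw [h1, h2]
            have h3 : insert t (b₁ '' s') \ X = insert t (b₁ '' s' \ X) := by
              ext y
              constructor
              · rintro ⟨hy | hy, hyX⟩
                · exact Or.inl hy
                · exact Or.inr ⟨hy, hyX⟩
              · rintro (rfl | ⟨hy, hyX⟩)
                · exact ⟨Or.inl rfl, htX⟩
                · exact ⟨Or.inr hy, hyX⟩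
            rw [h3, insert_union]

variable {α β : Type}

lemma sbo_tm {V ι : Type} [Finite V] [Finite ι] {D : ι → Set V} (h : Sdr D ∅) :
    IsStronglyBaseOrderable (tm D) := by
  intro B₁ B₂ hB₁ hB₂
  have key : ∀ B, (tm D).IsBase B → ∃ b : ι → V, Function.Injective b ∧ (∀ i, b i ∈ D i) ∧
      range b = B := by
    intro B hB
    rw [tm_isBase_iff h] at hB
    obtain ⟨hB1, hB2⟩ := hB
    obtain ⟨g, hg, hgD⟩ := tm_indep.1 hB1
    have hbij : Function.Bijective g := by
      rw [Nat.bijective_iff_injective_and_card]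
      refine ⟨hg, ?_⟩
      rw [Nat.card_coe_set_eq, hB2]
    let e := Equiv.ofBijective g hbij
    refine ⟨fun i => (e.symm i : V), ?_, ?_, ?_⟩
    · intro i j hij
      exact e.symm.injective (Subtype.val_injective hij)
    · intro i
      have := hgD (e.symm i)
      have h2 : g (e.symm i) = i := e.apply_symm_apply i
      rw [h2] at this
      exact this
    · ext x
      constructor
      · rintro ⟨i, rfl⟩
        exact (e.symm i).2
      · intro hx
        exact ⟨e ⟨x, hx⟩, by simp⟩
  obtain ⟨b₁, hb₁, hD₁, rfl⟩ := key B₁ hB₁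
  obtain ⟨b₂, hb₂, hD₂, rfl⟩ := key B₂ hB₂
  obtain ⟨φ, hφ, hex⟩ := switch _ (univ : Set ι) (Set.toFinite _) rfl b₁ b₂ hb₁.injOn hb₂.injOn
  rw [image_univ, image_univ] at hφ
  refine ⟨φ, hφ, ?_⟩
  intro X hX
  rw [image_univ] at hex
  obtain ⟨c, hc, hcb, hcr⟩ := hex X hX
  rw [image_univ] at hcr
  rw [← hcr, tm_isBase_iff h]
  rw [injOn_univ] at hc
  refine ⟨tm_range_indep hc ?_, ?_⟩
  · intro i
    rcases hcb i (mem_univ _) with h | h
    · rw [h]; exact hD₁ i
    · rw [h]; exact hD₂ i
  · rw [← image_univ, Set.ncard_image_of_injective _ hc, Set.ncard_univ]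

lemma sbo_fix [Finite α] {M : Matroid α} {B₁ B₂ : Set α} (hB₁ : M.IsBase B₁)
    {φ : α → α} (hφ : BijOn φ B₁ B₂)
    (hex : ∀ X ⊆ B₁, M.IsBase ((B₁ \ X) ∪ φ '' X)) : ∀ x ∈ B₁ ∩ B₂, φ x = x := by
  rintro x ⟨hx1, hx2⟩
  obtain ⟨y, hy, rfl⟩ := hφ.surjOn hx2
  by_cases h : y = φ y
  · rw [← h, ← h]
  · exfalso
    have h1 := hex {y} (singleton_subset_iff.2 hy)
    rw [image_singleton] at h1
    have h2 : (B₁ \ {y}) ∪ {φ y} = B₁ \ {y} := by
      rw [union_eq_left, singleton_subset_iff]
      exact ⟨hx1, fun h' => h h'.symm⟩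
    rw [h2] at h1
    have h3 := h1.eq_of_subset_isBase hB₁ sdiff_subset
    have h4 : y ∈ B₁ \ {y} := by
      rw [h3]
      exact hy
    exact h4.2 rfl

lemma sbo_dual [Finite α] {M : Matroid α} (h : IsStronglyBaseOrderable M) :
    IsStronglyBaseOrderable M✶ := by
  classical
  intro B₁ B₂ hB₁ hB₂
  rw [dual_isBase_iff'] at hB₁ hB₂
  obtain ⟨hB₁, hE₁⟩ := hB₁
  obtain ⟨hB₂, hE₂⟩ := hB₂
  obtain ⟨φ, hφ, hex⟩ := h _ _ hB₁ hB₂
  have hfix := sbo_fix hB₁ hφ hex
  -- φ maps B₂ \ B₁ onto B₁ \ B₂
  have hd1 : ∀ x ∈ B₂ \ B₁, φ x ∈ B₁ \ B₂ := by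
    rintro x ⟨hx, hxn⟩
    have h1 := hφ.mapsTo (show x ∈ M.E \ B₁ from ⟨hE₂ hx, hxn⟩)
    refine ⟨?_, h1.2⟩
    by_contra hcon
    have h2 : φ x ∈ (M.E \ B₁) ∩ (M.E \ B₂) := ⟨⟨h1.1, hcon⟩, h1⟩
    have h3 := hfix _ h2
    have h4 := hφ.injOn ⟨h1.1, hcon⟩ ⟨hE₂ hx, hxn⟩ h3
    rw [h4] at h1
    exact h1.2 hx
  have hd2 : ∀ y ∈ B₁ \ B₂, ∃ x ∈ B₂ \ B₁, φ x = y := by
    rintro y ⟨hy, hyn⟩
    obtain ⟨x, hx, rfl⟩ := hφ.surjOn (show y ∈ M.E \ B₂ from ⟨hE₁ hy, hyn⟩)
    refine ⟨x, ⟨?_, hx.2⟩, rfl⟩
    by_contra hcon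
    have h3 := hfix x ⟨hx, ⟨hx.1, hcon⟩⟩
    rw [h3] at hy
    exact hx.2 hy
  let ψ : α → α := fun y => if h : ∃ x, x ∈ B₂ \ B₁ ∧ φ x = y then h.choose else y
  have hψ1 : ∀ y ∈ B₁ \ B₂, ψ y ∈ B₂ \ B₁ ∧ φ (ψ y) = y := by
    intro y hy
    have h : ∃ x, x ∈ B₂ \ B₁ ∧ φ x = y := by
      obtain ⟨x, hx, hxy⟩ := hd2 y hy
      exact ⟨x, hx, hxy⟩
    simp only [ψ, dif_pos h]
    exact h.choose_spec
  have hψ2 : ∀ y ∈ B₁ ∩ B₂, ψ y = y := by
    intro y hy
    have h : ¬ ∃ x, x ∈ B₂ \ B₁ ∧ φ x = y := by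
      rintro ⟨x, hx, rfl⟩
      exact (hd1 x hx).2 hy.2
    simp only [ψ, dif_neg h]
  refine ⟨ψ, ⟨?_, ?_, ?_⟩, ?_⟩
  · intro y hy
    by_cases hy2 : y ∈ B₂
    · rw [hψ2 y ⟨hy, hy2⟩]; exact hy2
    · exact (hψ1 y ⟨hy, hy2⟩).1.1
  · intro y hy z hz hyz
    by_cases hy2 : y ∈ B₂ <;> by_cases hz2 : z ∈ B₂
    · rwa [hψ2 y ⟨hy, hy2⟩, hψ2 z ⟨hz, hz2⟩] at hyz
    · rw [hψ2 y ⟨hy, hy2⟩] at hyz
      have := (hψ1 z ⟨hz, hz2⟩).1.2
      rw [← hyz] at this
      exact absurd hy this
    · rw [hψ2 z ⟨hz, hz2⟩] at hyz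
      have := (hψ1 y ⟨hy, hy2⟩).1.2
      rw [hyz] at this
      exact absurd hz this
    · rw [← (hψ1 y ⟨hy, hy2⟩).2, hyz, (hψ1 z ⟨hz, hz2⟩).2]
  · intro x hx
    by_cases hx1 : x ∈ B₁
    · exact ⟨x, hx1, hψ2 x ⟨hx1, hx⟩⟩
    · have h1 := hd1 x ⟨hx, hx1⟩
      refine ⟨φ x, h1.1, ?_⟩
      have h2 := hψ1 _ h1
      exact hφ.injOn ⟨hE₂ h2.1.1, h2.1.2⟩ ⟨hE₂ hx, hx1⟩ h2.2
  · intro X hX
    -- the complement of the exchanged set
    have hψX : ∀ y ∈ X, ψ y ∈ B₂ := by
      intro y hy
      by_cases hy2 : y ∈ B₂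
      · rw [hψ2 y ⟨hX hy, hy2⟩]; exact hy2
      · exact (hψ1 y ⟨hX hy, hy2⟩).1.1
    rw [dual_isBase_iff']
    constructor
    · have h1 := hex (ψ '' (X \ B₂)) (by
        rintro _ ⟨y, hy, rfl⟩
        have := (hψ1 y ⟨hX hy.1, hy.2⟩).1
        exact ⟨hE₂ this.1, this.2⟩)
      have h2 : φ '' (ψ '' (X \ B₂)) = X \ B₂ := by
        ext y
        constructor
        · rintro ⟨_, ⟨z, hz, rfl⟩, rfl⟩
          rw [(hψ1 z ⟨hX hz.1, hz.2⟩).2]
          exact hz
        · intro hy
          exact ⟨ψ y, ⟨y, hy, rfl⟩, (hψ1 y ⟨hX hy.1, hy.2⟩).2⟩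
      rw [h2] at h1
      have h3 : M.E \ ((B₁ \ X) ∪ ψ '' X) = ((M.E \ B₁) \ ψ '' (X \ B₂)) ∪ (X \ B₂) := by
        ext z
        constructor
        · rintro ⟨hzE, hz⟩
          by_cases hzB : z ∈ B₁
          · right
            have hzX : z ∈ X := by
              by_contra hcon
              exact hz (Or.inl ⟨hzB, hcon⟩)
            refine ⟨hzX, fun hz2 => ?_⟩
            exact hz (Or.inr ⟨z, hzX, hψ2 z ⟨hzB, hz2⟩⟩)
          · left
            refine ⟨⟨hzE, hzB⟩, ?_⟩
            rintro ⟨y, hy, rfl⟩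
            exact hz (Or.inr ⟨y, hy.1, rfl⟩)
        · rintro (⟨⟨hzE, hzB⟩, hz⟩ | ⟨hzX, hz2⟩)
          · refine ⟨hzE, ?_⟩
            rintro (hz' | ⟨y, hy, rfl⟩)
            · exact hzB hz'.1
            · by_cases hy2 : y ∈ B₂
              · rw [hψ2 y ⟨hX hy, hy2⟩] at hzB
                exact hzB (hX hy)
              · exact hz ⟨y, ⟨hy, hy2⟩, rfl⟩
          · refine ⟨hE₁ (hX hzX), ?_⟩
            rintro (hz' | ⟨y, hy, hyz⟩)
            · exact hz'.2 hzX
            · exact hz2 (hyz ▸ hψX y hy)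
      rw [h3]
      exact h1
    · apply union_subset (sdiff_subset.trans hE₁)
      rintro _ ⟨y, hy, rfl⟩
      exact hE₂ (hψX y hy)

lemma sbo_contract [Finite α] {M : Matroid α} {C : Set α} (hC : C ⊆ M.E)
    (h : IsStronglyBaseOrderable M) : IsStronglyBaseOrderable (M ／ C) := by
  obtain ⟨I, hIC⟩ := M.exists_isBasis C hC
  have key : ∀ B, (M ／ C).IsBase B ↔ M.IsBase (B ∪ I) ∧ Disjoint C B := by
    intro B
    have hI : rk M C = I.ncard := by
      have := hIC.encard_eq_eRk
      rw [← cast_rk, ← cast_ncard'] at this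
      exact_mod_cast this.symm
    have hr := rk_contract M hC (U := M.E \ C) Subset.rfl
    rw [sdiff_union_of_subset hC] at hr
    rw [isBase_iff_indep_ncard, isBase_iff_indep_ncard, hIC.contract_indep_iff, contract_ground]
    constructor
    · rintro ⟨⟨h1, h2⟩, h3⟩
      refine ⟨⟨h1, ?_⟩, h2⟩
      rw [Set.ncard_union_eq (h2.mono_left hIC.subset).symm (Set.toFinite _) (Set.toFinite _)]
      omega
    · rintro ⟨⟨h1, h3⟩, h2⟩
      refine ⟨⟨h1, h2⟩, ?_⟩
      rw [Set.ncard_union_eq (h2.mono_left hIC.subset).symm (Set.toFinite _)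
        (Set.toFinite _)] at h3
      omega
  intro B₁ B₂ hB₁ hB₂
  rw [key] at hB₁ hB₂
  obtain ⟨hB₁, hd₁⟩ := hB₁
  obtain ⟨hB₂, hd₂⟩ := hB₂
  obtain ⟨φ, hφ, hex⟩ := h _ _ hB₁ hB₂
  have hfix := sbo_fix hB₁ hφ hex
  have hI : ∀ x ∈ I, φ x = x := fun x hx => hfix x ⟨Or.inr hx, Or.inr hx⟩
  have hdI₁ : ∀ x ∈ B₁, x ∉ I := fun x hx hxI => Set.disjoint_left.1 hd₁ (hIC.subset hxI) hx
  have hdI₂ : ∀ x ∈ B₂, x ∉ I := fun x hx hxI => Set.disjoint_left.1 hd₂ (hIC.subset hxI) hx
  have hmaps : ∀ x ∈ B₁, φ x ∈ B₂ := by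
    intro x hx
    rcases hφ.mapsTo (Or.inl hx) with h | h
    · exact h
    · exfalso
      have := hφ.injOn (Or.inr h) (Or.inl hx) (hI _ h)
      rw [this] at h
      exact hdI₁ x hx h
  refine ⟨φ, ⟨hmaps, hφ.injOn.mono subset_union_left, ?_⟩, ?_⟩
  · intro y hy
    obtain ⟨x, hx, rfl⟩ := hφ.surjOn (Or.inl hy)
    rcases hx with hx | hx
    · exact ⟨x, hx, rfl⟩
    · exfalso
      rw [hI x hx] at hy
      exact hdI₂ x hy hx
  · intro X hX
    rw [key]
    constructor
    · have h1 := hex X (hX.trans subset_union_left)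
      have h2 : (B₁ ∪ I) \ X ∪ φ '' X = B₁ \ X ∪ φ '' X ∪ I := by
        ext z
        constructor
        · rintro (⟨hz | hz, hzX⟩ | hz)
          · exact Or.inl (Or.inl ⟨hz, hzX⟩)
          · exact Or.inr hz
          · exact Or.inl (Or.inr hz)
        · rintro ((⟨hz, hzX⟩ | hz) | hz)
          · exact Or.inl ⟨Or.inl hz, hzX⟩
          · exact Or.inr hz
          · exact Or.inl ⟨Or.inr hz, fun hzX => hdI₁ z (hX hzX) hz⟩
      rw [← h2]
      exact h1
    · rw [Set.disjoint_left]
      rintro z hz (hz' | ⟨x, hx, rfl⟩)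
      · exact Set.disjoint_left.1 hd₁ hz hz'.1
      · exact Set.disjoint_left.1 hd₂ hz (hmaps x (hX hx))

lemma sbo_restrict [Finite α] {M : Matroid α} {R : Set α} (hR : R ⊆ M.E)
    (h : IsStronglyBaseOrderable M) : IsStronglyBaseOrderable (M ↾ R) := by
  have h1 : M ↾ R = (M✶ ／ (M.E \ R))✶ := by
    rw [dual_contract, dual_dual, delete_eq_restrict, sdiff_sdiff_right_self, inter_eq_right.2 hR]
  rw [h1]
  exact sbo_dual (sbo_contract sdiff_subset (sbo_dual h))

/-- exchange property for the sets whose size satisfies a condition -/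
def GenBO (c : ℕ → ℕ → Prop) {α : Type} (M : Matroid α) : Prop :=
  ∀ B₁ B₂ : Set α, M.IsBase B₁ → M.IsBase B₂ →
    ∃ φ : α → α, BijOn φ B₁ B₂ ∧ ∀ X ⊆ B₁, c X.ncard B₁.ncard → M.IsBase ((B₁ \ X) ∪ φ '' X)

lemma genBO_of_map {c : ℕ → ℕ → Prop} [Finite α] {M : Matroid α} {f : α → β}
    (hf : InjOn f M.E) (h : GenBO c (M.map f hf)) : GenBO c M := by
  classical
  intro B₁ B₂ hB₁ hB₂
  obtain ⟨φ, hφ, hex⟩ := h _ _ (hB₁.map hf) (hB₂.map hf)
  have h1 : ∀ x ∈ B₁, ∃ y ∈ B₂, f y = φ (f x) := by
    intro x hx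
    exact hφ.mapsTo ⟨x, hx, rfl⟩
  let ψ : α → α := fun x => if h : ∃ y, y ∈ B₂ ∧ f y = φ (f x) then h.choose else x
  have hψ : ∀ x ∈ B₁, ψ x ∈ B₂ ∧ f (ψ x) = φ (f x) := by
    intro x hx
    have h : ∃ y, y ∈ B₂ ∧ f y = φ (f x) := by
      obtain ⟨y, hy, hy'⟩ := h1 x hx
      exact ⟨y, hy, hy'⟩
    simp only [ψ, dif_pos h]
    exact h.choose_spec
  have hE1 := hB₁.subset_ground
  have hE2 := hB₂.subset_ground
  refine ⟨ψ, ⟨fun x hx => (hψ x hx).1, ?_, ?_⟩, ?_⟩
  · intro x hx y hy hxy
    have h2 := (hψ x hx).2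
    rw [hxy, (hψ y hy).2] at h2
    exact (hf (hE1 hy) (hE1 hx) (hφ.injOn ⟨y, hy, rfl⟩ ⟨x, hx, rfl⟩ h2)).symm
  · intro y hy
    obtain ⟨_, ⟨x, hx, rfl⟩, hxy⟩ := hφ.surjOn (show f y ∈ f '' B₂ from ⟨y, hy, rfl⟩)
    refine ⟨x, hx, hf (hE2 (hψ x hx).1) (hE2 hy) ?_⟩
    rw [(hψ x hx).2, hxy]
  · intro X hX hc
    have h2 := hex (f '' X) (image_mono hX) (by
      rw [(hf.mono (hX.trans hE1)).ncard_image, (hf.mono hE1).ncard_image]
      exact hc)
    have h3 : f '' B₁ \ f '' X ∪ φ '' (f '' X) = f '' ((B₁ \ X) ∪ ψ '' X) := by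
      rw [image_union, ← image_comp, ← image_comp,
        (hf.mono hE1).image_sdiff_subset hX]
      congr 1
      exact image_congr (fun x hx => (hψ x (hX hx)).2.symm)
    rw [h3, map_image_isBase_iff] at h2
    · exact h2
    · apply union_subset (sdiff_subset.trans hE1)
      rintro _ ⟨x, hx, rfl⟩
      exact hE2 (hψ x (hX hx)).1

lemma genBO_map {c : ℕ → ℕ → Prop} [Finite α] {M : Matroid α} {f : α → β}
    (hf : Function.Injective f) (h : GenBO c M) : GenBO c (M.map f hf.injOn) := by
  classical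
  intro B₁' B₂' hB₁' hB₂'
  obtain ⟨B₁, hB₁, rfl⟩ := (map_isBase_iff _ _ _).1 hB₁'
  obtain ⟨B₂, hB₂, rfl⟩ := (map_isBase_iff _ _ _).1 hB₂'
  obtain ⟨φ, hφ, hex⟩ := h B₁ B₂ hB₁ hB₂
  let ψ : β → β := fun y => if h : ∃ x, f x = y then f (φ h.choose) else y
  have hψ : ∀ x, ψ (f x) = f (φ x) := by
    intro x
    have h : ∃ x', f x' = f x := ⟨x, rfl⟩
    simp only [ψ, dif_pos h]
    rw [hf h.choose_spec]
  refine ⟨ψ, ⟨?_, ?_, ?_⟩, ?_⟩
  · rintro _ ⟨x, hx, rfl⟩
    rw [hψ]
    exact ⟨_, hφ.mapsTo hx, rfl⟩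
  · rintro _ ⟨x, hx, rfl⟩ _ ⟨y, hy, rfl⟩ hxy
    rw [hψ, hψ] at hxy
    rw [hφ.injOn hx hy (hf hxy)]
  · rintro _ ⟨y, hy, rfl⟩
    obtain ⟨x, hx, rfl⟩ := hφ.surjOn hy
    exact ⟨f x, ⟨x, hx, rfl⟩, hψ x⟩
  · intro X' hX' hc
    obtain ⟨X, hX, rfl⟩ := subset_image_iff.1 hX'
    have h2 := hex X hX (by
      rw [Set.ncard_image_of_injective _ hf, Set.ncard_image_of_injective _ hf] at hc
      exact hc)
    have h3 : f '' B₁ \ f '' X ∪ ψ '' (f '' X) = f '' ((B₁ \ X) ∪ φ '' X) := by
      rw [image_union, ← image_comp, ← image_comp, image_sdiff hf]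
      congr 1
      exact image_congr (fun x _ => hψ x)
    rw [h3, map_isBase_iff]
    exact ⟨_, h2, rfl⟩

lemma genBO_iso {c : ℕ → ℕ → Prop} [Finite α] [Finite β] {M : Matroid α} {N : Matroid β}
    (h : Iso M N) (hM : GenBO c M) : GenBO c N := by
  refine iso_transport (fun M => GenBO c M) ?_ ?_ h hM
  · intro γ δ _ _ K f hf hK
    exact genBO_map hf hK
  · intro γ δ _ _ K f hf hK
    exact genBO_of_map hf.injOn hK

lemma bo_iff_gen {M : Matroid α} :
    IsBaseOrderable M ↔ GenBO (fun a b => a = 1 ∨ a + 1 = b) M := Iff.rfl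

lemma sbo_iff_gen {M : Matroid α} :
    IsStronglyBaseOrderable M ↔ GenBO (fun _ _ => True) M := by
  unfold IsStronglyBaseOrderable GenBO
  simp

lemma bo_of_sbo {M : Matroid α} (h : IsStronglyBaseOrderable M) : IsBaseOrderable M := by
  intro B₁ B₂ hB₁ hB₂
  obtain ⟨φ, hφ, hex⟩ := h B₁ B₂ hB₁ hB₂
  exact ⟨φ, hφ, fun X hX _ => hex X hX⟩

lemma sbo_of_rep [Finite α] {M : Matroid α} (h : Rep M) : IsStronglyBaseOrderable M := by
  obtain ⟨V, ι, hV, hι, D, e, he, h⟩ := h
  have h0 : Sdr D ∅ := by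
    have := (h ∅ (empty_subset _)).1 M.empty_indep
    simpa using this
  have hmap : M.map e he = (tm D)✶ ↾ (e '' M.E) := by
    refine Matroid.ext_indep rfl ?_
    intro Y hY
    obtain ⟨X, hX, rfl⟩ := (subset_image_iff.1 (show Y ⊆ e '' M.E from hY))
    rw [map_image_indep_iff hX, h X hX, restrict_indep_iff, tm_dual_indep h0]
    exact ⟨fun h => ⟨h, image_mono hX⟩, fun h => h.1⟩
  rw [sbo_iff_gen]
  apply genBO_of_map he
  rw [← sbo_iff_gen, hmap]
  exact sbo_restrict (subset_univ _) (sbo_dual (sbo_tm h0))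

end Pool.Agent.Lib.MP_96faa3_co
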