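import Pool.Agent.Lib.MP_96faa3_co.QClass

/-! Elementary split matroids and the non base-orderable example. -/

namespace Pool.Agent.Lib.MP_96faa3_co

open Set Matroid

section split

variable {α ι : Type} [Finite α]

/-- the independent sets of the split matroid -/
def SplIndep {α ι : Type} (F : ι → Set α) (r ρ : ℕ) (I : Set α) : Prop :=
  I.ncard ≤ r ∧ ∀ a, (I ∩ F a).ncard ≤ ρ

lemma spl_tight {F : ι → Set α} {r ρ : ℕ}
    (hF : ∀ a b, a ≠ b → (F a ∩ F b).ncard + r ≤ 2 * ρ) {I : Set α} {a b : ι} (hab : a ≠ b)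
    (ha : (I ∩ F a).ncard = ρ) (hb : (I ∩ F b).ncard = ρ) : r ≤ I.ncard := by
  have h1 := Set.ncard_union_add_ncard_inter (I ∩ F a) (I ∩ F b) (Set.toFinite _) (Set.toFinite _)
  have h2 : (I ∩ F a ∪ I ∩ F b).ncard ≤ I.ncard :=
    Set.ncard_le_ncard (union_subset inter_subset_left inter_subset_left) (Set.toFinite _)
  have h3 : (I ∩ F a ∩ (I ∩ F b)).ncard ≤ (F a ∩ F b).ncard :=
    Set.ncard_le_ncard (fun x hx => ⟨hx.1.2, hx.2.2⟩) (Set.toFinite _)
  have h4 := hF a b hab
  omega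

lemma spl_not_insert {F : ι → Set α} {r ρ : ℕ} {I : Set α} (hI : SplIndep F r ρ I) {e : α}
    (he : e ∉ I) (hlt : I.ncard < r) (h : ¬ SplIndep F r ρ (insert e I)) :
    ∃ a, e ∈ F a ∧ (I ∩ F a).ncard = ρ := by
  unfold SplIndep at h
  push Not at h
  have h1 : (insert e I).ncard ≤ r := by
    rw [Set.ncard_insert_of_notMem he (Set.toFinite _)]
    omega
  obtain ⟨a, ha⟩ := h h1
  have hea : e ∈ F a := by
    by_contra hcon
    have : insert e I ∩ F a = I ∩ F a := by
      ext x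
      constructor
      · rintro ⟨rfl | hx, hxF⟩
        · exact absurd hxF hcon
        · exact ⟨hx, hxF⟩
      · rintro ⟨hx, hxF⟩
        exact ⟨Or.inr hx, hxF⟩
    rw [this] at ha
    have := hI.2 a
    omega
  refine ⟨a, hea, ?_⟩
  have h2 : insert e I ∩ F a = insert e (I ∩ F a) := by
    ext x
    constructor
    · rintro ⟨rfl | hx, hxF⟩
      · exact Or.inl rfl
      · exact Or.inr ⟨hx, hxF⟩
    · rintro (rfl | ⟨hx, hxF⟩)
      · exact ⟨Or.inl rfl, hea⟩
      · exact ⟨Or.inr hx, hxF⟩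
  rw [h2, Set.ncard_insert_of_notMem (fun h => he h.1) (Set.toFinite _)] at ha
  have := hI.2 a
  omega

/-- split matroid -/
noncomputable def spl (F : ι → Set α) (r ρ : ℕ)
    (hF : ∀ a b, a ≠ b → (F a ∩ F b).ncard + r ≤ 2 * ρ) : Matroid α :=
  (IndepMatroid.ofFinite (E := univ) (Set.toFinite _) (SplIndep F r ρ)
    (by constructor <;> simp)
    (by
      rintro I J ⟨h1, h2⟩ hIJ
      exact ⟨(Set.ncard_le_ncard hIJ (Set.toFinite _)).trans h1,
        fun a => (Set.ncard_le_ncard (inter_subset_inter_left _ hIJ) (Set.toFinite _)).trans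
          (h2 a)⟩)
    (by
      intro I J hI hJ hlt
      by_contra hcon
      push Not at hcon
      have hIr : I.ncard < r := lt_of_lt_of_le hlt hJ.1
      have hne : (J \ I).Nonempty := by
        by_contra h
        rw [Set.not_nonempty_iff_eq_empty, sdiff_eq_empty] at h
        have := Set.ncard_le_ncard h (Set.toFinite _)
        omega
      obtain ⟨e0, he0, he0I⟩ := hne
      obtain ⟨a, -, ha⟩ := spl_not_insert hI he0I hIr (hcon e0 he0 he0I)
      have hsub : J \ I ⊆ F a := by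
        rintro e ⟨he, heI⟩
        obtain ⟨b, hb, hb'⟩ := spl_not_insert hI heI hIr (hcon e he heI)
        by_cases hab : a = b
        · rw [hab]; exact hb
        · have := spl_tight hF hab ha hb'
          omega
      have h1 := hJ.2 a
      have h2 : ((J \ I) ∪ (I ∩ J ∩ F a)).ncard = (J \ I).ncard + (I ∩ J ∩ F a).ncard := by
        refine Set.ncard_union_eq ?_ (Set.toFinite _) (Set.toFinite _)
        rw [Set.disjoint_left]
        rintro x hx ⟨⟨hx', -⟩, -⟩
        exact hx.2 hx'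
      have h3 : ((J \ I) ∪ (I ∩ J ∩ F a)).ncard ≤ (J ∩ F a).ncard := by
        refine Set.ncard_le_ncard ?_ (Set.toFinite _)
        rintro x (hx | hx)
        · exact ⟨hx.1, hsub hx⟩
        · exact ⟨hx.1.2, hx.2⟩
      have h4 : (I ∩ F a).ncard ≤ (I ∩ J ∩ F a).ncard + (I \ J).ncard := by
        refine le_trans (Set.ncard_le_ncard ?_ (Set.toFinite _)) (Set.ncard_union_le _ _)
        rintro x ⟨hx, hxF⟩
        by_cases hxJ : x ∈ J
        · exact Or.inl ⟨⟨hx, hxJ⟩, hxF⟩
        · exact Or.inr ⟨hx, hxJ⟩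
      have h5 := Set.ncard_inter_add_ncard_sdiff_eq_ncard J I (Set.toFinite _)
      have h6 := Set.ncard_inter_add_ncard_sdiff_eq_ncard I J (Set.toFinite _)
      rw [inter_comm] at h6
      omega)
    (fun _ _ => subset_univ _)).matroid

@[simp] lemma spl_ground (F : ι → Set α) (r ρ : ℕ) (hF) : (spl F r ρ hF).E = univ := rfl

@[simp] lemma spl_indep (F : ι → Set α) (r ρ : ℕ) (hF) (I : Set α) :
    (spl F r ρ hF).Indep I ↔ I.ncard ≤ r ∧ ∀ a, (I ∩ F a).ncard ≤ ρ := Iff.rfl

/-- comparison of the split matroid with the relaxation omitting the constraint `c` -/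
lemma spl_compare (F : ι → Set α) (r ρ : ℕ)
    (hF : ∀ a b, a ≠ b → (F a ∩ F b).ncard + r ≤ 2 * ρ) (c : ι)
    (hF' : ∀ a b : {a : ι // a ≠ c}, a ≠ b → (F a ∩ F b).ncard + r ≤ 2 * ρ) (U : Set α)
    (h : rk (spl F r ρ hF) U < rk (spl (fun a : {a : ι // a ≠ c} => F a) r ρ hF') U) :
    ρ + (U \ F c).ncard ≤ rk (spl F r ρ hF) U := by
  obtain ⟨I, hIU, hI, hIc, hbas⟩ := exists_indep_rk (spl F r ρ hF) U
  obtain ⟨J, hJU, hJ, hJc, -⟩ :=
    exists_indep_rk (spl (fun a : {a : ι // a ≠ c} => F a) r ρ hF') U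
  have hIL : (spl (fun a : {a : ι // a ≠ c} => F a) r ρ hF').Indep I := by
    rw [spl_indep] at hI ⊢
    exact ⟨hI.1, fun a => hI.2 a⟩
  have hlt : I.ncard < J.ncard := by omega
  have hIr : I.ncard < r := lt_of_lt_of_le hlt ((spl_indep _ _ _ _ _).1 hJ).1
  obtain ⟨e, he, hei⟩ := hIL.augment hJ (by
    rw [← cast_ncard', ← cast_ncard']
    exact_mod_cast hlt)
  have hmax : ∀ x ∈ U, x ∉ I → ¬ (spl F r ρ hF).Indep (insert x I) := by
    intro x hx hxI hcon
    have := hbas.eq_of_subset_indep hcon (subset_insert _ _) (insert_subset hx hIU)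
    exact hxI (this ▸ mem_insert _ _)
  have hc : (I ∩ F c).ncard = ρ := by
    have h1 : ¬ SplIndep F r ρ (insert e I) := hmax e (hJU he.1) he.2
    obtain ⟨a, hea, ha⟩ := spl_not_insert hI he.2 hIr h1
    by_cases hac : a = c
    · rw [← hac]; exact ha
    · exfalso
      have h2 := ((spl_indep _ _ _ _ _).1 hei).2 ⟨a, hac⟩
      have h3 : insert e I ∩ F a = insert e (I ∩ F a) := by
        ext x
        constructor
        · rintro ⟨rfl | hx, hxF⟩
          · exact Or.inl rfl
          · exact Or.inr ⟨hx, hxF⟩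
        · rintro (rfl | ⟨hx, hxF⟩)
          · exact ⟨Or.inl rfl, hea⟩
          · exact ⟨Or.inr hx, hxF⟩
      rw [h3, Set.ncard_insert_of_notMem (fun h => he.2 h.1) (Set.toFinite _)] at h2
      omega
  have hsub : U \ F c ⊆ I \ F c := by
    rintro x ⟨hx, hxc⟩
    refine ⟨?_, hxc⟩
    by_contra hxI
    obtain ⟨a, hxa, ha⟩ := spl_not_insert hI hxI hIr (hmax x hx hxI)
    have hac : a ≠ c := by
      rintro rfl
      exact hxc hxa
    have := spl_tight hF hac ha hc
    omega
  have h1 := Set.ncard_inter_add_ncard_sdiff_eq_ncard I (F c) (Set.toFinite _)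
  have h2 := Set.ncard_le_ncard hsub (Set.toFinite _)
  omega

end split

end Pool.Agent.Lib.MP_96faa3_co
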